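import Pool.Agent.Lib.MP_ae662e_lc.Map

/-!
# The shift graph: line digraphs over barriers
-/

namespace ShiftGraph

open Filter

/-- The set of the first `n` elements of `x`. -/
def init (x : Seq) (n : ℕ) : Finset ℕ := (Finset.range n).image x.1

/-- A barrier whose elements have at least two elements. -/
structure IsBarrier (F : Set (Finset ℕ)) : Prop where
  front : ∀ x : Seq, ∃ n, init x n ∈ F
  sperner : ∀ s ∈ F, ∀ t ∈ F, s ⊆ t → s = t
  two : ∀ s ∈ F, 2 ≤ s.card

/-- The digraph whose vertices are the (codes `∑ 2 ^ i` of the) walks `s ∈ F` of `R`, and `s` is joined to `t` if `s` and `t` are initial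
segments of `x` and `S x` for some `x`. -/
def LineF (F : Set (Finset ℕ)) (R : ℕ → ℕ → Prop) : ℕ → ℕ → Prop := fun a b =>
  ∃ (x : Seq) (m n : ℕ), init x m ∈ F ∧ init (S x) n ∈ F ∧ (∀ i, i + 1 < m → R (x.1 i) (x.1 (i + 1))) ∧
    a = ∑ i ∈ init x m, 2 ^ i ∧ b = ∑ i ∈ init (S x) n, 2 ^ i

/-- the least element of the set coded by `a` -/
private noncomputable def low (a : ℕ) : ℕ := sInf (a.bitIndices.toFinset : Set ℕ)

private theorem init_card (x : Seq) (n : ℕ) : (init x n).card = n := by
  unfold init
  rw [Finset.card_image_of_injective _ x.2.injective, Finset.card_range]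

private theorem low_init (x : Seq) (n : ℕ) (hn : 0 < n) : low (∑ i ∈ init x n, 2 ^ i) = x.1 0 := by
  unfold low
  rw [Finset.toFinset_bitIndices_sum_two_pow]
  refine IsLeast.csInf_eq ⟨?_, ?_⟩
  · exact Finset.mem_coe.2 (Finset.mem_image.2 ⟨0, Finset.mem_range.2 hn, rfl⟩)
  · intro a ha
    obtain ⟨i, _, rfl⟩ := Finset.mem_image.1 (Finset.mem_coe.1 ha)
    exact x.2.monotone (Nat.zero_le i)

private theorem lineF_low {F : Set (Finset ℕ)} (hF : IsBarrier F) {R : ℕ → ℕ → Prop} {a b : ℕ} (h : LineF F R a b) :
    low a < low b ∧ R (low a) (low b) := by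
  obtain ⟨x, m, n, hm, hn, hR, rfl, rfl⟩ := h
  have h1 : 2 ≤ m := by
    have h2 := hF.two _ hm
    rwa [init_card] at h2
  have h3 : 2 ≤ n := by
    have h2 := hF.two _ hn
    rwa [init_card] at h2
  rw [low_init x m (by omega), low_init (S x) n (by omega)]
  exact ⟨x.2 (Nat.lt_succ_self 0), hR 0 (by omega)⟩

/-- the points whose sequence of least elements is strictly increasing -/
private def UB : Set Seq := {x | StrictMono fun n => low (x.1 n)}

private theorem UB_measurable : MeasurableSet UB := by
  have h1 : UB = ⋂ n : ℕ, {x : Seq | low (x.1 n) < low (x.1 (n + 1))} := by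
    ext x
    simp only [UB, Set.mem_ofPred_eq, Set.mem_iInter]
    exact ⟨fun h n => h (Nat.lt_succ_self n), strictMono_nat_of_lt_succ⟩
  rw [h1]
  refine MeasurableSet.iInter fun n => measurableSet_lt ?_ ?_
  · exact (measurable_from_top (f := low)).comp (measurable_eval n)
  · exact (measurable_from_top (f := low)).comp (measurable_eval (n + 1))

open Classical in
private noncomputable def PsiB (x : Seq) : Seq :=
  ⟨fun n => if x ∈ UB then low (x.1 n) else x.1 n, by
    intro a b hab
    by_cases h : x ∈ UB
    · simp only [if_pos h]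
      exact h hab
    · simp only [if_neg h]
      exact x.2 hab⟩

private theorem PsiB_measurable : Measurable PsiB := by
  classical
  refine Measurable.subtype_mk ?_
  exact measurable_pi_lambda _ fun n => Measurable.ite UB_measurable
    ((measurable_from_top (f := low)).comp (measurable_eval n)) (measurable_eval n)

private theorem PsiB_apply {x : Seq} (h : x ∈ UB) (n : ℕ) : (PsiB x).1 n = low (x.1 n) := by
  classical
  change (if x ∈ UB then low (x.1 n) else x.1 n) = _
  rw [if_pos h]

theorem lineF_colour {F : Set (Finset ℕ)} (hF : IsBarrier F) {R : ℕ → ℕ → Prop} {k : ℕ} (h : BorelColourable k (Paths R)) :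
    BorelColourable 3 (Paths (LineF F R)) := by
  have hUS : ∀ x ∈ UB, S x ∈ UB := fun x hx => fun a b hab => hx (Nat.add_lt_add_right hab 1)
  refine colour_of_map UB UB_measurable PsiB PsiB_measurable (Paths_measurable R) (Paths_inv R) h ?_ ?_
  · intro x hx
    refine ⟨hUS x hx, Subtype.ext (funext fun n => ?_)⟩
    rw [PsiB_apply (hUS x hx)]
    change _ = (PsiB x).1 (n + 1)
    rw [PsiB_apply hx]
    rfl
  · intro x hx
    obtain ⟨N, hN⟩ := Filter.eventually_atTop.1 (show ∀ᶠ n in atTop, LineF F R (x.1 n) (x.1 (n + 1)) from hx)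
    have h1 : S^[N] x ∈ UB := by
      refine strictMono_nat_of_lt_succ fun i => ?_
      rw [iter_apply, iter_apply]
      exact (lineF_low hF (hN (N + i) (by omega))).1
    refine ⟨N, h1, Filter.Eventually.of_forall fun n => ?_⟩
    rw [PsiB_apply h1, PsiB_apply h1, iter_apply, iter_apply]
    exact (lineF_low hF (hN (N + n) (by omega))).2

open Classical in
/-- the length of the initial segment in `F` -/
private noncomputable def len {F : Set (Finset ℕ)} (hF : IsBarrier F) (x : Seq) : ℕ := Nat.find (hF.front x)

private theorem len_spec {F : Set (Finset ℕ)} (hF : IsBarrier F) (x : Seq) : init x (len hF x) ∈ F := by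
  classical
  exact Nat.find_spec (hF.front x)

private noncomputable def codeB {F : Set (Finset ℕ)} (hF : IsBarrier F) (x : Seq) : ℕ := ∑ i ∈ init x (len hF x), 2 ^ i

private theorem len_pos {F : Set (Finset ℕ)} (hF : IsBarrier F) (x : Seq) : 2 ≤ len hF x := by
  have h2 := hF.two _ (len_spec hF x)
  rwa [init_card] at h2

private theorem codeB_lt {F : Set (Finset ℕ)} (hF : IsBarrier F) (x : Seq) : codeB hF x < codeB hF (S x) := by
  have h0 := len_pos hF x
  have h1 := len_pos hF (S x)
  -- the last element increases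
  have h2 : x.1 (len hF x - 1) < (S x).1 (len hF (S x) - 1) := by
    by_contra hcon
    rw [not_lt] at hcon
    have h3 : len hF (S x) ≤ len hF x - 1 := by
      have h4 : (S x).1 (len hF (S x) - 1) = x.1 (len hF (S x)) := by
        change x.1 (len hF (S x) - 1 + 1) = _
        rw [Nat.sub_add_cancel (by omega)]
      rw [h4] at hcon
      exact x.2.le_iff_le.1 hcon
    have h5 : init (S x) (len hF (S x)) ⊆ init x (len hF x) := by
      intro a ha
      obtain ⟨i, hi, rfl⟩ := Finset.mem_image.1 ha
      rw [Finset.mem_range] at hi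
      exact Finset.mem_image.2 ⟨i + 1, Finset.mem_range.2 (by omega), rfl⟩
    have h6 := congrArg Finset.card (hF.sperner _ (len_spec hF (S x)) _ (len_spec hF x) h5)
    rw [init_card, init_card] at h6
    omega
  have h3 : codeB hF x < 2 ^ (x.1 (len hF x - 1) + 1) := by
    refine Nat.geomSum_lt le_rfl fun k hk => ?_
    obtain ⟨i, hi, rfl⟩ := Finset.mem_image.1 hk
    rw [Finset.mem_range] at hi
    exact Nat.lt_succ_of_le (x.2.monotone (by omega))
  have h4 : 2 ^ (S x).1 (len hF (S x) - 1) ≤ codeB hF (S x) := by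
    refine Finset.single_le_sum (f := fun i => 2 ^ i) (fun _ _ => Nat.zero_le _) ?_
    exact Finset.mem_image.2 ⟨len hF (S x) - 1, Finset.mem_range.2 (by omega), rfl⟩
  exact h3.trans_le ((Nat.pow_le_pow_right (by norm_num) h2).trans h4)

private theorem init_measurable (n : ℕ) (A : Set (Finset ℕ)) : MeasurableSet {x : Seq | init x n ∈ A} := by
  classical
  have h1 : Measurable fun x : Seq => fun i : Fin n => x.1 i := measurable_pi_lambda _ fun i => measurable_eval i
  have h2 : {x : Seq | init x n ∈ A} = (fun x : Seq => fun i : Fin n => x.1 i) ⁻¹' {w | Finset.univ.image w ∈ A} := by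
    ext x
    have h3 : Finset.univ.image (fun i : Fin n => x.1 i) = init x n := by
      ext a
      simp only [init, Finset.mem_image, Finset.mem_univ, true_and, Finset.mem_range]
      constructor
      · rintro ⟨i, rfl⟩
        exact ⟨i, i.2, rfl⟩
      · rintro ⟨i, hi, rfl⟩
        exact ⟨⟨i, hi⟩, rfl⟩
    change init x n ∈ A ↔ Finset.univ.image (fun i : Fin n => x.1 i) ∈ A
    rw [h3]
  rw [h2]
  exact h1 (Set.to_countable _).measurableSet

private theorem codeB_measurable {F : Set (Finset ℕ)} (hF : IsBarrier F) : Measurable (codeB hF) := by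
  classical
  have hlen : Measurable (len hF) := by
    refine measurable_find _ fun n => ?_
    exact init_measurable n F
  refine measurable_to_countable' fun v => ?_
  have h1 : codeB hF ⁻¹' {v} = ⋃ n : ℕ, (len hF ⁻¹' {n}) ∩ {x : Seq | init x n ∈ {s : Finset ℕ | ∑ i ∈ s, 2 ^ i = v}} := by
    ext x
    simp only [Set.mem_iUnion]
    constructor
    · intro hx
      exact ⟨len hF x, rfl, hx⟩
    · rintro ⟨n, hn, hx⟩
      have hn' : len hF x = n := hn
      subst hn'
      exact hx
  rw [h1]
  exact MeasurableSet.iUnion fun n => (hlen (MeasurableSet.singleton n)).inter (init_measurable n _)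

theorem lineF_hom {F : Set (Finset ℕ)} (hF : IsBarrier F) {R : ℕ → ℕ → Prop} (h : BorelHom (Paths R)) :
    BorelHom (Paths (LineF F R)) := by
  obtain ⟨f, h1, h2, h3⟩ := h
  have hm : ∀ v : Seq, StrictMono fun n => codeB hF (S^[n] v) := fun v =>
    strictMono_nat_of_lt_succ fun n => by
      rw [Function.iterate_succ_apply']
      exact codeB_lt hF _
  let Φ : Seq → Seq := fun v => ⟨fun n => codeB hF (S^[n] v), hm v⟩
  have hΦ : Measurable Φ := by
    refine Measurable.subtype_mk ?_
    exact measurable_pi_lambda _ fun n => (codeB_measurable hF).comp (measurable_iter n)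
  have hΦS : ∀ v, Φ (S v) = S (Φ v) := by
    intro v
    refine Subtype.ext (funext fun n => ?_)
    change codeB hF (S^[n] (S v)) = codeB hF (S^[n + 1] v)
    rw [Function.iterate_succ_apply]
  refine ⟨fun x => Φ (f x), hΦ.comp h1, ?_, ?_⟩
  · intro x
    have h4 : ∀ᶠ n in atTop, R ((f x).1 n) ((f x).1 (n + 1)) := h2 x
    obtain ⟨N, hN⟩ := Filter.eventually_atTop.1 h4
    refine Filter.eventually_atTop.2 ⟨N, fun n hn => ?_⟩
    change LineF F R (codeB hF (S^[n] (f x))) (codeB hF (S^[n + 1] (f x)))
    refine ⟨S^[n] (f x), len hF (S^[n] (f x)), len hF (S (S^[n] (f x))), len_spec hF _, len_spec hF _, ?_, rfl, ?_⟩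
    · intro i _
      rw [iter_apply, iter_apply]
      exact hN (n + i) (by omega)
    · rw [Function.iterate_succ_apply']
      rfl
  · intro x y hxy
    rcases h3 x y hxy with h4 | h4
    · left
      change Φ (f y) = S (Φ (f x))
      rw [h4, hΦS]
    · right
      change Φ (f x) = S (Φ (f y))
      rw [h4, hΦS]

end ShiftGraph
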