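import Mathlib

/-!
# The shift graph: definitions and the marker lemma

An infinite subset of `ℕ` is given by its increasing enumeration, `Seq` carries the subspace topology of `ℕ → ℕ` and its Borel sets.
-/

namespace ShiftGraph

open Filter

/-- The infinite subsets of `ℕ`, as strictly increasing sequences. -/
abbrev Seq : Type := {x : ℕ → ℕ // StrictMono x}

/-- The infinite subset of `ℕ` with the enumeration `x`. -/
def toSet (x : Seq) : Set ℕ := Set.range x.1

/-- The shift: the minimum is removed. -/
def S (x : Seq) : Seq := ⟨fun n => x.1 (n + 1), fun _ _ h => x.2 (Nat.add_lt_add_right h 1)⟩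

/-- Adjacency in the shift graph. -/
def Adj (x y : Seq) : Prop := y = S x ∨ x = S y

/-- `x` and `y` differ by finitely many elements. -/
def E0 (x y : Seq) : Prop := (symmDiff (toSet x) (toSet y)).Finite

/-- `B` is `E₀`-invariant. -/
def Inv (B : Set Seq) : Prop := ∀ x y : Seq, E0 x y → x ∈ B → y ∈ B

/-- There is a Borel homomorphism from the shift graph to its restriction to `B`. -/
def BorelHom (B : Set Seq) : Prop :=
  ∃ f : Seq → Seq, Measurable f ∧ (∀ x, f x ∈ B) ∧ ∀ x y, Adj x y → Adj (f x) (f y)

/-- The restriction of the shift graph to `B` has a Borel colouring with `k` colours. -/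
def BorelColourable (k : ℕ) (B : Set Seq) : Prop :=
  ∃ c : B → Fin k, Measurable c ∧ ∀ x y : B, Adj x.1 y.1 → c x ≠ c y

theorem borelSpace : BorelSpace Seq := inferInstance

theorem toSet_S (x : Seq) : toSet (S x) = toSet x \ {x.1 0} := by
  ext n
  constructor
  · rintro ⟨k, rfl⟩
    refine ⟨⟨k + 1, rfl⟩, ?_⟩
    intro h
    have h1 : x.1 (k + 1) = x.1 0 := h
    exact absurd (x.2.injective h1) (Nat.succ_ne_zero k)
  · rintro ⟨⟨k, rfl⟩, h⟩
    rcases k with _ | k
    · exact absurd rfl h
    · exact ⟨k, rfl⟩

theorem E0_S (x : Seq) : E0 x (S x) := by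
  unfold E0
  rw [toSet_S]
  refine (Set.finite_singleton (x.1 0)).subset ?_
  intro n hn
  rcases hn with h | h
  · by_contra hne
    exact h.2 ⟨h.1, hne⟩
  · exact absurd h.1.1 h.2

theorem Inv.S_mem {B : Set Seq} (h : Inv B) {x : Seq} (hx : x ∈ B) : S x ∈ B := h x (S x) (E0_S x) hx

theorem Inv.iter {B : Set Seq} (h : Inv B) {x : Seq} (hx : x ∈ B) (n : ℕ) : S^[n] x ∈ B := by
  induction n with
  | zero => exact hx
  | succ n ih =>
    rw [Function.iterate_succ_apply']
    exact h.S_mem ih

theorem iter_apply (x : Seq) (n k : ℕ) : (S^[n] x).1 k = x.1 (n + k) := by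
  induction n generalizing k with
  | zero => simp
  | succ n ih =>
    rw [Function.iterate_succ_apply']
    change (S^[n] x).1 (k + 1) = _
    rw [ih, Nat.add_right_comm n 1 k, Nat.add_assoc n k 1]

theorem measurable_eval (n : ℕ) : Measurable fun x : Seq => x.1 n :=
  (measurable_pi_apply n).comp measurable_subtype_coe

theorem measurable_S : Measurable S := by
  refine Measurable.subtype_mk ?_
  exact measurable_pi_lambda _ fun n => measurable_eval (n + 1)

theorem measurable_iter (n : ℕ) : Measurable (S^[n]) := measurable_S.iterate n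

/-- The marker lemma: a recurrent set without two consecutive elements gives a colouring with three colours. -/
theorem colour_of_marker {B : Set Seq} (M : Set Seq)
    (hM : MeasurableSet M) (hrec : ∀ x ∈ B, ∃ n, S^[n] x ∈ M) (hind : ∀ x ∈ B, x ∈ M → S x ∉ M) :
    BorelColourable 3 B := by
  classical
  -- the distance to `M`
  let d : B → ℕ := fun x => Nat.find (hrec x.1 x.2)
  have hd : Measurable d := by
    refine measurable_find _ fun n => ?_
    exact (measurable_iter n).comp measurable_subtype_coe hM
  let g : ℕ → Fin 3 := fun n => if n = 0 then 2 else if n % 2 = 0 then 0 else 1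
  have hdS : ∀ (x : B) (y : B), y.1 = S x.1 → x.1 ∉ M → d x = d y + 1 := by
    intro x y hy hx
    have h1 : S^[d x] x.1 ∈ M := Nat.find_spec (hrec x.1 x.2)
    have h2 : S^[d y] y.1 ∈ M := Nat.find_spec (hrec y.1 y.2)
    have hpos : d x ≠ 0 := by
      intro h0
      rw [h0] at h1
      exact hx h1
    apply le_antisymm
    · refine Nat.find_le ?_
      rw [Function.iterate_succ_apply, ← hy]
      exact h2
    · have h3 : d y ≤ d x - 1 := by
        refine Nat.find_le ?_
        rw [hy, ← Function.iterate_succ_apply, Nat.succ_eq_add_one, Nat.sub_add_cancel (Nat.one_le_iff_ne_zero.2 hpos)]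
        exact h1
      omega
  have hd0 : ∀ x : B, d x = 0 ↔ x.1 ∈ M := by
    intro x
    constructor
    · intro h
      have h1 : S^[d x] x.1 ∈ M := Nat.find_spec (hrec x.1 x.2)
      rw [h] at h1
      exact h1
    · intro h
      exact (Nat.find_eq_zero _).2 h
  have key : ∀ (x y : B), y.1 = S x.1 → g (d x) ≠ g (d y) := by
    intro x y hy
    by_cases hx : x.1 ∈ M
    · have h1 : d x = 0 := (hd0 x).2 hx
      have h2 : d y ≠ 0 := by
        rw [Ne, hd0, hy]
        exact hind x.1 x.2 hx
      simp only [g]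
      rw [if_pos h1, if_neg h2]
      split_ifs <;> decide
    · have h1 := hdS x y hy hx
      simp only [g]
      by_cases h2 : d y = 0
      · rw [h1, h2]
        decide
      · rw [h1, if_neg (Nat.succ_ne_zero _), if_neg h2]
        rcases Nat.mod_two_eq_zero_or_one (d y) with h3 | h3
        · rw [if_pos h3, if_neg (by omega)]
          decide
        · rw [if_pos (by omega), if_neg (by omega)]
          decide
  refine ⟨fun x => g (d x), (measurable_from_top (f := g)).comp hd, ?_⟩
  intro x y hxy
  rcases hxy with h | h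
  · exact key x y h
  · exact (key y x h).symm

/-- If every point of `B` is split by one of countably many Borel sets then there is a colouring with three colours. -/
theorem colour_of_split {B : Set Seq} (A : ℕ → Set Seq)
    (hA : ∀ i, MeasurableSet (A i))
    (hs : ∀ x ∈ B, ∃ i, (∃ᶠ n in atTop, S^[n] x ∈ A i) ∧ ∃ᶠ n in atTop, S^[n] x ∉ A i) :
    BorelColourable 3 B := by
  classical
  -- the set of the points split by `A i`
  let P : ℕ → Set Seq := fun i => {x | (∃ᶠ n in atTop, S^[n] x ∈ A i) ∧ ∃ᶠ n in atTop, S^[n] x ∉ A i}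
  have hP : ∀ i, MeasurableSet (P i) := by
    intro i
    have h1 : P i = (⋂ N : ℕ, ⋃ n ∈ Set.Ici N, (S^[n]) ⁻¹' (A i)) ∩ ⋂ N : ℕ, ⋃ n ∈ Set.Ici N, (S^[n]) ⁻¹' (A i)ᶜ := by
      ext x
      simp only [P, Set.mem_ofPred_eq, Filter.frequently_atTop, Set.mem_inter_iff, Set.mem_iInter, Set.mem_iUnion,
        Set.mem_Ici, Set.mem_preimage, Set.mem_compl_iff, exists_prop]
    rw [h1]
    refine MeasurableSet.inter ?_ ?_
    · exact MeasurableSet.iInter fun N => MeasurableSet.biUnion (Set.to_countable _) fun n _ => measurable_iter n (hA i)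
    · exact MeasurableSet.iInter fun N => MeasurableSet.biUnion (Set.to_countable _) fun n _ => measurable_iter n (hA i).compl
  have hPS : ∀ i x, S x ∈ P i ↔ x ∈ P i := by
    intro i x
    have h1 : ∀ C : Set Seq, (∃ᶠ n in atTop, S^[n] (S x) ∈ C) ↔ ∃ᶠ n in atTop, S^[n] x ∈ C := by
      intro C
      rw [Filter.frequently_atTop, Filter.frequently_atTop]
      constructor
      · intro h N
        obtain ⟨n, hn, hC⟩ := h N
        refine ⟨n + 1, by omega, ?_⟩
        rw [Function.iterate_succ_apply]
        exact hC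
      · intro h N
        obtain ⟨n, hn, hC⟩ := h (N + 1)
        refine ⟨n - 1, by omega, ?_⟩
        rw [← Function.iterate_succ_apply, Nat.succ_eq_add_one, Nat.sub_add_cancel (by omega)]
        exact hC
    have h2 := h1 (A i)
    have h3 := h1 (A i)ᶜ
    exact and_congr h2 h3
  -- the first index
  let F : ℕ → Set Seq := fun i => P i \ ⋃ j ∈ Set.Iio i, P j
  have hF : ∀ i, MeasurableSet (F i) := fun i =>
    (hP i).diff (MeasurableSet.biUnion (Set.to_countable _) fun j _ => hP j)
  have hFS : ∀ i x, S x ∈ F i ↔ x ∈ F i := by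
    intro i x
    simp only [F, Set.mem_sdiff, Set.mem_iUnion, hPS]
  have hFu : ∀ i j x, x ∈ F i → x ∈ F j → i = j := by
    intro i j x h1 h2
    rcases lt_trichotomy i j with h | h | h
    · exact absurd (Set.mem_biUnion (s := Set.Iio j) h h1.1) h2.2
    · exact h
    · exact absurd (Set.mem_biUnion (s := Set.Iio i) h h2.1) h1.2
  let M : Set Seq := ⋃ i, F i ∩ A i ∩ S ⁻¹' (A i)ᶜ
  refine colour_of_marker M ?_ ?_ ?_
  · exact MeasurableSet.iUnion fun i => ((hF i).inter (hA i)).inter (measurable_S (hA i).compl)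
  · intro x hx
    have hex : ∃ i, x ∈ P i := hs x hx
    have hmin : x ∈ F (Nat.find hex) := by
      refine ⟨Nat.find_spec hex, ?_⟩
      simp only [Set.mem_iUnion, not_exists]
      intro j hj hxj
      exact Nat.find_min hex hj hxj
    set i := Nat.find hex with hidef
    obtain ⟨h1, h2⟩ := hmin.1
    obtain ⟨a, _, ha⟩ := (Filter.frequently_atTop.1 h1) 0
    have hex2 : ∃ b, S^[a + b] x ∉ A i := by
      obtain ⟨b, hb, hb2⟩ := (Filter.frequently_atTop.1 h2) a
      refine ⟨b - a, ?_⟩
      rw [Nat.add_sub_cancel' hb]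
      exact hb2
    have hb0 : Nat.find hex2 ≠ 0 := by
      intro h0
      have h3 := Nat.find_spec hex2
      rw [h0] at h3
      exact h3 ha
    have hb1 : S^[a + (Nat.find hex2 - 1)] x ∈ A i := by
      by_contra h3
      exact Nat.find_min hex2 (Nat.sub_lt (Nat.pos_of_ne_zero hb0) one_pos) h3
    refine ⟨a + (Nat.find hex2 - 1), Set.mem_iUnion.2 ⟨i, ⟨?_, hb1⟩, ?_⟩⟩
    · have h4 : ∀ n, S^[n] x ∈ F i := by
        intro n
        induction n with
        | zero => exact hmin
        | succ n ih =>
          rw [Function.iterate_succ_apply', hFS]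
          exact ih
      exact h4 _
    · change S (S^[a + (Nat.find hex2 - 1)] x) ∉ A i
      rw [← Function.iterate_succ_apply' S]
      have h5 : (a + (Nat.find hex2 - 1)).succ = a + Nat.find hex2 := by omega
      rw [h5]
      exact Nat.find_spec hex2
  · intro x _ hxM hSM
    obtain ⟨i, ⟨h1, _⟩, h3⟩ := Set.mem_iUnion.1 hxM
    obtain ⟨j, ⟨h4, h5⟩, _⟩ := Set.mem_iUnion.1 hSM
    have h6 : i = j := hFu i j x h1 ((hFS j x).1 h4)
    subst h6
    exact h3 h5

end ShiftGraph
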