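import Pool.Agent.Lib.MP_ae662e_lc.Base

/-!
# The shift graph: sets whose sparse elements are split by countably many sets of integers
-/

namespace ShiftGraph

open Filter

/-- the end points of the intervals -/
private def pt (h : ℕ → ℕ) : ℕ → ℕ
  | 0 => 0
  | j + 1 => pt h j + 1 + ∑ i ∈ Finset.range (pt h j + 1), h i

private theorem pt_lt (h : ℕ → ℕ) (j : ℕ) : pt h j < pt h (j + 1) := by
  change pt h j < pt h j + 1 + ∑ i ∈ Finset.range (pt h j + 1), h i
  omega

private theorem pt_mono (h : ℕ → ℕ) : StrictMono (pt h) := strictMono_nat_of_lt_succ (pt_lt h)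

private theorem lt_pt (h : ℕ → ℕ) (a j : ℕ) (ha : a ≤ pt h j) : h a < pt h (j + 1) := by
  change h a < pt h j + 1 + ∑ i ∈ Finset.range (pt h j + 1), h i
  have h1 : h a ≤ ∑ i ∈ Finset.range (pt h j + 1), h i :=
    Finset.single_le_sum (f := h) (fun _ _ => Nat.zero_le _) (Finset.mem_range.2 (Nat.lt_succ_of_le ha))
  omega

private theorem ex_pt (h : ℕ → ℕ) (a : ℕ) : ∃ j, a < pt h (j + 1) :=
  ⟨a, lt_of_lt_of_le (Nat.lt_succ_self a) ((pt_mono h).id_le (a + 1))⟩

/-- the index of the interval of `a` -/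
private def idx (h : ℕ → ℕ) (a : ℕ) : ℕ := Nat.find (ex_pt h a)

private theorem idx_lt (h : ℕ → ℕ) (a : ℕ) : a < pt h (idx h a + 1) := Nat.find_spec (ex_pt h a)

private theorem idx_le (h : ℕ → ℕ) {a j : ℕ} (ha : a < pt h (j + 1)) : idx h a ≤ j := Nat.find_le ha

private theorem idx_mono (h : ℕ → ℕ) {a b : ℕ} (hab : a ≤ b) : idx h a ≤ idx h b :=
  idx_le h (lt_of_le_of_lt hab (idx_lt h b))

private theorem idx_dense (h : ℕ → ℕ) {a b : ℕ} (hab : b ≤ h a) : idx h b ≤ idx h a + 1 :=
  idx_le h (lt_of_le_of_lt hab (lt_pt h a (idx h a + 1) (idx_lt h a).le))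

private theorem idx_tendsto (h : ℕ → ℕ) (x : Seq) (N : ℕ) : ∃ n, N < idx h (x.1 n) := by
  refine ⟨pt h (N + 1), ?_⟩
  by_contra hcon
  have h1 := idx_lt h (x.1 (pt h (N + 1)))
  have h2 : pt h (idx h (x.1 (pt h (N + 1))) + 1) ≤ pt h (N + 1) := (pt_mono h).monotone (by omega)
  have h3 : pt h (N + 1) ≤ x.1 (pt h (N + 1)) := x.2.id_le _
  omega

/-- the three marker sets -/
private def mk3 (h : ℕ → ℕ) : ℕ → Set Seq
  | 0 => {x | idx h (x.1 1) = idx h (x.1 0)}
  | 1 => {x | idx h (x.1 1) = idx h (x.1 0) + 1}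
  | _ => {x | idx h (x.1 0) % 2 = 0}

private theorem mk3_measurable (h : ℕ → ℕ) (i : ℕ) : MeasurableSet (mk3 h i) := by
  have h0 : ∀ n, Measurable fun x : Seq => idx h (x.1 n) := fun n =>
    (measurable_from_top (f := idx h)).comp (measurable_eval n)
  rcases i with _ | _ | i
  · exact measurableSet_eq_fun (h0 1) (h0 0)
  · exact measurableSet_eq_fun (h0 1) ((measurable_from_top (f := fun n : ℕ => n + 1)).comp (h0 0))
  · exact measurableSet_eq_fun ((measurable_from_top (f := fun n : ℕ => n % 2)).comp (h0 0)) measurable_const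

private theorem dense_split (h : ℕ → ℕ) (x : Seq) (hx : ∃ᶠ n in atTop, x.1 (n + 1) ≤ h (x.1 n)) :
    ∃ i, i < 3 ∧ (∃ᶠ n in atTop, S^[n] x ∈ mk3 h i) ∧ ∃ᶠ n in atTop, S^[n] x ∉ mk3 h i := by
  have m0 : ∀ n, S^[n] x ∈ mk3 h 0 ↔ idx h (x.1 (n + 1)) = idx h (x.1 n) := by
    intro n
    change idx h ((S^[n] x).1 1) = idx h ((S^[n] x).1 0) ↔ _
    rw [iter_apply, iter_apply]
    exact Iff.rfl
  have m1 : ∀ n, S^[n] x ∈ mk3 h 1 ↔ idx h (x.1 (n + 1)) = idx h (x.1 n) + 1 := by
    intro n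
    change idx h ((S^[n] x).1 1) = idx h ((S^[n] x).1 0) + 1 ↔ _
    rw [iter_apply, iter_apply]
    exact Iff.rfl
  have m2 : ∀ n, S^[n] x ∈ mk3 h 2 ↔ idx h (x.1 n) % 2 = 0 := by
    intro n
    change idx h ((S^[n] x).1 0) % 2 = 0 ↔ _
    rw [iter_apply, Nat.add_zero]
  have hmono : ∀ n, idx h (x.1 n) ≤ idx h (x.1 (n + 1)) := fun n => idx_mono h (x.2 (Nat.lt_succ_self n)).le
  by_cases c0 : ∃ᶠ n in atTop, S^[n] x ∈ mk3 h 0
  · refine ⟨0, by norm_num, c0, ?_⟩
    intro hcon
    simp only [not_not] at hcon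
    obtain ⟨N, hN⟩ := Filter.eventually_atTop.1 hcon
    have hconst : ∀ k, idx h (x.1 (N + k)) = idx h (x.1 N) := by
      intro k
      induction k with
      | zero => rfl
      | succ k ih =>
        have h1 := (m0 (N + k)).1 (hN (N + k) (by omega))
        rw [← ih, ← h1]
        rfl
    obtain ⟨n, hn⟩ := idx_tendsto h x (idx h (x.1 N))
    rcases le_total N n with h2 | h2
    · have h3 := hconst (n - N)
      rw [Nat.add_sub_cancel' h2] at h3
      omega
    · have h3 : idx h (x.1 n) ≤ idx h (x.1 N) := idx_mono h (x.2.monotone h2)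
      omega
  · have c0' : ∀ᶠ n in atTop, S^[n] x ∉ mk3 h 0 := Filter.not_frequently.1 c0
    have f1 : ∃ᶠ n in atTop, S^[n] x ∈ mk3 h 1 := by
      refine (hx.and_eventually c0').mono fun n hn => ?_
      rw [m1]
      have h1 := idx_dense h hn.1
      have h2 := hmono n
      have h3 : idx h (x.1 (n + 1)) ≠ idx h (x.1 n) := fun h4 => hn.2 ((m0 n).2 h4)
      omega
    by_cases c1 : ∃ᶠ n in atTop, S^[n] x ∉ mk3 h 1
    · exact ⟨1, by norm_num, f1, c1⟩
    · have c1' : ∀ᶠ n in atTop, S^[n] x ∈ mk3 h 1 := by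
        have h1 := Filter.not_frequently.1 c1
        simpa only [not_not] using h1
      obtain ⟨N, hN⟩ := Filter.eventually_atTop.1 c1'
      have hstep : ∀ n, N ≤ n → idx h (x.1 (n + 1)) = idx h (x.1 n) + 1 := fun n hn => (m1 n).1 (hN n hn)
      refine ⟨2, by norm_num, ?_, ?_⟩
      · rw [Filter.frequently_atTop]
        intro a
        rcases Nat.mod_two_eq_zero_or_one (idx h (x.1 (a + N))) with h1 | h1
        · exact ⟨a + N, by omega, (m2 _).2 h1⟩
        · refine ⟨a + N + 1, by omega, (m2 _).2 ?_⟩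
          rw [hstep (a + N) (by omega)]
          omega
      · rw [Filter.frequently_atTop]
        intro a
        rcases Nat.mod_two_eq_zero_or_one (idx h (x.1 (a + N))) with h1 | h1
        · refine ⟨a + N + 1, by omega, ?_⟩
          rw [m2, hstep (a + N) (by omega)]
          omega
        · refine ⟨a + N, by omega, ?_⟩
          rw [m2]
          omega

/-- If the elements of `B` which grow fast are split by one of countably many sets of integers then there is a Borel colouring with three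
colours. -/
theorem colour_of_sparse_split {B : Set Seq} (h : ℕ → ℕ) (X : ℕ → Set ℕ)
    (hs : ∀ x ∈ B, (∀ᶠ n in atTop, h (x.1 n) < x.1 (n + 1)) →
      ∃ i, (∃ᶠ n in atTop, x.1 n ∈ X i) ∧ ∃ᶠ n in atTop, x.1 n ∉ X i) : BorelColourable 3 B := by
  let A : ℕ → Set Seq := fun i => if i < 3 then mk3 h i else {x | x.1 0 ∈ X (i - 3)}
  refine colour_of_split A ?_ ?_
  · intro i
    simp only [A]
    split_ifs
    · exact mk3_measurable h i
    · exact measurable_eval 0 (MeasurableSet.of_discrete (s := X (i - 3)))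
  · intro x hx
    by_cases hf : ∀ᶠ n in atTop, h (x.1 n) < x.1 (n + 1)
    · obtain ⟨i, h1, h2⟩ := hs x hx hf
      refine ⟨i + 3, ?_, ?_⟩
      · refine h1.mono fun n hn => ?_
        simp only [A]
        rw [if_neg (by omega), Nat.add_sub_cancel]
        change (S^[n] x).1 0 ∈ X i
        rw [iter_apply, Nat.add_zero]
        exact hn
      · refine h2.mono fun n hn => ?_
        simp only [A]
        rw [if_neg (by omega), Nat.add_sub_cancel]
        change ¬ ((S^[n] x).1 0 ∈ X i)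
        rw [iter_apply, Nat.add_zero]
        exact hn
    · have hf' : ∃ᶠ n in atTop, x.1 (n + 1) ≤ h (x.1 n) := by
        have h1 := Filter.not_eventually.1 hf
        exact h1.mono fun n hn => not_lt.1 hn
      obtain ⟨i, hi, h1, h2⟩ := dense_split h x hf'
      refine ⟨i, ?_, ?_⟩
      · simp only [A]
        rw [if_pos hi]
        exact h1
      · simp only [A]
        rw [if_pos hi]
        exact h2

/-- The elements which do not grow fast are split by countably many Borel sets. -/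
theorem exists_dense_split (h : ℕ → ℕ) : ∃ D : ℕ → Set Seq, (∀ i, MeasurableSet (D i)) ∧
    ∀ x : Seq, (∃ᶠ n in atTop, x.1 (n + 1) ≤ h (x.1 n)) →
      ∃ i, (∃ᶠ n in atTop, S^[n] x ∈ D i) ∧ ∃ᶠ n in atTop, S^[n] x ∉ D i := by
  refine ⟨mk3 h, mk3_measurable h, fun x hx => ?_⟩
  obtain ⟨i, _, h1, h2⟩ := dense_split h x hx
  exact ⟨i, h1, h2⟩

end ShiftGraph
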