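import Pool.Agent.Lib.MP_ae662e_lc.Union

/-!
# The shift graph: flat digraphs
-/

namespace ShiftGraph

open Filter

/-- A sequence with increments at most one which is not split by its values and by the parity is eventually constant. -/
theorem const_of_unsplit {d : ℕ → ℕ} (hstep : ∀ᶠ n in atTop, d (n + 1) ≤ d n + 1)
    (hpar : (∃ᶠ n in atTop, d n % 2 = 0) → ∀ᶠ n in atTop, d n % 2 = 0)
    (hval : ∀ l, (∃ᶠ n in atTop, d n = l) → ∀ᶠ n in atTop, d n = l) : ∃ l, ∀ᶠ n in atTop, d n = l := by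
  classical
  by_contra hcon
  obtain ⟨N, hN⟩ := Filter.eventually_atTop.1 hstep
  have hinf : ∀ l, ∀ᶠ n in atTop, d n ≠ l := by
    intro l
    have h1 : ¬ ∃ᶠ n in atTop, d n = l := fun h => hcon ⟨l, hval l h⟩
    rw [Filter.not_frequently] at h1
    exact h1
  have hlarge : ∀ l, ∀ᶠ n in atTop, l ≤ d n := by
    intro l
    induction l with
    | zero => exact Filter.Eventually.of_forall fun _ => Nat.zero_le _
    | succ l ih => exact (ih.and (hinf l)).mono fun n hn => by omega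
  -- all large values occur
  have hval' : ∀ M, ∃ t0, ∀ t, t0 ≤ t → ∃ n, M ≤ n ∧ d n = t := by
    intro M
    refine ⟨d (max M N) + 1, fun t ht => ?_⟩
    have h1 : ∃ k, t ≤ d (max M N + k) := by
      obtain ⟨K, hK⟩ := Filter.eventually_atTop.1 (hlarge t)
      exact ⟨K, hK _ (by omega)⟩
    have h2 := Nat.find_spec h1
    have h3 : Nat.find h1 ≠ 0 := by
      intro h0
      rw [h0, Nat.add_zero] at h2
      omega
    have h4 := Nat.find_min h1 (m := Nat.find h1 - 1) (by omega)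
    have h5 := hN (max M N + (Nat.find h1 - 1)) (by omega)
    rw [show max M N + (Nat.find h1 - 1) + 1 = max M N + Nat.find h1 by omega] at h5
    exact ⟨max M N + Nat.find h1, by omega, by omega⟩
  have hev : ∃ᶠ n in atTop, d n % 2 = 0 := by
    rw [Filter.frequently_atTop]
    intro M
    obtain ⟨t0, ht⟩ := hval' M
    obtain ⟨n, h1, h2⟩ := ht (2 * t0) (by omega)
    exact ⟨n, h1, by omega⟩
  obtain ⟨M, hM⟩ := Filter.eventually_atTop.1 (hpar hev)
  obtain ⟨t0, ht⟩ := hval' M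
  obtain ⟨n, h1, h2⟩ := ht (2 * t0 + 1) (by omega)
  have h3 := hM n h1
  omega

/-- For some relations `A 0, A 1, …` on the vertices every path `x` has infinitely many vertices with infinitely many out-neighbours on the
path or, for some `i`, the set of the `m` with `A i (x m) (x n)` for all large `n` is infinite and has an infinite complement. -/
def Flat (R : ℕ → ℕ → Prop) : Prop :=
  ∃ A : ℕ → ℕ → ℕ → Prop, ∀ x ∈ Paths R, (∃ᶠ m in atTop, ∃ᶠ n in atTop, R (x.1 m) (x.1 n)) ∨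
    ∃ i, (∃ᶠ m in atTop, ∀ᶠ n in atTop, A i (x.1 m) (x.1 n)) ∧ ∃ᶠ m in atTop, ¬ ∀ᶠ n in atTop, A i (x.1 m) (x.1 n)

private def EvSet (A : ℕ → ℕ → Prop) : Set Seq := {x | ∀ᶠ n in atTop, A (x.1 0) (x.1 n)}

private theorem evSet_measurable (A : ℕ → ℕ → Prop) : MeasurableSet (EvSet A) := by
  have h1 : EvSet A = ⋃ N : ℕ, ⋂ n ∈ Set.Ici N, {x : Seq | A (x.1 0) (x.1 n)} := by
    ext x
    simp only [EvSet, Set.mem_ofPred_eq, Filter.eventually_atTop, Set.mem_iUnion, Set.mem_iInter, Set.mem_Ici]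
  rw [h1]
  refine MeasurableSet.iUnion fun N => MeasurableSet.biInter (Set.to_countable _) fun n _ => ?_
  have h2 : Measurable fun v : Seq => (v.1 0, v.1 n) := (measurable_eval 0).prodMk (measurable_eval n)
  exact h2 (MeasurableSet.of_discrete (s := {p : ℕ × ℕ | A p.1 p.2}))

private theorem iter_mem_evSet (A : ℕ → ℕ → Prop) (x : Seq) (m : ℕ) : S^[m] x ∈ EvSet A ↔ ∀ᶠ n in atTop, A (x.1 m) (x.1 n) := by
  change (∀ᶠ n in atTop, A ((S^[m] x).1 0) ((S^[m] x).1 n)) ↔ _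
  simp only [iter_apply, Nat.add_zero]
  rw [Filter.eventually_atTop, Filter.eventually_atTop]
  constructor
  · rintro ⟨N, hN⟩
    refine ⟨m + N, fun n hn => ?_⟩
    have h1 := hN (n - m) (by omega)
    rwa [Nat.add_sub_cancel' (by omega)] at h1
  · rintro ⟨N, hN⟩
    exact ⟨N, fun n hn => hN (m + n) (by omega)⟩

theorem flat_dichotomy {R : ℕ → ℕ → Prop} (hR : Flat R) : Cube (Paths R) ∨ BorelColourable 3 (Paths R) := by
  classical
  by_cases hcube : Cube (Paths R)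
  · exact Or.inl hcube
  right
  obtain ⟨A, hA⟩ := hR
  refine colour_of_split (fun i => if i % 2 = 0 then {x | R (i / 2) (x.1 0)} else EvSet (A (i / 2))) ?_ ?_
  · intro i
    split_ifs
    · exact measurable_eval 0 (MeasurableSet.of_discrete (s := {b | R (i / 2) b}))
    · exact evSet_measurable _
  intro x hx
  by_contra hcon
  push Not at hcon
  apply hcube
  have h4 : ∀ a, (∃ᶠ n in atTop, R a (x.1 n)) → ∀ᶠ n in atTop, R a (x.1 n) := by
    intro a ha
    have h5 := hcon (2 * a)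
    rw [if_pos (by omega), Nat.mul_div_cancel_left a (by norm_num : 0 < 2)] at h5
    have h6 : ∀ n, S^[n] x ∈ {x : Seq | R a (x.1 0)} ↔ R a (x.1 n) := by
      intro n
      change R a ((S^[n] x).1 0) ↔ _
      rw [iter_apply, Nat.add_zero]
    exact (h5 (ha.mono fun n hn => (h6 n).2 hn)).mono fun n hn => (h6 n).1 hn
  rcases hA x hx with h5 | ⟨i, h5, h6⟩
  · obtain ⟨f, hf1, hf2⟩ := exists_seq_of_forall_finset_exists
      (fun n : ℕ => ∃ᶠ m in atTop, R (x.1 n) (x.1 m)) (fun n m => n < m ∧ R (x.1 n) (x.1 m)) (by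
        intro s hs
        have h6 : ∀ᶠ m in atTop, ∀ n ∈ s, n < m ∧ R (x.1 n) (x.1 m) := by
          rw [Filter.eventually_all_finset]
          intro n hn
          exact (Filter.eventually_gt_atTop n).and (h4 _ (hs n hn))
        obtain ⟨m, hm1, hm2⟩ := (h5.and_eventually h6).exists
        exact ⟨m, hm1, hm2⟩)
    have hfm : StrictMono f := fun a b hab => (hf2 a b hab).1
    refine ⟨⟨fun n => x.1 (f n), x.2.comp hfm⟩, fun y hy => Filter.Eventually.of_forall fun n => ?_⟩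
    obtain ⟨a, ha⟩ := hy ⟨n, rfl⟩
    obtain ⟨b, hb⟩ := hy ⟨n + 1, rfl⟩
    have ha' : x.1 (f a) = y.1 n := ha
    have hb' : x.1 (f b) = y.1 (n + 1) := hb
    have hab : a < b := by
      have h4 : y.1 n < y.1 (n + 1) := y.2 (Nat.lt_succ_self n)
      rw [← ha', ← hb'] at h4
      exact hfm.lt_iff_lt.1 (x.2.lt_iff_lt.1 h4)
    rw [← ha', ← hb']
    exact (hf2 a b hab).2
  · have h7 := hcon (2 * i + 1)
    rw [if_neg (by omega), show (2 * i + 1) / 2 = i by omega] at h7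
    have h8 := h7 (h5.mono fun n hn => (iter_mem_evSet _ x n).2 hn)
    obtain ⟨m, h9, h10⟩ := (h6.and_eventually h8).exists
    exact absurd ((iter_mem_evSet _ x m).1 h10) h9

theorem flat_of_countable {R : ℕ → ℕ → Prop} (C : Set (ℕ → ℕ → Prop)) (hC : C.Countable)
    (h : ∀ x ∈ Paths R, (∃ᶠ m in atTop, ∃ᶠ n in atTop, R (x.1 m) (x.1 n)) ∨
      ∃ A ∈ C, (∃ᶠ m in atTop, ∀ᶠ n in atTop, A (x.1 m) (x.1 n)) ∧ ∃ᶠ m in atTop, ¬ ∀ᶠ n in atTop, A (x.1 m) (x.1 n)) : Flat R := by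
  obtain ⟨f, hf⟩ := (hC.insert fun _ _ => False).exists_eq_range (Set.insert_nonempty _ _)
  refine ⟨f, fun x hx => (h x hx).imp id ?_⟩
  rintro ⟨A, hA, h1⟩
  obtain ⟨i, hi⟩ : A ∈ Set.range f := hf ▸ Set.mem_insert_of_mem _ hA
  exact ⟨i, by rw [hi]; exact h1⟩

theorem flat_of_rich {R : ℕ → ℕ → Prop} (hR : Rich R) : Flat R := ⟨fun _ _ _ => False, fun x hx => Or.inl (hR x hx)⟩

/-- Some of the sets `X 0, X 1, …` splits the path. -/
theorem flat_of_split {R : ℕ → ℕ → Prop} (X : ℕ → Set ℕ)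
    (h : ∀ x ∈ Paths R, (∃ᶠ m in atTop, ∃ᶠ n in atTop, R (x.1 m) (x.1 n)) ∨
      ∃ k, (∃ᶠ n in atTop, x.1 n ∈ X k) ∧ ∃ᶠ n in atTop, x.1 n ∉ X k) : Flat R := by
  refine ⟨fun k a _ => a ∈ X k, fun x hx => (h x hx).imp id ?_⟩
  rintro ⟨k, h1, h2⟩
  refine ⟨k, h1.mono fun n hn => Filter.Eventually.of_forall fun _ => hn, h2.mono fun n hn h3 => hn ?_⟩
  obtain ⟨_, h4⟩ := h3.exists
  exact h4

/-- For some `k` the values of `D k` along the path do not become constant and finally never increase by more than one. -/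
theorem flat_of_steps {R : ℕ → ℕ → Prop} (D : ℕ → ℕ → ℕ)
    (h : ∀ x ∈ Paths R, (∃ᶠ m in atTop, ∃ᶠ n in atTop, R (x.1 m) (x.1 n)) ∨
      ∃ k, (∀ᶠ n in atTop, D k (x.1 (n + 1)) ≤ D k (x.1 n) + 1) ∧ ¬ ∃ l, ∀ᶠ n in atTop, D k (x.1 n) = l) : Flat R := by
  refine flat_of_split (fun i => if i.unpair.2 = 0 then {b | D i.unpair.1 b % 2 = 0} else {b | D i.unpair.1 b = i.unpair.2 - 1})
    fun x hx => (h x hx).imp id ?_
  rintro ⟨k, h1, h2⟩
  by_contra hcon
  push Not at hcon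
  refine h2 (const_of_unsplit (d := fun n => D k (x.1 n)) h1 (fun h3 => ?_) fun l h3 => ?_)
  · have h4 := hcon (Nat.pair k 0)
    rw [Nat.unpair_pair, if_pos rfl] at h4
    exact h4 h3
  · have h4 := hcon (Nat.pair k (l + 1))
    rw [Nat.unpair_pair, if_neg (Nat.succ_ne_zero l)] at h4
    exact h4 h3

theorem flat_of_finChrom {R : ℕ → ℕ → Prop} (hR : FinChrom R) : Flat R := by
  obtain ⟨k, c, hc⟩ := hR
  refine flat_of_split (fun i => {a | (c a).1 = i}) fun x hx => Or.inr ?_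
  obtain ⟨j, hj⟩ : ∃ j : Fin k, ∃ᶠ n in atTop, c (x.1 n) = j := by
    by_contra hcon
    push Not at hcon
    have h3 : ∀ᶠ n in atTop, ∀ j : Fin k, c (x.1 n) ≠ j := Filter.eventually_all.2 hcon
    obtain ⟨n, hn⟩ := h3.exists
    exact hn _ rfl
  refine ⟨j.1, hj.mono fun n hn => congrArg Fin.val hn, ?_⟩
  rw [Filter.frequently_atTop]
  intro N
  obtain ⟨M, hM⟩ := Filter.eventually_atTop.1 (show ∀ᶠ n in atTop, R (x.1 n) (x.1 (n + 1)) from hx)
  by_cases h3 : c (x.1 (max N M)) = j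
  · refine ⟨max N M + 1, by omega, fun h4 => ?_⟩
    have h5 : c (x.1 (max N M + 1)) = j := Fin.ext h4
    exact hc _ _ (hM (max N M) (le_max_right _ _)) (h3.trans h5.symm)
  · exact ⟨max N M, le_max_left _ _, fun h4 => h3 (Fin.ext h4)⟩

/-- There is a walk of length `l` from `a` to `b`. -/
def Walk (R : ℕ → ℕ → Prop) : ℕ → ℕ → ℕ → Prop
  | 0, a, b => a = b
  | l + 1, a, b => ∃ c, Walk R l a c ∧ R c b

/-- The shortest walks from `a` to `b` have length `l`. -/
def DistEq (R : ℕ → ℕ → Prop) (a b l : ℕ) : Prop := Walk R l a b ∧ ∀ l', Walk R l' a b → l ≤ l'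

theorem DistEq.unique {R : ℕ → ℕ → Prop} {a b l l' : ℕ} (h : DistEq R a b l) (h' : DistEq R a b l') : l = l' :=
  le_antisymm (h.2 _ h'.1) (h'.2 _ h.1)

theorem exists_dist {R : ℕ → ℕ → Prop} {a b l : ℕ} (h : Walk R l a b) : ∃ l' ≤ l, DistEq R a b l' := by
  classical
  have h1 : ∃ l, Walk R l a b := ⟨l, h⟩
  exact ⟨Nat.find h1, Nat.find_le h, Nat.find_spec h1, fun l' h' => Nat.find_le h'⟩

theorem DistEq.step {R : ℕ → ℕ → Prop} {a b c l : ℕ} (h : DistEq R a b l) (hbc : R b c) : ∃ l' ≤ l + 1, DistEq R a c l' :=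
  exists_dist ⟨b, h.1, hbc⟩

/-- The criterion with distances in countably many sets of vertices: the excluded paths are those which are almost contained in or almost
disjoint from each `X k`, with eventually constant distances at least two in the `X k` which contain almost all of the path. -/
theorem flat_of_dist {R : ℕ → ℕ → Prop} (X : ℕ → Set ℕ) (h : ∀ x ∈ Paths R, ∃ k, (∃ᶠ i in atTop, x.1 i ∈ X k) ∧
    ∃ᶠ i in atTop, x.1 i ∉ X k ∨
      ¬ ∃ l, 2 ≤ l ∧ ∀ᶠ j in atTop, DistEq (fun a b => (a ∈ X k ∧ b ∈ X k) ∧ R a b) (x.1 i) (x.1 j) l) : Flat R := by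
  classical
  let d : ℕ → ℕ → ℕ → ℕ := fun k z b =>
    if h : ∃ l, DistEq (fun a b => (a ∈ X k ∧ b ∈ X k) ∧ R a b) z b l then h.choose + 1 else 0
  have hd : ∀ k z b l, DistEq (fun a b => (a ∈ X k ∧ b ∈ X k) ∧ R a b) z b l → d k z b = l + 1 := by
    intro k z b l hl
    have h1 : ∃ l, DistEq (fun a b => (a ∈ X k ∧ b ∈ X k) ∧ R a b) z b l := ⟨l, hl⟩
    simp only [d]
    rw [dif_pos h1, h1.choose_spec.unique hl]
  refine flat_of_steps (fun i => if i.unpair.1 = 0 then fun b => if b ∈ X i.unpair.2 then 1 else 0 else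
    d (i.unpair.1 - 1) i.unpair.2) ?_
  intro x hx
  obtain ⟨k, h1, h2⟩ := h x hx
  by_contra hcon
  rw [not_or] at hcon
  obtain ⟨hcon1, hcon2⟩ := hcon
  push Not at hcon2
  -- the path is not split by `X k`
  have h3 : ∀ᶠ n in atTop, x.1 n ∈ X k := by
    have h4 := hcon2 (Nat.pair 0 k)
    rw [Nat.unpair_pair, if_pos rfl] at h4
    obtain ⟨l, hl⟩ := h4 (Filter.Eventually.of_forall fun n => by split_ifs <;> omega)
    obtain ⟨m, h5, h6⟩ := (h1.and_eventually hl).exists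
    rw [if_pos h5] at h6
    refine hl.mono fun n hn => ?_
    by_contra h7
    rw [if_neg h7] at hn
    omega
  obtain ⟨N, hN⟩ := Filter.eventually_atTop.1 (h3.and (show ∀ᶠ n in atTop, R (x.1 n) (x.1 (n + 1)) from hx))
  apply hcon1
  refine (h2.and_eventually (Filter.eventually_ge_atTop N)).mono fun i hi => ?_
  have h6 := hi.1.resolve_left (not_not.2 (hN i hi.2).1)
  have hex : ∀ j, ∃ l, DistEq (fun a b => (a ∈ X k ∧ b ∈ X k) ∧ R a b) (x.1 i) (x.1 (i + j)) l := by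
    intro j
    induction j with
    | zero =>
      obtain ⟨l', -, h7⟩ := exists_dist (R := fun a b => (a ∈ X k ∧ b ∈ X k) ∧ R a b) (a := x.1 i) (b := x.1 i) (l := 0) rfl
      exact ⟨l', h7⟩
    | succ j ih =>
      obtain ⟨l, hl⟩ := ih
      have h7 := hN (i + j) (by omega)
      have h8 := hN (i + j + 1) (by omega)
      obtain ⟨l', -, h9⟩ := hl.step (c := x.1 (i + j + 1)) ⟨⟨h7.1, h8.1⟩, h7.2⟩
      exact ⟨l', h9⟩
  have hex' : ∀ j, i ≤ j → ∃ l, DistEq (fun a b => (a ∈ X k ∧ b ∈ X k) ∧ R a b) (x.1 i) (x.1 j) l := by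
    intro j hj
    have h7 := hex (j - i)
    rw [Nat.add_sub_cancel' hj] at h7
    exact h7
  have h4 := hcon2 (Nat.pair (k + 1) (x.1 i))
  rw [Nat.unpair_pair, if_neg (Nat.succ_ne_zero k), Nat.add_sub_cancel] at h4
  obtain ⟨m, hm⟩ := h4 (Filter.eventually_atTop.2 ⟨i, fun j hj => by
    obtain ⟨l, hl⟩ := hex' j hj
    have h7 := hN j (hi.2.trans hj)
    have h8 := hN (j + 1) (by omega)
    obtain ⟨l', h9, h10⟩ := hl.step (c := x.1 (j + 1)) ⟨⟨h7.1, h8.1⟩, h7.2⟩
    change d k (x.1 i) (x.1 (j + 1)) ≤ d k (x.1 i) (x.1 j) + 1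
    rw [hd _ _ _ _ hl, hd _ _ _ _ h10]
    omega⟩)
  have hm' : ∀ᶠ j in atTop, DistEq (fun a b => (a ∈ X k ∧ b ∈ X k) ∧ R a b) (x.1 i) (x.1 j) (m - 1) := by
    refine (hm.and (Filter.eventually_ge_atTop i)).mono fun j hj => ?_
    obtain ⟨l, hl⟩ := hex' j hj.2
    have h7 := hd _ _ _ _ hl
    rw [← hj.1, h7]
    exact hl
  have h7 : m - 1 < 2 := by
    by_contra h7
    exact h6 ⟨m - 1, not_lt.1 h7, hm'⟩
  have h8 : m - 1 ≠ 0 := by
    intro h8
    rw [h8] at hm'
    obtain ⟨n, h9, h10⟩ := (hm'.and (Filter.eventually_gt_atTop i)).exists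
    have h11 : x.1 i = x.1 n := h9.1
    have h12 : x.1 i < x.1 n := x.2 h10
    omega
  have h9 : m - 1 = 1 := by omega
  rw [h9] at hm'
  refine Filter.Eventually.frequently (hm'.mono fun j hj => ?_)
  obtain ⟨c, h10, h11⟩ := hj.1
  have h12 : x.1 i = c := h10
  rw [h12]
  exact h11.2

/-- Digraphs in which the walks between two given vertices have only one length. -/
theorem flat_of_graded {R : ℕ → ℕ → Prop} (hR : ∀ a b l l', Walk R l a b → Walk R l' a b → l = l') : Flat R := by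
  refine flat_of_dist (fun _ => Set.univ) fun x hx => ⟨0, Filter.Frequently.of_forall fun _ => Set.mem_univ _, ?_⟩
  obtain ⟨N, hN⟩ := Filter.eventually_atTop.1 (show ∀ᶠ n in atTop, R (x.1 n) (x.1 (n + 1)) from hx)
  refine ((Filter.eventually_ge_atTop N).mono fun i hi => Or.inr ?_).frequently
  rintro ⟨l, -, h2⟩
  have hw : ∀ k, Walk R k (x.1 i) (x.1 (i + k)) := by
    intro k
    induction k with
    | zero => rfl
    | succ k ih => exact ⟨_, ih, hN (i + k) (by omega)⟩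
  have hW : ∀ k a b, Walk (fun a b => (a ∈ Set.univ ∧ b ∈ Set.univ) ∧ R a b) k a b → Walk R k a b := by
    intro k
    induction k with
    | zero => exact fun _ _ h => h
    | succ k ih =>
      rintro a b ⟨c, h1, h2⟩
      exact ⟨c, ih _ _ h1, h2.2⟩
  obtain ⟨j, h3, h4⟩ := (h2.and (Filter.eventually_gt_atTop (i + l))).exists
  have h5 := hw (j - i)
  rw [show i + (j - i) = j by omega] at h5
  have h6 := hR _ _ _ _ (hW _ _ _ h3.1) h5
  omega

end ShiftGraph
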