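import Pool.Agent.Lib.MP_ae662e_lc.Words

/-!
# The shift graph: digraphs of hereditarily finite sets
-/

namespace ShiftGraph

open Filter

/-- The hereditarily finite sets over `ℕ`: the number `2 x` codes the urelement `x`, the number `2 a + 1` the set of the (hereditarily
finite sets coded by the) letters of the word coded by `a`. `HF R a b`: player I wins the game of Nash-Williams for `a`, `b`: in each round
I goes to an element of his set, then II to an element of his set (an urelement stays), until there are urelements `x`, `y` with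
`R x y`. -/
inductive HF (R : ℕ → ℕ → Prop) : ℕ → ℕ → Prop
  | leaf (x y : ℕ) : R x y → HF R (2 * x) (2 * y)
  | right (x b : ℕ) : (∀ y ∈ word b, HF R (2 * x) y) → HF R (2 * x) (2 * b + 1)
  | left (a x y : ℕ) : x ∈ word a → HF R x (2 * y) → HF R (2 * a + 1) (2 * y)
  | both (a b x : ℕ) : x ∈ word a → (∀ y ∈ word b, HF R x y) → HF R (2 * a + 1) (2 * b + 1)

private theorem lt_of_mem_encode (l : List ℕ) : ∀ y ∈ l, y < Encodable.encode l := by
  induction l with
  | nil => exact fun y hy => absurd hy (List.not_mem_nil)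
  | cons a l ih =>
    intro y hy
    rw [Encodable.encode_list_cons]
    rcases List.mem_cons.1 hy with h | h
    · rw [h]
      exact Nat.lt_succ_of_le (Nat.left_le_pair _ _)
    · exact (ih y h).trans (Nat.lt_succ_of_le (Nat.right_le_pair _ _))

theorem lt_of_mem_word {a y : ℕ} (h : y ∈ word a) : y < a := by
  have h1 := lt_of_mem_encode (word a) y h
  have h2 : Encodable.encode (word a) = a := Denumerable.encode_ofNat a
  rw [h2] at h1
  exact h1

section

variable (R : ℕ → ℕ → Prop)

/-- the choices of player I -/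
private def Ch (a b x : ℕ) : Prop :=
  x ∈ word (a / 2) ∧ (b % 2 = 0 → HF R x b) ∧ (b % 2 = 1 → ∀ y ∈ word (b / 2), HF R x y)

open Classical in
private noncomputable def st (a b : ℕ) : ℕ := if h : a % 2 = 1 ∧ ∃ x, Ch R a b x then h.2.choose else a

private theorem st_even {a b : ℕ} (h : a % 2 = 0) : st R a b = a := by
  unfold st
  rw [dif_neg (by omega)]

private theorem ex_choice {a b : ℕ} (h : HF R a b) (ha : a % 2 = 1) : ∃ x, Ch R a b x := by
  cases h with
  | leaf x y h => omega
  | right x b h => omega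
  | left a x y hx h =>
    refine ⟨x, ?_, fun _ => h, fun h1 => by omega⟩
    rw [show (2 * a + 1) / 2 = a by omega]
    exact hx
  | both a b x hx h =>
    refine ⟨x, ?_, fun h1 => by omega, fun _ => ?_⟩
    · rw [show (2 * a + 1) / 2 = a by omega]
      exact hx
    · rw [show (2 * b + 1) / 2 = b by omega]
      exact h

private theorem st_odd {a b : ℕ} (h : HF R a b) (ha : a % 2 = 1) : Ch R a b (st R a b) := by
  have h1 : a % 2 = 1 ∧ ∃ x, Ch R a b x := ⟨ha, ex_choice R h ha⟩
  unfold st
  rw [dif_pos h1]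
  exact h1.2.choose_spec

private theorem st_lt {a b : ℕ} (h : HF R a b) (ha : a % 2 = 1) : st R a b < a := by
  have h1 := lt_of_mem_word (st_odd R h ha).1
  omega

private theorem right_inv {a b : ℕ} (h : HF R a b) (ha : a % 2 = 0) (hb : b % 2 = 1) : ∀ y ∈ word (b / 2), HF R a y := by
  cases h with
  | leaf x y h => omega
  | right x b h =>
    rw [show (2 * b + 1) / 2 = b by omega]
    exact h
  | left a x y hx h => omega
  | both a b x hx h => omega

private theorem leaf_inv {a b : ℕ} (h : HF R a b) (ha : a % 2 = 0) (hb : b % 2 = 0) : R (a / 2) (b / 2) := by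
  cases h with
  | leaf x y h =>
    rw [show 2 * x / 2 = x by omega, show 2 * y / 2 = y by omega]
    exact h
  | right x b h => omega
  | left a x y hx h => omega
  | both a b x hx h => omega

private theorem st_step {a b c : ℕ} (h1 : HF R a b) (h2 : HF R b c) : HF R (st R a b) (st R b c) := by
  rcases Nat.mod_two_eq_zero_or_one b with hb | hb
  · rw [st_even R (b := c) hb]
    rcases Nat.mod_two_eq_zero_or_one a with ha | ha
    · rw [st_even R ha]
      exact h1
    · exact (st_odd R h1 ha).2.1 hb
  · have h3 := (st_odd R h2 hb).1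
    rcases Nat.mod_two_eq_zero_or_one a with ha | ha
    · rw [st_even R ha]
      exact right_inv R h1 ha hb _ h3
    · exact (st_odd R h1 ha).2.2 hb _ h3

/-- the sets after `k` rounds -/
private noncomputable def it (w : ℕ → ℕ) : ℕ → ℕ → ℕ
  | 0, n => w n
  | k + 1, n => st R (it w k n) (it w k (n + 1))

private theorem it_step {w : ℕ → ℕ} {N : ℕ} (h : ∀ n, N ≤ n → HF R (w n) (w (n + 1))) (k : ℕ) :
    ∀ n, N ≤ n → HF R (it R w k n) (it R w k (n + 1)) := by
  induction k with
  | zero => exact h
  | succ k ih => exact fun n hn => st_step R (ih n hn) (ih (n + 1) (by omega))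

private theorem it_leaf {w : ℕ → ℕ} {N : ℕ} (h : ∀ n, N ≤ n → HF R (w n) (w (n + 1))) {n : ℕ} (hn : N ≤ n) (k : ℕ) :
    it R w k n % 2 = 0 ∨ it R w k n + k ≤ w n := by
  induction k with
  | zero => exact Or.inr le_rfl
  | succ k ih =>
    rcases Nat.mod_two_eq_zero_or_one (it R w k n) with h1 | h1
    · left
      change st R _ _ % 2 = 0
      rw [st_even R h1]
      exact h1
    · right
      have h2 := st_lt R (it_step R h k n hn) h1
      have h3 := ih.resolve_left (by omega)
      change st R _ _ + (k + 1) ≤ w n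
      omega

private theorem it_const {w : ℕ → ℕ} {n k : ℕ} (h : it R w k n % 2 = 0) (j : ℕ) : it R w (k + j) n = it R w k n := by
  induction j with
  | zero => rfl
  | succ j ih =>
    change st R (it R w (k + j) n) _ = _
    rw [st_even R (by rw [ih]; exact h), ih]

private theorem it_even {w : ℕ → ℕ} {N : ℕ} (h : ∀ n, N ≤ n → HF R (w n) (w (n + 1))) {n : ℕ} (hn : N ≤ n) {k : ℕ} (hk : w n ≤ k) :
    it R w k n % 2 = 0 := by
  rcases it_leaf R h hn k with h1 | h1
  · exact h1
  · omega

private theorem it_eq {w : ℕ → ℕ} {N : ℕ} (h : ∀ n, N ≤ n → HF R (w n) (w (n + 1))) {n : ℕ} (hn : N ≤ n) {k : ℕ} (hk : w n ≤ k) :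
    it R w k n = it R w (w n) n := by
  have h1 := it_const R (it_even R h hn (le_refl (w n))) (k - w n)
  rw [Nat.add_sub_cancel' hk] at h1
  exact h1

private theorem it_R {w : ℕ → ℕ} {N : ℕ} (h : ∀ n, N ≤ n → HF R (w n) (w (n + 1))) {n : ℕ} (hn : N ≤ n) :
    R (it R w (w n) n / 2) (it R w (w (n + 1)) (n + 1) / 2) := by
  obtain ⟨k, hk1, hk2⟩ : ∃ k, w n ≤ k ∧ w (n + 1) ≤ k := ⟨max (w n) (w (n + 1)), le_max_left _ _, le_max_right _ _⟩
  rw [← it_eq R h hn hk1, ← it_eq R h (by omega : N ≤ n + 1) hk2]
  exact leaf_inv R (it_step R h k n hn) (it_even R h hn hk1) (it_even R h (by omega) hk2)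

private theorem it_shift (w : ℕ → ℕ) (m k n : ℕ) : it R (fun i => w (m + i)) k n = it R w k (m + n) := by
  induction k generalizing n with
  | zero => rfl
  | succ k ih =>
    change st R (it R (fun i => w (m + i)) k n) (it R (fun i => w (m + i)) k (n + 1)) = st R _ _
    rw [ih, ih]
    rfl

private theorem measurable_it (k n : ℕ) : Measurable fun x : Seq => it R x.1 k n := by
  induction k generalizing n with
  | zero => exact measurable_eval n
  | succ k ih =>
    exact (measurable_of_countable (f := fun p : ℕ × ℕ => st R p.1 p.2)).comp ((ih n).prodMk (ih (n + 1)))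

end

theorem hf_colour {R : ℕ → ℕ → Prop} (hR : ∀ a, ¬ R a a) {k : ℕ} (hc : BorelColourable k (Paths R)) :
    BorelColourable 3 (Paths (HF R)) := by
  refine colour_of_letters hR hc (fun x => it R x.1 (x.1 0) 0 / 2) ?_ (fun _ => ∅) (fun _ => MeasurableSet.empty) ?_
  · refine (measurable_from_top (f := fun a : ℕ => a / 2)).comp ?_
    refine measurable_to_countable' fun v => ?_
    have h1 : (fun x : Seq => it R x.1 (x.1 0) 0) ⁻¹' {v} = ⋃ j : ℕ, ({x : Seq | x.1 0 = j} ∩ {x : Seq | it R x.1 j 0 = v}) := by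
      ext x
      simp only [Set.mem_preimage, Set.mem_singleton_iff, Set.mem_iUnion, Set.mem_inter_iff, Set.mem_ofPred_eq]
      exact ⟨fun h => ⟨x.1 0, rfl, h⟩, fun ⟨j, h2, h3⟩ => by rw [h2]; exact h3⟩
    rw [h1]
    exact MeasurableSet.iUnion fun j => (measurable_eval 0 (MeasurableSet.singleton j)).inter
      (measurable_it R j 0 (MeasurableSet.singleton v))
  · intro x hx
    right
    obtain ⟨N, hN⟩ := Filter.eventually_atTop.1 (show ∀ᶠ n in atTop, HF R (x.1 n) (x.1 (n + 1)) from hx)
    refine Filter.eventually_atTop.2 ⟨N, fun n hn => ?_⟩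
    have hsh : ∀ m, it R (S^[m] x).1 ((S^[m] x).1 0) 0 = it R x.1 (x.1 m) m := by
      intro m
      have h1 : (S^[m] x).1 = fun i => x.1 (m + i) := funext fun i => iter_apply x m i
      rw [h1, it_shift]
      rfl
    rw [hsh, hsh]
    exact it_R R hN hn

theorem hf_loopless {R : ℕ → ℕ → Prop} (hR : ∀ a, ¬ R a a) (a : ℕ) : ¬ HF R a a := by
  induction a using Nat.strong_induction_on with
  | _ a ih =>
    intro h
    rcases Nat.mod_two_eq_zero_or_one a with ha | ha
    · exact hR _ (leaf_inv R h ha ha)
    · obtain ⟨x, h1, -, h2⟩ := ex_choice R h ha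
      have h3 := lt_of_mem_word h1
      exact ih x (by omega) (h2 ha x h1)

theorem hf_hom {R : ℕ → ℕ → Prop} (h : BorelHom (Paths R)) : BorelHom (Paths (HF R)) := by
  obtain ⟨f, h1, h2, h3⟩ := h
  let Φ : Seq → Seq := fun v => ⟨fun n => 2 * v.1 n, fun i j hij => Nat.mul_lt_mul_of_pos_left (v.2 hij) two_pos⟩
  have hΦ : Measurable Φ := by
    refine Measurable.subtype_mk ?_
    refine measurable_pi_lambda _ fun n => ?_
    exact (measurable_from_top (f := fun a : ℕ => 2 * a)).comp (measurable_eval n)
  refine ⟨fun x => Φ (f x), hΦ.comp h1, ?_, ?_⟩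
  · intro x
    have h4 : ∀ᶠ n in atTop, R ((f x).1 n) ((f x).1 (n + 1)) := h2 x
    exact h4.mono fun n hn => HF.leaf _ _ hn
  · intro x y hxy
    rcases h3 x y hxy with h4 | h4
    · left
      change Φ (f y) = S (Φ (f x))
      rw [h4]
      rfl
    · right
      change Φ (f x) = S (Φ (f y))
      rw [h4]
      rfl

end ShiftGraph
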