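import Pool.Agent.Lib.MP_ae662e_lc.Dense

/-!
# The shift graph on the positive sets of an ideal: definitions, cubes, the ideals above `ED`
-/

namespace ShiftGraph

open Filter

/-- `I` is an ideal on `ℕ` which contains the finite sets. -/
structure IsIdeal (I : Set (Set ℕ)) : Prop where
  fin : ∀ A : Set ℕ, A.Finite → A ∈ I
  sub : ∀ A B : Set ℕ, B ∈ I → A ⊆ B → A ∈ I
  union : ∀ A B : Set ℕ, A ∈ I → B ∈ I → A ∪ B ∈ I

/-- `I` is closed under subsets and finite changes and contains the finite sets (for example an ideal). -/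
structure IsHer (I : Set (Set ℕ)) : Prop where
  fin : ∀ A : Set ℕ, A.Finite → A ∈ I
  sub : ∀ A B : Set ℕ, B ∈ I → A ⊆ B → A ∈ I
  add : ∀ A F : Set ℕ, A ∈ I → F.Finite → A ∪ F ∈ I

theorem IsIdeal.her {I : Set (Set ℕ)} (h : IsIdeal I) : IsHer I :=
  ⟨h.fin, h.sub, fun A F hA hF => h.union A F hA (h.fin F hF)⟩

/-- The infinite sets which are not in `I`. -/
def Pos (I : Set (Set ℕ)) : Set Seq := {x | toSet x ∉ I}

/-- `B` contains all the infinite subsets of some infinite set. -/
def Cube (B : Set Seq) : Prop := ∃ X : Seq, ∀ y : Seq, toSet y ⊆ toSet X → y ∈ B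

theorem Pos_inv {I : Set (Set ℕ)} (hI : IsHer I) : Inv (Pos I) := by
  intro x y hxy hx hy
  apply hx
  refine hI.sub _ (toSet y ∪ symmDiff (toSet x) (toSet y)) (hI.add _ _ hy hxy) ?_
  intro n hn
  by_cases h : n ∈ toSet y
  · exact Or.inl h
  · exact Or.inr (Or.inl ⟨hn, h⟩)

theorem hom_of_cube {B : Set Seq} (h : Cube B) : BorelHom B := by
  obtain ⟨X, hX⟩ := h
  let f : Seq → Seq := fun x => ⟨fun n => X.1 (x.1 n), X.2.comp x.2⟩
  refine ⟨f, ?_, ?_, ?_⟩
  · refine Measurable.subtype_mk ?_
    exact measurable_pi_lambda _ fun n => (measurable_from_top (f := X.1)).comp (measurable_eval n)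
  · intro x
    refine hX _ ?_
    rintro _ ⟨n, rfl⟩
    exact ⟨x.1 n, rfl⟩
  · intro x y hxy
    rcases hxy with h | h
    · left
      rw [h]
      rfl
    · right
      rw [h]
      rfl

/-- The Borel set of the points such that the value of `col` at the minimum occurs again. -/
private def rep (col : ℕ → ℕ) : Set Seq := {x | ∃ m, col (x.1 (m + 1)) = col (x.1 0)}

private theorem rep_measurable (col : ℕ → ℕ) : MeasurableSet (rep col) := by
  have h0 : ∀ n, Measurable fun x : Seq => col (x.1 n) := fun n =>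
    (measurable_from_top (f := col)).comp (measurable_eval n)
  have h1 : rep col = ⋃ m : ℕ, {x : Seq | col (x.1 (m + 1)) = col (x.1 0)} := by
    ext x
    simp [rep]
  rw [h1]
  exact MeasurableSet.iUnion fun m => measurableSet_eq_fun (h0 (m + 1)) (h0 0)

/-- The sets on which `col` is not eventually injective and not eventually constant. -/
theorem colour_of_col (col : ℕ → ℕ) {B : Set Seq}
    (h1 : ∀ x ∈ B, ∀ n, ¬ Set.InjOn col {a | ∃ m, n ≤ m ∧ a = x.1 m})
    (h2 : ∀ x ∈ B, ∀ c, ∃ᶠ n in atTop, col (x.1 n) ≠ c) : BorelColourable 3 B := by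
  have h0 : ∀ n, Measurable fun x : Seq => col (x.1 n) := fun n =>
    (measurable_from_top (f := col)).comp (measurable_eval n)
  let A : ℕ → Set Seq := fun i => if i = 0 then rep col else {x | col (x.1 0) = i - 1}
  have m0 : ∀ (x : Seq) n, S^[n] x ∈ A 0 ↔ ∃ m, n < m ∧ col (x.1 m) = col (x.1 n) := by
    intro x n
    change (∃ m, col ((S^[n] x).1 (m + 1)) = col ((S^[n] x).1 0)) ↔ _
    constructor
    · rintro ⟨m, hm⟩
      rw [iter_apply, iter_apply] at hm
      exact ⟨n + (m + 1), by omega, hm⟩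
    · rintro ⟨m, hm, hm2⟩
      refine ⟨m - n - 1, ?_⟩
      rw [iter_apply, iter_apply]
      have h3 : n + (m - n - 1 + 1) = m := by omega
      rw [h3]
      exact hm2
  have m1 : ∀ (x : Seq) n c, S^[n] x ∈ A (c + 1) ↔ col (x.1 n) = c := by
    intro x n c
    have h3 : A (c + 1) = {x | col (x.1 0) = c} := by
      simp only [A]
      rw [if_neg (Nat.succ_ne_zero c), Nat.add_sub_cancel]
    rw [h3]
    change col ((S^[n] x).1 0) = c ↔ _
    rw [iter_apply]
    exact Iff.rfl
  refine colour_of_split A ?_ ?_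
  · intro i
    simp only [A]
    split_ifs
    · exact rep_measurable col
    · exact measurableSet_eq_fun (h0 0) measurable_const
  · intro x hx
    by_cases hc : ∃ c, ∃ᶠ n in atTop, col (x.1 n) = c
    · obtain ⟨c, hc⟩ := hc
      refine ⟨c + 1, ?_, ?_⟩
      · exact hc.mono fun n hn => (m1 x n c).2 hn
      · exact (h2 x hx c).mono fun n hn h => hn ((m1 x n c).1 h)
    · push Not at hc
      refine ⟨0, ?_, ?_⟩
      · rw [Filter.frequently_atTop]
        intro N
        have h3 := h1 x hx N
        unfold Set.InjOn at h3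
        push Not at h3
        obtain ⟨a, ⟨m, hm, rfl⟩, b, ⟨m', hm', rfl⟩, hab, hne⟩ := h3
        rcases lt_trichotomy m m' with h | h | h
        · exact ⟨m, hm, (m0 x m).2 ⟨m', h, hab.symm⟩⟩
        · rw [h] at hne
          exact absurd rfl hne
        · exact ⟨m', hm', (m0 x m').2 ⟨m, h, hab⟩⟩
      · rw [Filter.frequently_atTop]
        intro N
        by_contra hcon
        push Not at hcon
        -- every value after `N` occurs again
        have h4 := hc (col (x.1 N))
        rw [Filter.eventually_atTop] at h4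
        obtain ⟨M, hM⟩ := h4
        have h5 : ∀ k, ∃ m, N + k ≤ m ∧ col (x.1 m) = col (x.1 N) := by
          intro k
          induction k with
          | zero => exact ⟨N, le_rfl, rfl⟩
          | succ k ih =>
            obtain ⟨m, hm, hm2⟩ := ih
            obtain ⟨m', hm', hm2'⟩ := (m0 x m).1 (hcon m (by omega))
            exact ⟨m', by omega, hm2'.trans hm2⟩
        obtain ⟨m, hm, hm2⟩ := h5 M
        exact hM m (by omega) hm2

/-- The positive sets of the ideals above `ED` in the Katetov order. -/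
theorem colour_of_ED {I : Set (Set ℕ)} (hI : IsHer I) (col : ℕ → ℕ)
    (h1 : ∀ A : Set ℕ, Set.InjOn col A → A ∈ I) (h2 : ∀ c, {a | col a = c} ∈ I) : BorelColourable 3 (Pos I) := by
  have key : ∀ (x : Seq) (n : ℕ) (A : Set ℕ), A ∈ I → (∀ m, n ≤ m → x.1 m ∈ A) → toSet x ∈ I := by
    intro x n A hA hm
    refine hI.sub _ (A ∪ (fun k => x.1 k) '' (Set.Iio n)) (hI.add _ _ hA ((Set.finite_Iio n).image _)) ?_
    rintro _ ⟨m, rfl⟩
    rcases lt_or_ge m n with h | h
    · exact Or.inr ⟨m, h, rfl⟩
    · exact Or.inl (hm m h)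
  refine colour_of_col col ?_ ?_
  · intro x hx n hinj
    exact hx (key x n _ (h1 _ hinj) fun m hm => ⟨m, hm, rfl⟩)
  · intro x hx c hcon
    simp only [ne_eq, not_not] at hcon
    obtain ⟨n, hn⟩ := Filter.eventually_atTop.1 hcon
    exact hx (key x n _ (h2 c) fun m hm => hn m hm)

end ShiftGraph
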