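import Pool.Agent.Lib.MP_ae662e_lc.Ideal

/-!
# The shift graph: colourings and the Katetov order
-/

namespace ShiftGraph

open Filter

private theorem meas_f (f : ℕ → ℕ) (n : ℕ) : Measurable fun x : Seq => f (x.1 n) :=
  (measurable_from_top (f := f)).comp (measurable_eval n)

/-- the points on which `f` is strictly increasing -/
private def SM (f : ℕ → ℕ) : Set Seq := {x | StrictMono fun n => f (x.1 n)}

private theorem SM_measurable (f : ℕ → ℕ) : MeasurableSet (SM f) := by
  have h1 : SM f = ⋂ n : ℕ, {x : Seq | f (x.1 n) < f (x.1 (n + 1))} := by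
    ext x
    simp only [SM, Set.mem_ofPred_eq, Set.mem_iInter]
    exact ⟨fun h n => h (Nat.lt_succ_self n), strictMono_nat_of_lt_succ⟩
  rw [h1]
  exact MeasurableSet.iInter fun n => measurableSet_lt (meas_f f n) (meas_f f (n + 1))

open Classical in
private noncomputable def Phi (f : ℕ → ℕ) (x : Seq) : Seq :=
  ⟨fun n => if x ∈ SM f then f (x.1 n) else x.1 n, by
    intro a b hab
    by_cases h : x ∈ SM f
    · simp only [if_pos h]
      exact h hab
    · simp only [if_neg h]
      exact x.2 hab⟩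

private theorem Phi_measurable (f : ℕ → ℕ) : Measurable (Phi f) := by
  classical
  refine Measurable.subtype_mk ?_
  exact measurable_pi_lambda _ fun n => Measurable.ite (SM_measurable f) (meas_f f n) (measurable_eval n)

private theorem Phi_apply (f : ℕ → ℕ) {x : Seq} (h : x ∈ SM f) (n : ℕ) : (Phi f x).1 n = f (x.1 n) := by
  classical
  change (if x ∈ SM f then f (x.1 n) else x.1 n) = _
  rw [if_pos h]

/-- If `f` maps `B` to `B'` (images of sets) and `B'` has a finite Borel colouring then `B` has a Borel colouring with three colours. -/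
theorem colour_of_image {B B' : Set Seq} (f : ℕ → ℕ) (hB' : MeasurableSet B') (hinv : Inv B') {k : ℕ}
    (hc : BorelColourable k B') (hf : ∀ x ∈ B, ∃ z ∈ B', toSet z = f '' toSet x) : BorelColourable 3 B := by
  classical
  obtain ⟨c, hcm, hc⟩ := hc
  let D : Fin k → Set Seq := fun i => Subtype.val '' (c ⁻¹' {i})
  have hD : ∀ i, MeasurableSet (D i) := fun i => hB'.subtype_image (hcm (MeasurableSet.singleton i))
  let A : ℕ → Set Seq := fun j =>
    if j = 0 then {x | f (x.1 1) = f (x.1 0)} else if j = 1 then {x | f (x.1 1) < f (x.1 0)} else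
      if h : j - 2 < k then SM f ∩ Phi f ⁻¹' D ⟨j - 2, h⟩ else ∅
  have hA : ∀ j, MeasurableSet (A j) := by
    intro j
    simp only [A]
    split_ifs with h1 h2 h3
    · exact measurableSet_eq_fun (meas_f f 1) (meas_f f 0)
    · exact measurableSet_lt (meas_f f 1) (meas_f f 0)
    · exact (SM_measurable f).inter (Phi_measurable f (hD _))
    · exact MeasurableSet.empty
  have m0 : ∀ (x : Seq) n, S^[n] x ∈ A 0 ↔ f (x.1 (n + 1)) = f (x.1 n) := by
    intro x n
    change f ((S^[n] x).1 1) = f ((S^[n] x).1 0) ↔ _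
    rw [iter_apply, iter_apply]
    exact Iff.rfl
  have m1 : ∀ (x : Seq) n, S^[n] x ∈ A 1 ↔ f (x.1 (n + 1)) < f (x.1 n) := by
    intro x n
    change f ((S^[n] x).1 1) < f ((S^[n] x).1 0) ↔ _
    rw [iter_apply, iter_apply]
    exact Iff.rfl
  have m2 : ∀ (x : Seq) (i : Fin k), x ∈ A (i + 2) ↔ x ∈ SM f ∧ Phi f x ∈ D i := by
    intro x i
    have h1 : A (i + 2) = SM f ∩ Phi f ⁻¹' D i := by
      simp only [A]
      rw [if_neg (by omega), if_neg (by omega), dif_pos (by rw [Nat.add_sub_cancel]; exact i.2)]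
      congr 2
    rw [h1]
    exact Iff.rfl
  refine colour_of_split A hA ?_
  intro x hx
  obtain ⟨z, hz, hzx⟩ := hf x hx
  have hinf : (f '' toSet x).Infinite := by
    rw [← hzx]
    exact Set.infinite_range_of_injective z.2.injective
  by_cases c0 : ∃ᶠ n in atTop, S^[n] x ∈ A 0
  · refine ⟨0, c0, ?_⟩
    intro hcon
    simp only [not_not] at hcon
    obtain ⟨N, hN⟩ := Filter.eventually_atTop.1 hcon
    have hconst : ∀ i, f (x.1 (N + i)) = f (x.1 N) := by
      intro i
      induction i with
      | zero => rfl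
      | succ i ih =>
        have h1 := (m0 x (N + i)).1 (hN (N + i) (by omega))
        rw [← ih, ← h1]
        rfl
    apply hinf
    refine ((Set.finite_Iic N).image fun n => f (x.1 n)).subset ?_
    rintro _ ⟨_, ⟨n, rfl⟩, rfl⟩
    rcases le_total n N with h | h
    · exact ⟨n, h, rfl⟩
    · refine ⟨N, Set.self_mem_Iic, ?_⟩
      have h2 := hconst (n - N)
      rw [Nat.add_sub_cancel' h] at h2
      exact h2.symm
  · have c0' : ∀ᶠ n in atTop, S^[n] x ∉ A 0 := Filter.not_frequently.1 c0
    by_cases c1 : ∃ᶠ n in atTop, S^[n] x ∈ A 1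
    · refine ⟨1, c1, ?_⟩
      intro hcon
      simp only [not_not] at hcon
      obtain ⟨N, hN⟩ := Filter.eventually_atTop.1 hcon
      have hdec : ∀ i, f (x.1 (N + i)) + i ≤ f (x.1 N) := by
        intro i
        induction i with
        | zero => exact le_rfl
        | succ i ih =>
          have h1 := (m1 x (N + i)).1 (hN (N + i) (by omega))
          have h2 : x.1 (N + (i + 1)) = x.1 (N + i + 1) := rfl
          rw [h2]
          omega
      have h3 := hdec (f (x.1 N) + 1)
      omega
    · have c1' : ∀ᶠ n in atTop, S^[n] x ∉ A 1 := Filter.not_frequently.1 c1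
      obtain ⟨N, hN⟩ := Filter.eventually_atTop.1 (c0'.and c1')
      have hinc : ∀ n, N ≤ n → f (x.1 n) < f (x.1 (n + 1)) := by
        intro n hn
        obtain ⟨h1, h2⟩ := hN n hn
        rw [m0] at h1
        rw [m1] at h2
        omega
      have hSM : ∀ n, N ≤ n → S^[n] x ∈ SM f := by
        intro n hn
        refine strictMono_nat_of_lt_succ fun i => ?_
        rw [iter_apply, iter_apply]
        exact hinc (n + i) (by omega)
      have hPhi : ∀ n, N ≤ n → ∀ i, (Phi f (S^[n] x)).1 i = f (x.1 (n + i)) := by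
        intro n hn i
        rw [Phi_apply f (hSM n hn), iter_apply]
      have hPS : ∀ n, N ≤ n → Phi f (S^[n + 1] x) = S (Phi f (S^[n] x)) := by
        intro n hn
        refine Subtype.ext (funext fun i => ?_)
        rw [hPhi (n + 1) (by omega)]
        change _ = (Phi f (S^[n] x)).1 (i + 1)
        rw [hPhi n hn, Nat.add_assoc, Nat.add_comm 1 i]
      have hPB : ∀ n, N ≤ n → Phi f (S^[n] x) ∈ B' := by
        intro n hn
        refine hinv z _ ?_ hz
        unfold E0
        rw [hzx]
        refine ((Set.finite_Iio n).image fun i => f (x.1 i)).subset ?_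
        intro a ha
        rcases ha with ⟨⟨_, ⟨i, rfl⟩, rfl⟩, h1⟩ | ⟨⟨i, rfl⟩, h1⟩
        · rcases lt_or_ge i n with h2 | h2
          · exact ⟨i, h2, rfl⟩
          · exfalso
            apply h1
            refine ⟨i - n, ?_⟩
            rw [hPhi n hn, Nat.add_sub_cancel' h2]
        · exfalso
          apply h1
          refine ⟨x.1 (n + i), ⟨n + i, rfl⟩, ?_⟩
          exact (hPhi n hn i).symm
      have hcol : ∀ n, N ≤ n → ∃ i, Phi f (S^[n] x) ∈ D i := fun n hn =>
        ⟨c ⟨_, hPB n hn⟩, ⟨⟨_, hPB n hn⟩, rfl, rfl⟩⟩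
      have hadj : ∀ n, N ≤ n → ∀ i, Phi f (S^[n] x) ∈ D i → Phi f (S^[n + 1] x) ∉ D i := by
        rintro n hn i ⟨⟨u, hu⟩, h1, h2⟩ ⟨⟨v, hv⟩, h3, h4⟩
        have h5 : c ⟨u, hu⟩ = i := h1
        have h6 : c ⟨v, hv⟩ = i := h3
        refine hc ⟨u, hu⟩ ⟨v, hv⟩ (Or.inl ?_) (h5.trans h6.symm)
        change v = S u
        rw [show u = Phi f (S^[n] x) from h2, show v = Phi f (S^[n + 1] x) from h4, hPS n hn]
      obtain ⟨i, hi⟩ : ∃ i, ∃ᶠ n in atTop, Phi f (S^[n] x) ∈ D i := by
        by_contra hcon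
        push Not at hcon
        have h1 : ∀ᶠ n in atTop, ∀ i, Phi f (S^[n] x) ∉ D i := Filter.eventually_all.2 hcon
        obtain ⟨M, hM⟩ := Filter.eventually_atTop.1 h1
        obtain ⟨i, hi⟩ := hcol (max M N) (le_max_right _ _)
        exact hM _ (le_max_left _ _) i hi
      refine ⟨i + 2, ?_, ?_⟩
      · refine (hi.and_eventually (Filter.eventually_ge_atTop N)).mono fun n hn => ?_
        exact (m2 _ i).2 ⟨hSM n hn.2, hn.1⟩
      · rw [Filter.frequently_atTop]
        intro M
        by_cases h1 : Phi f (S^[max M N] x) ∈ D i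
        · refine ⟨max M N + 1, by omega, ?_⟩
          intro h2
          exact hadj (max M N) (le_max_right _ _) i h1 ((m2 _ i).1 h2).2
        · exact ⟨max M N, le_max_left _ _, fun h2 => h1 ((m2 _ i).1 h2).2⟩

/-- Colourings go up in the Katetov order. -/
theorem colour_of_katetov {I J : Set (Set ℕ)} (hI : IsHer I) (hm : MeasurableSet (Pos I)) (f : ℕ → ℕ)
    (hf : ∀ A ∈ I, f ⁻¹' A ∈ J) (hJ : IsHer J) {k : ℕ} (hc : BorelColourable k (Pos I)) :
    BorelColourable 3 (Pos J) := by
  refine colour_of_image f hm (Pos_inv hI) hc ?_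
  intro x hx
  have h1 : f '' toSet x ∉ I := by
    intro h
    exact hx (hJ.sub _ _ (hf _ h) (Set.subset_preimage_image f _))
  have h2 : (f '' toSet x).Infinite := fun h => h1 (hI.fin _ h)
  have h3 : Set.range (Nat.nth fun a => a ∈ f '' toSet x) = f '' toSet x :=
    Nat.range_nth_of_infinite (p := fun a => a ∈ f '' toSet x) h2
  refine ⟨⟨Nat.nth fun a => a ∈ f '' toSet x, Nat.nth_strictMono (p := fun a => a ∈ f '' toSet x) h2⟩, ?_, h3⟩
  change Set.range (Nat.nth fun a => a ∈ f '' toSet x) ∉ I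
  rw [h3]
  exact h1

end ShiftGraph
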