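import Pool.Agent.Lib.MP_ae662e_lc.Sim

/-!
# The shift graph: local maps between digraphs
-/

namespace ShiftGraph

open Filter

/-- For some `h, f, g`: `f` takes the walks `a, b, c` of `R` with `h a < b` and `h b < c` to arcs `f a b, f b c` of `R'` and `g` takes the
increasing walks `a, b, c` of `R'` to increasing arcs `g a b, g b c` of `R`. -/
def Loc (R R' : ℕ → ℕ → Prop) : Prop :=
  ∃ (h : ℕ → ℕ) (f g : ℕ → ℕ → ℕ), (∀ a b c, h a < b → h b < c → R a b → R b c → R' (f a b) (f b c)) ∧
    ∀ a b c, a < b → b < c → R' a b → R' b c → g a b < g b c ∧ R (g a b) (g b c)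

theorem Sim.loc {R R' : ℕ → ℕ → Prop} (h : Sim R R') : Loc R R' := by
  obtain ⟨h, f, g, hf, hg, hgR⟩ := h
  exact ⟨h, fun a _ => f a, fun a _ => g a, fun a b _ hab _ hR _ => hf a b hab hR, fun a b _ hab _ hR _ =>
    ⟨hg hab, hgR a b hab hR⟩⟩

section Trim

variable (R : ℕ → ℕ → Prop)

private theorem trim_ex (v : Seq) : ∃ N, v ∉ Paths R ∨ ∀ n, N ≤ n → R (v.1 n) (v.1 (n + 1)) := by
  by_cases h : v ∈ Paths R
  · obtain ⟨N, hN⟩ := Filter.eventually_atTop.1 (show ∀ᶠ n in atTop, R (v.1 n) (v.1 (n + 1)) from h)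
    exact ⟨N, Or.inr fun n hn => hN n hn⟩
  · exact ⟨0, Or.inl h⟩

open Classical in
/-- the place from which on `v` is a path -/
private noncomputable def tn (v : Seq) : ℕ := Nat.find (trim_ex R v)

private theorem tn_spec {v : Seq} (hv : v ∈ Paths R) : ∀ n, tn R v ≤ n → R (v.1 n) (v.1 (n + 1)) := by
  classical
  exact (Nat.find_spec (trim_ex R v)).resolve_left (not_not.2 hv)

private theorem tn_le {v : Seq} {N : ℕ} (h : ∀ n, N ≤ n → R (v.1 n) (v.1 (n + 1))) : tn R v ≤ N := by
  classical
  exact Nat.find_le (Or.inr h)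

private theorem tn_S {v : Seq} (hv : v ∈ Paths R) : tn R (S v) = tn R v - 1 := by
  have hv' : S v ∈ Paths R := (Paths_S R v).2 hv
  apply le_antisymm
  · exact tn_le R fun n hn => tn_spec R hv (n + 1) (by omega)
  · have h1 : tn R v ≤ tn R (S v) + 1 := by
      refine tn_le R fun n hn => ?_
      have h2 := tn_spec R hv' (n - 1) (by omega)
      change R (v.1 (n - 1 + 1)) (v.1 (n - 1 + 1 + 1)) at h2
      rw [show n - 1 + 1 = n by omega] at h2
      exact h2
    omega

private theorem tn_measurable : Measurable (tn R) := by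
  classical
  refine measurable_find (trim_ex R) fun N => ?_
  have h1 : {v : Seq | v ∉ Paths R ∨ ∀ n, N ≤ n → R (v.1 n) (v.1 (n + 1))} =
      (Paths R)ᶜ ∪ ⋂ n ∈ Set.Ici N, {v : Seq | R (v.1 n) (v.1 (n + 1))} := by
    ext v
    simp only [Set.mem_ofPred_eq, Set.mem_union, Set.mem_compl_iff, Set.mem_iInter, Set.mem_Ici]
  rw [h1]
  refine (Paths_measurable R).compl.union (MeasurableSet.biInter (Set.to_countable _) fun n _ => ?_)
  have h2 : Measurable fun v : Seq => (v.1 n, v.1 (n + 1)) := (measurable_eval n).prodMk (measurable_eval (n + 1))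
  exact h2 (MeasurableSet.of_discrete (s := {p : ℕ × ℕ | R p.1 p.2}))

/-- the trimmed path -/
private noncomputable def trim (v : Seq) : Seq := S^[2 * tn R v] v

private theorem trim_measurable : Measurable (trim R) := by
  have h1 : Measurable fun p : Seq × ℕ => S^[2 * p.2] p.1 :=
    measurable_from_prod_countable_left fun m => measurable_iter (2 * m)
  exact h1.comp (measurable_id.prodMk (tn_measurable R))

private theorem trim_path {v : Seq} (hv : v ∈ Paths R) (n : ℕ) : R ((trim R v).1 n) ((trim R v).1 (n + 1)) := by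
  unfold trim
  rw [iter_apply, iter_apply]
  exact tn_spec R hv _ (by omega)

private theorem trim_adj {v : Seq} (hv : v ∈ Paths R) : Adj (trim R v) (trim R (S v)) := by
  by_cases h : tn R v = 0
  · left
    unfold trim
    rw [tn_S R hv, h]
    rfl
  · right
    unfold trim
    rw [tn_S R hv, ← Function.iterate_succ_apply' S, ← Function.iterate_succ_apply S]
    congr 1
    omega

end Trim

section Block

variable (g : ℕ → ℕ → ℕ)

private def VB : Set Seq := {x | StrictMono fun n => g (x.1 n) (x.1 (n + 1))}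

private theorem measurable_g (n : ℕ) : Measurable fun x : Seq => g (x.1 n) (x.1 (n + 1)) :=
  (measurable_of_countable (f := fun p : ℕ × ℕ => g p.1 p.2)).comp ((measurable_eval n).prodMk (measurable_eval (n + 1)))

private theorem VB_measurable : MeasurableSet (VB g) := by
  have h1 : VB g = ⋂ n : ℕ, {x : Seq | g (x.1 n) (x.1 (n + 1)) < g (x.1 (n + 1)) (x.1 (n + 1 + 1))} := by
    ext x
    simp only [VB, Set.mem_ofPred_eq, Set.mem_iInter]
    exact ⟨fun h n => h (Nat.lt_succ_self n), strictMono_nat_of_lt_succ⟩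
  rw [h1]
  exact MeasurableSet.iInter fun n => measurableSet_lt (measurable_g g n) (measurable_g g (n + 1))

open Classical in
private noncomputable def blk (x : Seq) : Seq :=
  ⟨fun n => if x ∈ VB g then g (x.1 n) (x.1 (n + 1)) else x.1 n, by
    intro a b hab
    by_cases h : x ∈ VB g
    · simp only [if_pos h]
      exact h hab
    · simp only [if_neg h]
      exact x.2 hab⟩

private theorem blk_measurable : Measurable (blk g) := by
  classical
  refine Measurable.subtype_mk ?_
  exact measurable_pi_lambda _ fun n => Measurable.ite (VB_measurable g) (measurable_g g n) (measurable_eval n)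

private theorem blk_apply {x : Seq} (h : x ∈ VB g) (n : ℕ) : (blk g x).1 n = g (x.1 n) (x.1 (n + 1)) := by
  classical
  change (if x ∈ VB g then g (x.1 n) (x.1 (n + 1)) else x.1 n) = _
  rw [if_pos h]

private theorem blk_S {x : Seq} (h : x ∈ VB g) : blk g (S x) = S (blk g x) := by
  have h1 : S x ∈ VB g := fun a b hab => h (Nat.add_lt_add_right hab 1)
  refine Subtype.ext (funext fun n => ?_)
  rw [blk_apply g h1]
  change _ = (blk g x).1 (n + 1)
  rw [blk_apply g h]
  rfl

private theorem blk_adj {x y : Seq} (hx : x ∈ VB g) (hy : y ∈ VB g) (h : Adj x y) : Adj (blk g x) (blk g y) := by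
  rcases h with h | h
  · left
    rw [h, blk_S g hx]
  · right
    rw [h, blk_S g hy]

end Block

theorem Adj.symm {x y : Seq} (h : Adj x y) : Adj y x := Or.symm h

theorem loc_hom {R R' : ℕ → ℕ → Prop} (h : Loc R R') (hom : BorelHom (Paths R')) : BorelHom (Paths R) := by
  obtain ⟨_, _, g, _, hg⟩ := h
  obtain ⟨F, h1, h2, h3⟩ := hom
  have hV : ∀ v ∈ Paths R', trim R' v ∈ VB g := fun v hv => strictMono_nat_of_lt_succ fun n =>
    (hg _ _ _ ((trim R' v).2 (Nat.lt_succ_self n)) ((trim R' v).2 (Nat.lt_succ_self (n + 1))) (trim_path R' hv n)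
      (trim_path R' hv (n + 1))).1
  have hadj : ∀ v ∈ Paths R', Adj (blk g (trim R' v)) (blk g (trim R' (S v))) := fun v hv =>
    blk_adj g (hV v hv) (hV (S v) ((Paths_S R' v).2 hv)) (trim_adj R' hv)
  refine ⟨fun x => blk g (trim R' (F x)), (blk_measurable g).comp ((trim_measurable R').comp h1), ?_, ?_⟩
  · intro x
    refine Filter.Eventually.of_forall fun n => ?_
    rw [blk_apply g (hV _ (h2 x)), blk_apply g (hV _ (h2 x))]
    exact (hg _ _ _ ((trim R' (F x)).2 (Nat.lt_succ_self n)) ((trim R' (F x)).2 (Nat.lt_succ_self (n + 1)))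
      (trim_path R' (h2 x) n) (trim_path R' (h2 x) (n + 1))).2
  · intro x y hxy
    rcases h3 x y hxy with h4 | h4
    · change Adj (blk g (trim R' (F x))) (blk g (trim R' (F y)))
      rw [h4]
      exact hadj _ (h2 x)
    · change Adj (blk g (trim R' (F x))) (blk g (trim R' (F y)))
      rw [h4]
      exact (hadj _ (h2 y)).symm

theorem loc_colour {R R' : ℕ → ℕ → Prop} (hR : ∀ a, ¬ R' a a) (h : Loc R R') {k : ℕ} (hc : BorelColourable k (Paths R')) :
    BorelColourable 3 (Paths R) := by
  obtain ⟨h, f, _, hf, _⟩ := h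
  obtain ⟨D, hD, hsp⟩ := exists_dense_split h
  refine colour_of_letters hR hc (fun x => f (x.1 0) (x.1 1)) (measurable_g f 0) D hD ?_
  intro x hx
  by_cases hs : ∀ᶠ n in atTop, h (x.1 n) < x.1 (n + 1)
  · right
    obtain ⟨N, hN⟩ := Filter.eventually_atTop.1 (hs.and (show ∀ᶠ n in atTop, R (x.1 n) (x.1 (n + 1)) from hx))
    refine Filter.eventually_atTop.2 ⟨N, fun n hn => ?_⟩
    rw [iter_apply, iter_apply, iter_apply, iter_apply, Nat.add_zero, Nat.add_zero]
    exact hf _ _ _ (hN n hn).1 (hN (n + 1) (by omega)).1 (hN n hn).2 (hN (n + 1) (by omega)).2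
  · left
    exact hsp x ((Filter.not_eventually.1 hs).mono fun n hn => not_lt.1 hn)

end ShiftGraph
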