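import Pool.Agent.Lib.MP_ae662e_lc.Pattern

/-!
# The shift graph: homomorphisms and colourings are transported by equivariant maps
-/

namespace ShiftGraph

open Filter

theorem BorelHom.mono {B B' : Set Seq} (h : BorelHom B) (hB : B ⊆ B') : BorelHom B' := by
  obtain ⟨f, h1, h2, h3⟩ := h
  exact ⟨f, h1, fun x => hB (h2 x), h3⟩

/-- A colouring is pulled back by an equivariant map which is defined on the tails. -/
theorem colour_of_map {B B' : Set Seq} (U : Set Seq) (hU : MeasurableSet U) (Ψ : Seq → Seq) (hΨ : Measurable Ψ)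
    (hB' : MeasurableSet B') (hinv : Inv B') {k : ℕ} (hc : BorelColourable k B') (hS : ∀ x ∈ U, S x ∈ U ∧ Ψ (S x) = S (Ψ x))
    (hf : ∀ x ∈ B, ∃ n, S^[n] x ∈ U ∧ Ψ (S^[n] x) ∈ B') : BorelColourable 3 B := by
  classical
  obtain ⟨c, hcm, hc⟩ := hc
  let D : ℕ → Set Seq := fun j => if h : j < k then Subtype.val '' (c ⁻¹' {⟨j, h⟩}) else ∅
  have hD : ∀ j, MeasurableSet (D j) := by
    intro j
    simp only [D]
    split_ifs
    · exact hB'.subtype_image (hcm (MeasurableSet.singleton _))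
    · exact MeasurableSet.empty
  have hDm : ∀ j (hj : j < k) (y : Seq) (hy : y ∈ B'), y ∈ D j ↔ c ⟨y, hy⟩ = ⟨j, hj⟩ := by
    intro j hj y hy
    simp only [D]
    rw [dif_pos hj]
    constructor
    · rintro ⟨z, hz, rfl⟩
      exact hz
    · intro h2
      exact ⟨⟨y, hy⟩, h2, rfl⟩
  refine colour_of_split (fun j => U ∩ Ψ ⁻¹' D j) (fun j => hU.inter (hΨ (hD j))) ?_
  intro x hx
  obtain ⟨N, hN1, hN2⟩ := hf x hx
  have hit : ∀ i, S^[N + i] x ∈ U ∧ Ψ (S^[N + i] x) ∈ B' := by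
    intro i
    induction i with
    | zero => exact ⟨hN1, hN2⟩
    | succ i ih =>
      have h1 : S^[N + (i + 1)] x = S (S^[N + i] x) := Function.iterate_succ_apply' S (N + i) x
      rw [h1]
      refine ⟨(hS _ ih.1).1, ?_⟩
      rw [(hS _ ih.1).2]
      exact hinv.S_mem ih.2
  have hit' : ∀ n, N ≤ n → S^[n] x ∈ U ∧ Ψ (S^[n] x) ∈ B' := by
    intro n hn
    have h1 := hit (n - N)
    rw [Nat.add_sub_cancel' hn] at h1
    exact h1
  have hne : ∀ n (hn : N ≤ n) (hn' : N ≤ n + 1), c ⟨Ψ (S^[n] x), (hit' n hn).2⟩ ≠ c ⟨Ψ (S^[n + 1] x), (hit' (n + 1) hn').2⟩ := by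
    intro n hn hn'
    refine hc _ _ (Or.inl ?_)
    change Ψ (S^[n + 1] x) = S (Ψ (S^[n] x))
    rw [Function.iterate_succ_apply', (hS _ (hit' n hn).1).2]
  obtain ⟨j, hj⟩ : ∃ j : Fin k, ∃ᶠ n in atTop, Ψ (S^[n] x) ∈ D j.1 := by
    by_contra hcon
    push Not at hcon
    have h1 : ∀ᶠ n in atTop, ∀ j : Fin k, Ψ (S^[n] x) ∉ D j.1 := Filter.eventually_all.2 hcon
    obtain ⟨M, hM⟩ := Filter.eventually_atTop.1 h1
    have h2 := hit' (max M N) (le_max_right _ _)
    exact hM (max M N) (le_max_left _ _) _ ((hDm _ (c ⟨_, h2.2⟩).2 _ h2.2).2 rfl)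
  refine ⟨j.1, ?_, ?_⟩
  · exact (hj.and_eventually (Filter.eventually_ge_atTop N)).mono fun n hn => ⟨(hit' n hn.2).1, hn.1⟩
  · rw [Filter.frequently_atTop]
    intro M
    have hn : N ≤ max M N := le_max_right _ _
    by_cases h1 : Ψ (S^[max M N] x) ∈ D j.1
    · refine ⟨max M N + 1, by omega, fun h2 => ?_⟩
      have h3 := (hDm j.1 j.2 _ (hit' _ hn).2).1 h1
      have h4 := (hDm j.1 j.2 _ (hit' (max M N + 1) (by omega)).2).1 h2.2
      exact hne _ hn (by omega) (h3.trans h4.symm)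
    · exact ⟨max M N, le_max_left _ _, fun h2 => h1 h2.2⟩

end ShiftGraph
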