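import Pool.Agent.Lib.MP_ae662e_lc.Ideal

/-!
# The shift graph on the set of the infinite paths of a digraph
-/

namespace ShiftGraph

open Filter

/-- The infinite sets whose enumeration is eventually a path of the digraph `R`. -/
def Paths (R : ℕ → ℕ → Prop) : Set Seq := {x | ∀ᶠ n in atTop, R (x.1 n) (x.1 (n + 1))}

theorem Paths_S (R : ℕ → ℕ → Prop) (x : Seq) : S x ∈ Paths R ↔ x ∈ Paths R := by
  unfold Paths
  rw [Set.mem_ofPred_eq, Set.mem_ofPred_eq, Filter.eventually_atTop, Filter.eventually_atTop]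
  constructor
  · rintro ⟨N, hN⟩
    refine ⟨N + 1, fun n hn => ?_⟩
    have h1 := hN (n - 1) (by omega)
    change R (x.1 (n - 1 + 1)) (x.1 (n - 1 + 1 + 1)) at h1
    rwa [Nat.sub_add_cancel (by omega)] at h1
  · rintro ⟨N, hN⟩
    exact ⟨N, fun n hn => hN (n + 1) (by omega)⟩

/-- Two infinite sets with finite difference have a common tail. -/
theorem common_tail {x y : Seq} (h : E0 x y) : ∃ m n, S^[m] x = S^[n] y := by
  classical
  obtain ⟨N, hN⟩ := h.bddAbove
  have hex : ∀ z : Seq, ∃ k, N < z.1 k := fun z => ⟨N + 1, lt_of_lt_of_le (Nat.lt_succ_self N) (z.2.id_le _)⟩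
  have key : ∀ z w : Seq, E0 z w → (∀ a ∈ symmDiff (toSet z) (toSet w), a ≤ N) →
      ∀ i, ∃ j, (S^[Nat.find (hex z)] z).1 i = (S^[Nat.find (hex w)] w).1 j := by
    intro z w _ hzw i
    rw [iter_apply]
    set a := z.1 (Nat.find (hex z) + i) with ha
    have h1 : N < a := lt_of_lt_of_le (Nat.find_spec (hex z)) (z.2.monotone (Nat.le_add_right _ _))
    have h2 : a ∈ toSet w := by
      by_contra hcon
      exact absurd (hzw a (Or.inl ⟨⟨_, rfl⟩, hcon⟩)) (not_le.2 h1)
    obtain ⟨j, hj⟩ := h2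
    have h3 : Nat.find (hex w) ≤ j := by
      refine Nat.find_le ?_
      rw [hj]
      exact h1
    refine ⟨j - Nat.find (hex w), ?_⟩
    rw [iter_apply, Nat.add_sub_cancel' h3, hj]
  refine ⟨Nat.find (hex x), Nat.find (hex y), ?_⟩
  have h1 := key x y h fun a ha => hN ha
  have h2 := key y x (by unfold E0; rw [symmDiff_comm]; exact h) fun a ha => hN (by rw [symmDiff_comm]; exact ha)
  have hr : Set.range (S^[Nat.find (hex x)] x).1 = Set.range (S^[Nat.find (hex y)] y).1 := by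
    ext a
    constructor
    · rintro ⟨i, rfl⟩
      obtain ⟨j, hj⟩ := h1 i
      exact ⟨j, hj.symm⟩
    · rintro ⟨i, rfl⟩
      obtain ⟨j, hj⟩ := h2 i
      exact ⟨j, hj.symm⟩
  exact Subtype.ext (StrictMono.range_inj (S^[Nat.find (hex x)] x).2 (S^[Nat.find (hex y)] y).2 |>.1 hr)

theorem inv_of_S {B : Set Seq} (h : ∀ x, S x ∈ B ↔ x ∈ B) : Inv B := by
  intro x y hxy hx
  obtain ⟨m, n, hmn⟩ := common_tail hxy
  have key : ∀ (z : Seq) (k : ℕ), S^[k] z ∈ B ↔ z ∈ B := by
    intro z k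
    induction k with
    | zero => exact Iff.rfl
    | succ k ih => rw [Function.iterate_succ_apply', h, ih]
  rw [← key y n, ← hmn, key]
  exact hx

theorem Paths_inv (R : ℕ → ℕ → Prop) : Inv (Paths R) := inv_of_S (Paths_S R)

theorem Paths_measurable (R : ℕ → ℕ → Prop) : MeasurableSet (Paths R) := by
  have h1 : Paths R = ⋃ N : ℕ, ⋂ n : ℕ, ⋂ _ : N ≤ n, {x : Seq | R (x.1 n) (x.1 (n + 1))} := by
    ext x
    simp only [Paths, Set.mem_ofPred_eq, Filter.eventually_atTop, Set.mem_iUnion, Set.mem_iInter]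
  rw [h1]
  refine MeasurableSet.iUnion fun N => MeasurableSet.iInter fun n => MeasurableSet.iInter fun _ => ?_
  have h2 : Measurable fun x : Seq => (x.1 n, x.1 (n + 1)) := (measurable_eval n).prodMk (measurable_eval (n + 1))
  exact h2 (MeasurableSet.of_discrete (s := {p : ℕ × ℕ | R p.1 p.2}))

/-- If the vertices have a colouring with finitely many colours without monochromatic infinite fast growing paths then the set of the
infinite paths has a Borel colouring with three colours. -/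
theorem colour_of_cover (R : ℕ → ℕ → Prop) (h : ℕ → ℕ) {k : ℕ} (c : ℕ → Fin k)
    (hc : ∀ x : Seq, (∀ n, h (x.1 n) < x.1 (n + 1) ∧ R (x.1 n) (x.1 (n + 1))) → ∀ i, ∃ n, c (x.1 n) ≠ i) :
    BorelColourable 3 (Paths R) := by
  refine colour_of_sparse_split h (fun j => {a | (c a : ℕ) = j}) ?_
  intro x hx hsp
  have key : ∀ i, ∃ᶠ n in atTop, c (x.1 n) ≠ i := by
    intro i hcon
    simp only [ne_eq, not_not] at hcon
    obtain ⟨N, hN⟩ := Filter.eventually_atTop.1 ((hcon.and hsp).and hx)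
    obtain ⟨n, hn⟩ := hc (S^[N] x) (by
      intro n
      rw [iter_apply, iter_apply]
      exact ⟨(hN (N + n) (by omega)).1.2, (hN (N + n) (by omega)).2⟩) i
    rw [iter_apply] at hn
    exact hn (hN (N + n) (by omega)).1.1
  obtain ⟨i, hi⟩ : ∃ i, ∃ᶠ n in atTop, c (x.1 n) = i := by
    by_contra hcon
    push Not at hcon
    have h1 : ∀ᶠ n in atTop, ∀ i, c (x.1 n) ≠ i := Filter.eventually_all.2 hcon
    obtain ⟨M, hM⟩ := Filter.eventually_atTop.1 h1
    exact hM M le_rfl _ rfl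
  refine ⟨i, hi.mono fun n hn => ?_, (key i).mono fun n hn h1 => hn (Fin.ext h1)⟩
  change (c (x.1 n) : ℕ) = i
  rw [hn]

open Classical in
/-- the greedy colouring -/
private noncomputable def gr {m : ℕ} (hm : 0 < m) (N : ℕ → ℕ → Prop) : ℕ → Fin m
  | b => if h : ∃ i : Fin m, ∀ a : Fin b, N a b → gr hm N a.1 ≠ i then h.choose else ⟨0, hm⟩
  decreasing_by all_goals exact a.2

private theorem gr_spec {m : ℕ} (hm : 0 < m) (N : ℕ → ℕ → Prop)
    (hN : ∀ b, ∀ s : Finset ℕ, (∀ a ∈ s, a < b ∧ N a b) → s.card < m) {a b : ℕ} (hab : a < b) (h : N a b) :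
    gr hm N a ≠ gr hm N b := by
  classical
  have h1 : ∃ i : Fin m, ∀ a : Fin b, N a b → gr hm N a.1 ≠ i := by
    by_contra hcon
    push Not at hcon
    choose g hg using hcon
    have h2 := hN b (Finset.univ.image fun i => (g i).1) (by
      intro a ha
      obtain ⟨i, _, rfl⟩ := Finset.mem_image.1 ha
      exact ⟨(g i).2, (hg i).1⟩)
    rw [Finset.card_image_of_injective, Finset.card_univ, Fintype.card_fin] at h2
    · exact lt_irrefl m h2
    · intro i j hij
      rw [← (hg i).2, ← (hg j).2]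
      exact congrArg (gr hm N) hij
  have h3 : gr hm N b = h1.choose := by
    rw [gr, dif_pos h1]
  rw [h3]
  exact h1.choose_spec ⟨a, hab⟩ h

/-- The infinite paths of a digraph without `K_{m,∞}` have a Borel colouring with three colours. -/
theorem colour_of_KmInf (R : ℕ → ℕ → Prop) (m : ℕ)
    (hR : ∀ s : Finset ℕ, s.card = m → {b | ∀ a ∈ s, R a b}.Finite) : BorelColourable 3 (Paths R) := by
  classical
  have hm : 0 < m := by
    rcases Nat.eq_zero_or_pos m with h | h
    · exfalso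
      have h1 := hR ∅ (by rw [h, Finset.card_empty])
      have h2 : {b : ℕ | ∀ a ∈ (∅ : Finset ℕ), R a b} = Set.univ := by
        ext b
        simp
      rw [h2] at h1
      exact Set.infinite_univ h1
    · exact h
  have hfin : ∀ a : ℕ, ∃ B : ℕ, ∀ s ∈ (Finset.range (a + 1)).powersetCard m, ∀ b, (∀ a' ∈ s, R a' b) → b ≤ B := by
    intro a
    have h1 : (⋃ s ∈ ((Finset.range (a + 1)).powersetCard m : Set (Finset ℕ)), {b | ∀ a' ∈ s, R a' b}).Finite := by
      refine Set.Finite.biUnion (Finset.finite_toSet _) fun s hs => hR s ?_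
      exact (Finset.mem_powersetCard.1 (Finset.mem_coe.1 hs)).2
    obtain ⟨B, hB⟩ := h1.bddAbove
    exact ⟨B, fun s hs b hb => hB (Set.mem_biUnion (Finset.mem_coe.2 hs) hb)⟩
  choose h hh using hfin
  let N : ℕ → ℕ → Prop := fun a b => R a b ∧ h a < b
  have hN : ∀ b, ∀ s : Finset ℕ, (∀ a ∈ s, a < b ∧ N a b) → s.card < m := by
    intro b s hs
    by_contra hcon
    obtain ⟨t, hts, htc⟩ := Finset.exists_subset_card_eq (not_lt.1 hcon)
    have hne : t.Nonempty := by
      rw [← Finset.card_pos, htc]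
      exact hm
    have h1 := t.max'_mem hne
    have h2 := (hs _ (hts h1)).2.2
    have h3 := hh (t.max' hne) t (Finset.mem_powersetCard.2 ⟨fun a ha =>
      Finset.mem_range.2 (Nat.lt_succ_of_le (t.le_max' a ha)), htc⟩) b fun a ha => (hs a (hts ha)).2.1
    omega
  refine colour_of_cover R h (gr hm N) ?_
  intro x hx i
  by_contra hcon
  push Not at hcon
  have h1 := gr_spec hm N hN (x.2 (Nat.lt_succ_self 0)) ⟨(hx 0).2, (hx 0).1⟩
  exact h1 ((hcon 0).trans (hcon 1).symm)

/-- The dichotomy for the digraphs whose in-neighbourhoods have finitely many limit types up to a bounded error. -/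
theorem paths_dichotomy (R : ℕ → ℕ → Prop) {k : ℕ} (m : ℕ) (T : Fin k → Set ℕ)
    (hR : ∀ p : ℕ, ∀ᶠ b in atTop, ∃ i, {a | a ≤ p ∧ ¬ (R a b ↔ a ∈ T i)}.ncard < m) :
    Cube (Paths R) ∨ BorelColourable 3 (Paths R) := by
  classical
  by_cases hcube : Cube (Paths R)
  · exact Or.inl hcube
  right
  have hR' : ∀ p : ℕ, ∃ B : ℕ, ∀ b, B ≤ b → ∃ i, {a | a ≤ p ∧ ¬ (R a b ↔ a ∈ T i)}.ncard < m := fun p =>
    Filter.eventually_atTop.1 (hR p)
  choose h0 hh0 using hR'
  let h : ℕ → ℕ := fun p => ∑ j ∈ Finset.range (p + 1), h0 j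
  have hle : ∀ p, h0 p ≤ h p := fun p =>
    Finset.single_le_sum (f := h0) (fun _ _ => Nat.zero_le _) (Finset.mem_range.2 (Nat.lt_succ_self p))
  have hmono : Monotone h := fun p q hpq =>
    Finset.sum_le_sum_of_subset (Finset.range_mono (Nat.succ_le_succ hpq))
  have hm : 0 < m := by
    obtain ⟨i, hi⟩ := hh0 0 (h0 0) le_rfl
    omega
  have hk : 0 < k := by
    obtain ⟨i, hi⟩ := hh0 0 (h0 0) le_rfl
    exact lt_of_le_of_lt (Nat.zero_le _) i.2
  -- the largest `p` with `h p < b`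
  let P : ℕ → ℕ := fun b => Nat.findGreatest (fun p => h p < b) b
  have hc : ∀ b, ∃ i : Fin k, h 0 < b → {a | a ≤ P b ∧ ¬ (R a b ↔ a ∈ T i)}.ncard < m := by
    intro b
    by_cases hb : h 0 < b
    · have h1 : h (P b) < b := Nat.findGreatest_spec (P := fun p => h p < b) (Nat.zero_le b) hb
      obtain ⟨i, hi⟩ := hh0 (P b) b ((hle _).trans h1.le)
      exact ⟨i, fun _ => hi⟩
    · exact ⟨⟨0, hk⟩, fun h1 => absurd h1 hb⟩
  choose c hc using hc
  let N : ℕ → ℕ → Prop := fun a b => h 0 < b ∧ a ≤ P b ∧ ¬ (R a b ↔ a ∈ T (c b))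
  have hN : ∀ b, ∀ s : Finset ℕ, (∀ a ∈ s, a < b ∧ N a b) → s.card < m := by
    intro b s hs
    rcases s.eq_empty_or_nonempty with rfl | ⟨a0, ha0⟩
    · rw [Finset.card_empty]
      exact hm
    · refine lt_of_le_of_lt ?_ (hc b (hs a0 ha0).2.1)
      rw [← Set.ncard_coe_finset]
      refine Set.ncard_le_ncard (fun a ha => ⟨(hs a ha).2.2.1, (hs a ha).2.2.2⟩) ?_
      exact (Set.finite_Iic (P b)).subset fun a ha => ha.1
  refine colour_of_cover R (fun a => max a (h a)) (fun b => finProdFinEquiv (c b, gr hm N b)) ?_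
  intro x hx i
  by_contra hcon
  push Not at hcon
  apply hcube
  have hci : ∀ n, c (x.1 n) = c (x.1 0) ∧ gr hm N (x.1 n) = gr hm N (x.1 0) := by
    intro n
    have h1 := finProdFinEquiv.injective ((hcon n).trans (hcon 0).symm)
    exact ⟨congrArg Prod.fst h1, congrArg Prod.snd h1⟩
  have hkey : ∀ n l, n < l → (R (x.1 n) (x.1 l) ↔ x.1 n ∈ T (c (x.1 0))) := by
    intro n l hnl
    by_contra hne
    have h1 : x.1 n < x.1 l := x.2 hnl
    have h2 : h (x.1 n) < x.1 l := by
      have h3 := (hx (l - 1)).1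
      rw [Nat.sub_add_cancel (by omega)] at h3
      have h4 : h (x.1 n) ≤ h (x.1 (l - 1)) := hmono (x.2.monotone (by omega))
      have h5 : h (x.1 (l - 1)) ≤ max (x.1 (l - 1)) (h (x.1 (l - 1))) := le_max_right _ _
      omega
    have h3 : x.1 n ≤ P (x.1 l) := Nat.le_findGreatest (P := fun p => h p < x.1 l) h1.le h2
    refine gr_spec hm N hN h1 ⟨lt_of_le_of_lt (hmono (Nat.zero_le _)) h2, h3, ?_⟩ ?_
    · rw [(hci l).1]
      exact hne
    · rw [(hci n).2, (hci l).2]
  have hT : ∀ n, x.1 n ∈ T (c (x.1 0)) := fun n => (hkey n (n + 1) (Nat.lt_succ_self n)).1 (hx n).2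
  refine ⟨x, fun y hy => Filter.Eventually.of_forall fun n => ?_⟩
  obtain ⟨a, ha⟩ := hy ⟨n, rfl⟩
  obtain ⟨b, hb⟩ := hy ⟨n + 1, rfl⟩
  have hab : a < b := by
    have h1 : y.1 n < y.1 (n + 1) := y.2 (Nat.lt_succ_self n)
    rw [← ha, ← hb] at h1
    exact x.2.lt_iff_lt.1 h1
  rw [← ha, ← hb]
  exact (hkey a b hab).2 (hT a)

end ShiftGraph
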