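import Pool.Agent.Lib.MP_ae662e_lc.Union

/-!
# The shift graph: sets given by the colours of the consecutive pairs
-/

namespace ShiftGraph

open Filter

/-- `R` is a finite union of digraphs with finitely many types, or with rich paths, or of finite chromatic number. -/
def Good (R : ℕ → ℕ → Prop) : Prop :=
  ∃ (l : ℕ) (P : Fin l → ℕ → ℕ → Prop), (∀ a b, R a b ↔ ∃ i, P i a b) ∧ ∀ i, FinTypes (P i) ∨ Rich (P i) ∨ FinChrom (P i)

theorem good_dichotomy {R : ℕ → ℕ → Prop} (hR : Good R) : Cube (Paths R) ∨ BorelColourable 3 (Paths R) := by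
  obtain ⟨l, P, hR, hP⟩ := hR
  have h0 : R = fun a b => ∃ i, P i a b := by
    funext a b
    exact propext (hR a b)
  rw [h0]
  refine union_dichotomy P fun i => ?_
  rcases hP i with h | h | h
  · obtain ⟨k, m, T, hT⟩ := h
    exact paths_dichotomy (P i) m T hT
  · exact rich_dichotomy h
  · exact Or.inr (finChrom_colour h)

/-- The sequences whose sequence of colours of consecutive pairs is in `E`. -/
def Pattern {k : ℕ} (τ : ℕ → ℕ → Fin k) (E : Set (ℕ → Fin k)) : Set Seq :=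
  {x | (fun n => τ (x.1 n) (x.1 (n + 1))) ∈ E}

theorem pattern_measurable {k : ℕ} (τ : ℕ → ℕ → Fin k) {E : Set (ℕ → Fin k)} (hE : MeasurableSet E) :
    MeasurableSet (Pattern τ E) := by
  have h1 : Measurable fun x : Seq => fun n => τ (x.1 n) (x.1 (n + 1)) := by
    refine measurable_pi_lambda _ fun n => ?_
    have h2 : Measurable fun x : Seq => (x.1 n, x.1 (n + 1)) := (measurable_eval n).prodMk (measurable_eval (n + 1))
    exact (measurable_of_countable (f := fun p : ℕ × ℕ => τ p.1 p.2)).comp h2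
  exact h1 hE

theorem pattern_inv {k : ℕ} (τ : ℕ → ℕ → Fin k) {E : Set (ℕ → Fin k)}
    (hinv : ∀ u : ℕ → Fin k, (fun n => u (n + 1)) ∈ E ↔ u ∈ E) : Inv (Pattern τ E) :=
  inv_of_S fun x => hinv fun n => τ (x.1 n) (x.1 (n + 1))

theorem tail {k : ℕ} {E : Set (ℕ → Fin k)} (hinv : ∀ u : ℕ → Fin k, (fun n => u (n + 1)) ∈ E ↔ u ∈ E)
    (u : ℕ → Fin k) (N : ℕ) : (fun n => u (n + N)) ∈ E ↔ u ∈ E := by
  induction N with
  | zero => exact Iff.rfl
  | succ N ih =>
    rw [← ih, ← hinv fun n => u (n + N)]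
    have h1 : (fun n => u (n + (N + 1))) = fun n => u (n + 1 + N) := by
      funext n
      congr 1
      omega
    rw [h1]

theorem tail_const {k : ℕ} {E : Set (ℕ → Fin k)} (hinv : ∀ u : ℕ → Fin k, (fun n => u (n + 1)) ∈ E ↔ u ∈ E)
    {u : ℕ → Fin k} {i : Fin k} (h : ∀ᶠ n in atTop, u n = i) : u ∈ E ↔ (fun _ => i) ∈ E := by
  obtain ⟨N, hN⟩ := Filter.eventually_atTop.1 h
  rw [← tail hinv u N]
  have h1 : (fun n => u (n + N)) = fun _ => i := by
    funext n
    exact hN _ (by omega)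
  rw [h1]

/-- If the sets of paths of the colours which matter are colourable then so is the set. -/
theorem pattern_colour {k : ℕ} (τ : ℕ → ℕ → Fin k) {E : Set (ℕ → Fin k)}
    (hinv : ∀ u : ℕ → Fin k, (fun n => u (n + 1)) ∈ E ↔ u ∈ E)
    (hc : ∀ i, (fun _ => i) ∈ E → BorelColourable 3 (Paths fun a b => τ a b = i)) : BorelColourable 3 (Pattern τ E) := by
  classical
  have hempty : BorelColourable 3 (∅ : Set Seq) :=
    ⟨fun _ => 0, measurable_const, fun x => absurd x.2 (Set.notMem_empty x.1)⟩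
  refine colour_of_pieces (fun i => if h : ∃ h : i < k, (fun _ => (⟨i, h⟩ : Fin k)) ∈ E then
    Paths (fun a b => τ a b = ⟨i, h.choose⟩) else ∅) ?_ ?_ 3 ?_
    (fun i => if h : i < k then {x | τ (x.1 0) (x.1 1) = ⟨i, h⟩} else ∅) ?_ ?_
  · intro i
    split_ifs
    · exact Paths_measurable _
    · exact MeasurableSet.empty
  · intro i
    split_ifs
    · exact Paths_inv _
    · exact fun x y _ hx => absurd hx (Set.notMem_empty x)
  · intro i
    split_ifs with h
    · exact hc _ h.choose_spec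
    · exact hempty
  · intro i
    split_ifs with h
    · have h1 : Measurable fun x : Seq => (x.1 0, x.1 1) := (measurable_eval 0).prodMk (measurable_eval 1)
      exact h1 (MeasurableSet.of_discrete (s := {p : ℕ × ℕ | τ p.1 p.2 = ⟨i, h⟩}))
    · exact MeasurableSet.empty
  · intro x hx
    by_contra hcon
    push Not at hcon
    obtain ⟨h1, h2⟩ := hcon
    -- a colour which occurs infinitely often
    have hex : ∃ i : Fin k, ∃ᶠ n in atTop, τ (x.1 n) (x.1 (n + 1)) = i := by
      by_contra hcon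
      push Not at hcon
      have h3 : ∀ᶠ n in atTop, ∀ j : Fin k, τ (x.1 n) (x.1 (n + 1)) ≠ j := Filter.eventually_all.2 hcon
      obtain ⟨n, hn⟩ := h3.exists
      exact hn _ rfl
    obtain ⟨i, hi⟩ := hex
    have hm : ∀ n, (S^[n] x ∈ if h : i.1 < k then {x : Seq | τ (x.1 0) (x.1 1) = ⟨i.1, h⟩} else ∅) ↔
        τ (x.1 n) (x.1 (n + 1)) = i := by
      intro n
      rw [dif_pos i.2]
      change τ ((S^[n] x).1 0) ((S^[n] x).1 1) = i ↔ _
      rw [iter_apply, iter_apply, Nat.add_zero]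
    have h4 := h2 i.1 (hi.mono fun n hn => (hm n).2 hn)
    have h5 : ∀ᶠ n in atTop, τ (x.1 n) (x.1 (n + 1)) = i := h4.mono fun n hn => (hm n).1 hn
    have h6 : (fun _ => i) ∈ E := (tail_const hinv h5).1 hx
    have h7 : ∃ h : i.1 < k, (fun _ => (⟨i.1, h⟩ : Fin k)) ∈ E := ⟨i.2, h6⟩
    apply h1 i.1
    rw [dif_pos h7]
    exact h5

theorem pattern_dichotomy {k : ℕ} (τ : ℕ → ℕ → Fin k) {E : Set (ℕ → Fin k)}
    (hinv : ∀ u : ℕ → Fin k, (fun n => u (n + 1)) ∈ E ↔ u ∈ E)
    (hgood : ∀ i, (fun _ => i) ∈ E → Good fun a b => τ a b = i) :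
    Cube (Pattern τ E) ∨ BorelColourable 3 (Pattern τ E) := by
  classical
  by_cases hcube : ∃ i, (fun _ => i) ∈ E ∧ Cube (Paths fun a b => τ a b = i)
  · left
    obtain ⟨i, hi, X, hX⟩ := hcube
    refine ⟨X, fun y hy => ?_⟩
    exact (tail_const hinv (hX y hy)).2 hi
  right
  push Not at hcube
  exact pattern_colour τ hinv fun i hi => (good_dichotomy (hgood i hi)).resolve_left (hcube i hi)

end ShiftGraph
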