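import Pool.Agent.Lib.MP_ae662e_lc.Ideal

/-!
# The shift graph and the random graph ideal
-/

namespace ShiftGraph

open Filter

/-- `Γ` is the random graph: symmetric, with the extension property. -/
structure IsRandom (Γ : ℕ → ℕ → Prop) : Prop where
  symm : ∀ a b, Γ a b → Γ b a
  ext : ∀ U V : Finset ℕ, Disjoint U V → ∃ w, w ∉ U ∧ w ∉ V ∧ (∀ u ∈ U, Γ u w) ∧ ∀ v ∈ V, ¬ Γ v w

/-- `A` is a clique or an anticlique. -/
def Homog (Γ : ℕ → ℕ → Prop) (A : Set ℕ) : Prop :=
  (∀ a ∈ A, ∀ b ∈ A, a ≠ b → Γ a b) ∨ ∀ a ∈ A, ∀ b ∈ A, a ≠ b → ¬ Γ a b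

/-- The finite unions of homogeneous sets. -/
def GI (Γ : ℕ → ℕ → Prop) : Set (Set ℕ) := {A | ∃ (k : ℕ) (c : ℕ → Fin k), ∀ j, Homog Γ {a | a ∈ A ∧ c a = j}}

private theorem Homog_sub {Γ : ℕ → ℕ → Prop} {A B : Set ℕ} (h : Homog Γ B) (hAB : A ⊆ B) : Homog Γ A := by
  rcases h with h | h
  · exact Or.inl fun a ha b hb => h a (hAB ha) b (hAB hb)
  · exact Or.inr fun a ha b hb => h a (hAB ha) b (hAB hb)

theorem GI_ideal (Γ : ℕ → ℕ → Prop) : IsIdeal (GI Γ) := by
  classical
  refine ⟨?_, ?_, ?_⟩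
  · intro A hA
    obtain ⟨N, hN⟩ := hA.bddAbove
    refine ⟨N + 1, fun a => ⟨min a N, by omega⟩, fun j => Or.inl ?_⟩
    rintro a ⟨ha, ha2⟩ b ⟨hb, hb2⟩ hab
    exfalso
    have h1 := hN ha
    have h2 := hN hb
    have h3 := congrArg Fin.val (ha2.trans hb2.symm)
    simp only at h3
    omega
  · rintro A B ⟨k, c, hc⟩ hAB
    exact ⟨k, c, fun j => Homog_sub (hc j) fun a ha => ⟨hAB ha.1, ha.2⟩⟩
  · rintro A B ⟨k, c, hc⟩ ⟨l, d, hd⟩
    refine ⟨k + l, fun a => if a ∈ A then Fin.castAdd l (c a) else Fin.natAdd k (d a), fun j => ?_⟩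
    refine Fin.addCases (fun i => ?_) (fun i => ?_) j
    · refine Homog_sub (hc i) ?_
      rintro a ⟨ha, ha2'⟩
      have ha2 : (if a ∈ A then Fin.castAdd l (c a) else Fin.natAdd k (d a)) = Fin.castAdd l i := ha2'
      by_cases h : a ∈ A
      · rw [if_pos h] at ha2
        exact ⟨h, Fin.castAdd_injective _ _ ha2⟩
      · rw [if_neg h] at ha2
        have h3 := congrArg Fin.val ha2
        simp only [Fin.val_natAdd, Fin.val_castAdd] at h3
        have := i.2
        omega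
    · refine Homog_sub (hd i) ?_
      rintro a ⟨ha, ha2'⟩
      have ha2 : (if a ∈ A then Fin.castAdd l (c a) else Fin.natAdd k (d a)) = Fin.natAdd k i := ha2'
      by_cases h : a ∈ A
      · rw [if_pos h] at ha2
        have h3 := congrArg Fin.val ha2
        simp only [Fin.val_natAdd, Fin.val_castAdd] at h3
        have := (c a).2
        omega
      · rw [if_neg h] at ha2
        exact ⟨ha.resolve_left h, Fin.natAdd_injective _ _ ha2⟩

/-- the sets covered by `k` homogeneous sets -/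
private def Ck (Γ : ℕ → ℕ → Prop) (k : ℕ) (A : Set ℕ) : Prop := ∃ c : ℕ → Fin k, ∀ j, Homog Γ {a | a ∈ A ∧ c a = j}

private theorem Ck_compact (Γ : ℕ → ℕ → Prop) (k : ℕ) (A : Set ℕ) (h : ∀ n, Ck Γ k (A ∩ Set.Iio n)) : Ck Γ k A := by
  classical
  choose c hc using h
  let U : Ultrafilter ℕ := Filter.hyperfilter ℕ
  have hge : ∀ N : ℕ, ∀ᶠ n in (U : Filter ℕ), N ≤ n := by
    intro N
    have h := Filter.hyperfilter_le_cofinite (α := ℕ)
    rw [Nat.cofinite_eq_atTop] at h
    exact h (Filter.eventually_ge_atTop N)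
  have hlim : ∀ a, ∃ j, ∀ᶠ n in (U : Filter ℕ), c n a = j := by
    intro a
    by_contra hcon
    push Not at hcon
    have h1 : ∀ j, ∀ᶠ n in (U : Filter ℕ), c n a ≠ j := hcon
    obtain ⟨n, hn⟩ := (Filter.eventually_all.2 h1).exists
    exact hn _ rfl
  choose d hd using hlim
  refine ⟨d, fun j => ?_⟩
  let Q : ℕ → Prop := fun n => ∀ a ∈ {a | a ∈ A ∩ Set.Iio n ∧ c n a = j}, ∀ b ∈ {a | a ∈ A ∩ Set.Iio n ∧ c n a = j}, a ≠ b → Γ a b
  by_cases hQ : ∀ᶠ n in (U : Filter ℕ), Q n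
  · left
    rintro a ⟨ha, ha2⟩ b ⟨hb, hb2⟩ hab
    obtain ⟨n, ⟨⟨⟨h1, h2⟩, h3⟩, h4⟩⟩ := (((hd a).and (hd b)).and (hge (max a b + 1))).and hQ |>.exists
    exact h4 a ⟨⟨ha, by change a < n; omega⟩, h1.trans ha2⟩ b ⟨⟨hb, by change b < n; omega⟩, h2.trans hb2⟩ hab
  · right
    have hQ' : ∀ᶠ n in (U : Filter ℕ), ¬ Q n := Ultrafilter.eventually_not.2 hQ
    rintro a ⟨ha, ha2⟩ b ⟨hb, hb2⟩ hab
    obtain ⟨n, ⟨⟨⟨h1, h2⟩, h3⟩, h4⟩⟩ := (((hd a).and (hd b)).and (hge (max a b + 1))).and hQ' |>.exists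
    rcases hc n j with h5 | h5
    · exact absurd h5 h4
    · exact h5 a ⟨⟨ha, by change a < n; omega⟩, h1.trans ha2⟩ b ⟨⟨hb, by change b < n; omega⟩, h2.trans hb2⟩ hab

private theorem meas_fin (n : ℕ) (P : Set ℕ → Prop) : MeasurableSet {x : Seq | P (toSet x ∩ Set.Iio n)} := by
  have h1 : {x : Seq | P (toSet x ∩ Set.Iio n)} =
      (fun x : Seq => fun i : Fin n => x.1 i) ⁻¹' {v | P (Set.range v ∩ Set.Iio n)} := by
    ext x
    have h2 : toSet x ∩ Set.Iio n = Set.range (fun i : Fin n => x.1 i) ∩ Set.Iio n := by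
      ext a
      constructor
      · rintro ⟨⟨k, rfl⟩, ha⟩
        exact ⟨⟨⟨k, lt_of_le_of_lt (x.2.id_le k) ha⟩, rfl⟩, ha⟩
      · rintro ⟨⟨k, rfl⟩, ha⟩
        exact ⟨⟨k, rfl⟩, ha⟩
    change P (toSet x ∩ Set.Iio n) ↔ P (Set.range (fun i : Fin n => x.1 i) ∩ Set.Iio n)
    rw [h2]
  rw [h1]
  have hm : Measurable fun x : Seq => fun i : Fin n => x.1 i := measurable_pi_lambda _ fun i => measurable_eval i
  exact hm (Set.to_countable {v : Fin n → ℕ | P (Set.range v ∩ Set.Iio n)}).measurableSet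

theorem GI_measurable (Γ : ℕ → ℕ → Prop) : MeasurableSet (Pos (GI Γ)) := by
  have h1 : Pos (GI Γ) = (⋃ k : ℕ, ⋂ n : ℕ, {x : Seq | Ck Γ k (toSet x ∩ Set.Iio n)})ᶜ := by
    ext x
    unfold Pos GI
    rw [Set.mem_ofPred_eq, Set.mem_compl_iff, Set.mem_iUnion, not_iff_not]
    refine exists_congr fun k => ?_
    rw [Set.mem_iInter]
    constructor
    · rintro ⟨c, hc⟩ n
      exact ⟨c, fun j => Homog_sub (hc j) fun a ha => ⟨ha.1.1, ha.2⟩⟩
    · intro h
      exact Ck_compact Γ k _ h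
  rw [h1]
  exact (MeasurableSet.iUnion fun k => MeasurableSet.iInter fun n => meas_fin n _).compl

/-- every infinite set contains an infinite homogeneous set (Ramsey) -/
private theorem ramsey {Γ : ℕ → ℕ → Prop} (hs : ∀ a b, Γ a b → Γ b a) (x : Seq) :
    ∃ y : Seq, toSet y ⊆ toSet x ∧ Homog Γ (toSet y) := by
  classical
  let U : Ultrafilter ℕ := Filter.hyperfilter ℕ
  have hge : ∀ N : ℕ, ∀ᶠ n in (U : Filter ℕ), N ≤ n := by
    intro N
    have h := Filter.hyperfilter_le_cofinite (α := ℕ)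
    rw [Nat.cofinite_eq_atTop] at h
    exact h (Filter.eventually_ge_atTop N)
  have main : ∀ E : ℕ → ℕ → Prop, (∀ᶠ n in (U : Filter ℕ), ∀ᶠ m in (U : Filter ℕ), E (x.1 n) (x.1 m)) →
      ∃ y : Seq, toSet y ⊆ toSet x ∧ ∀ i j, i < j → E (y.1 i) (y.1 j) := by
    intro E hE
    obtain ⟨g, hg1, hg2⟩ := exists_seq_of_forall_finset_exists
      (fun n => ∀ᶠ m in (U : Filter ℕ), E (x.1 n) (x.1 m)) (fun n m => n < m ∧ E (x.1 n) (x.1 m)) (by
        intro s hs
        have h1 : ∀ᶠ m in (U : Filter ℕ), ∀ n ∈ s, n < m ∧ E (x.1 n) (x.1 m) := by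
          refine (Finset.eventually_all s).2 fun n hn => ?_
          exact (hge (n + 1)).and (hs n hn)
        obtain ⟨m, hm⟩ := (hE.and h1).exists
        exact ⟨m, hm.1, hm.2⟩)
    refine ⟨⟨fun n => x.1 (g n), fun i j hij => x.2 (hg2 i j hij).1⟩, ?_, fun i j hij => (hg2 i j hij).2⟩
    rintro _ ⟨n, rfl⟩
    exact ⟨g n, rfl⟩
  by_cases h : ∀ᶠ n in (U : Filter ℕ), ∀ᶠ m in (U : Filter ℕ), Γ (x.1 n) (x.1 m)
  · obtain ⟨y, hy1, hy2⟩ := main Γ h
    refine ⟨y, hy1, Or.inl ?_⟩
    rintro _ ⟨i, rfl⟩ _ ⟨j, rfl⟩ hij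
    rcases lt_trichotomy i j with h3 | h3 | h3
    · exact hy2 i j h3
    · exact absurd (by rw [h3]) hij
    · exact hs _ _ (hy2 j i h3)
  · have h' : ∀ᶠ n in (U : Filter ℕ), ∀ᶠ m in (U : Filter ℕ), ¬ Γ (x.1 n) (x.1 m) := by
      have h1 : ∀ᶠ n in (U : Filter ℕ), ¬ ∀ᶠ m in (U : Filter ℕ), Γ (x.1 n) (x.1 m) := Ultrafilter.eventually_not.2 h
      exact h1.mono fun n hn => Ultrafilter.eventually_not.2 hn
    obtain ⟨y, hy1, hy2⟩ := main (fun a b => ¬ Γ a b) h'
    refine ⟨y, hy1, Or.inr ?_⟩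
    rintro _ ⟨i, rfl⟩ _ ⟨j, rfl⟩ hij
    rcases lt_trichotomy i j with h3 | h3 | h3
    · exact hy2 i j h3
    · exact absurd (by rw [h3]) hij
    · exact fun h4 => hy2 j i h3 (hs _ _ h4)

theorem GI_no_cube {Γ : ℕ → ℕ → Prop} (hs : ∀ a b, Γ a b → Γ b a) : ¬ Cube (Pos (GI Γ)) := by
  rintro ⟨X, hX⟩
  obtain ⟨y, hy, hh⟩ := ramsey hs X
  refine hX y hy ⟨1, fun _ => 0, fun j => Homog_sub hh fun a ha => ha.1⟩

open Classical in
/-- the embedding of the graph `P` into `Γ` -/
private noncomputable def emb (Γ P : ℕ → ℕ → Prop) : ℕ → ℕ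
  | n => if h : ∃ w, (∀ m : Fin n, emb Γ P m.1 < w) ∧ ∀ m : Fin n, (Γ (emb Γ P m.1) w ↔ P m n) then h.choose else 0
  decreasing_by all_goals exact m.2

private theorem emb_spec {Γ : ℕ → ℕ → Prop} (hΓ : IsRandom Γ) (P : ℕ → ℕ → Prop) (n : ℕ) :
    ∀ m, m < n → emb Γ P m < emb Γ P n ∧ (Γ (emb Γ P m) (emb Γ P n) ↔ P m n) := by
  classical
  induction n using Nat.strong_induction_on with
  | _ n ih =>
    have hinj : ∀ a b, a < n → b < n → emb Γ P a = emb Γ P b → a = b := by
      intro a b ha hb hab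
      rcases lt_trichotomy a b with h | h | h
      · exact absurd hab (ne_of_lt (ih b hb a h).1)
      · exact h
      · exact absurd hab (ne_of_gt (ih a ha b h).1)
    have hex : ∃ w, (∀ m : Fin n, emb Γ P m.1 < w) ∧ ∀ m : Fin n, (Γ (emb Γ P m.1) w ↔ P m n) := by
      let s : Finset ℕ := (Finset.range n).filter fun m => P m n
      let U : Finset ℕ := s.image (emb Γ P)
      let N : ℕ := ∑ m ∈ Finset.range n, emb Γ P m
      let V : Finset ℕ := (Finset.range (N + 1)) \ U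
      obtain ⟨w, hw1, hw2, hw3, hw4⟩ := hΓ.ext U V Finset.disjoint_sdiff
      have hle : ∀ m : Fin n, emb Γ P m.1 ≤ N := fun m =>
        Finset.single_le_sum (f := emb Γ P) (fun _ _ => Nat.zero_le _) (Finset.mem_range.2 m.2)
      have hwN : N < w := by
        by_contra hcon
        exact hw2 (Finset.mem_sdiff.2 ⟨Finset.mem_range.2 (by omega), hw1⟩)
      refine ⟨w, fun m => lt_of_le_of_lt (hle m) hwN, fun m => ?_⟩
      by_cases hP : P m n
      · refine ⟨fun _ => hP, fun _ => hw3 _ ?_⟩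
        exact Finset.mem_image_of_mem _ (Finset.mem_filter.2 ⟨Finset.mem_range.2 m.2, hP⟩)
      · refine ⟨fun h => absurd h (hw4 _ ?_), fun h => absurd h hP⟩
        refine Finset.mem_sdiff.2 ⟨Finset.mem_range.2 (Nat.lt_succ_of_le (hle m)), ?_⟩
        intro h
        obtain ⟨a, ha, ha2⟩ := Finset.mem_image.1 h
        obtain ⟨ha3, ha4⟩ := Finset.mem_filter.1 ha
        rw [hinj a m (Finset.mem_range.1 ha3) m.2 ha2] at ha4
        exact hP ha4
    have hdef : emb Γ P n = hex.choose := by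
      rw [emb, dif_pos hex]
    intro m hm
    rw [hdef]
    exact ⟨hex.choose_spec.1 ⟨m, hm⟩, hex.choose_spec.2 ⟨m, hm⟩⟩

/-- the Schreier set of the first `x 0 + 1` elements -/
private def sch (x : Seq) : Finset ℕ := (Finset.range (x.1 0 + 1)).image x.1

private def code (x : Seq) : ℕ := ∑ i ∈ sch x, 2 ^ i

private def PP (m n : ℕ) : Prop := Disjoint m.bitIndices.toFinset n.bitIndices.toFinset

private theorem PP_code (x y : Seq) : PP (code x) (code y) ↔ Disjoint (sch x) (sch y) := by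
  unfold PP code
  rw [Finset.toFinset_bitIndices_sum_two_pow, Finset.toFinset_bitIndices_sum_two_pow]

private theorem code_lt (x : Seq) : code x < code (S x) := by
  have h1 : code x < 2 ^ (x.1 (x.1 0) + 1) := by
    refine Nat.geomSum_lt le_rfl fun k hk => ?_
    obtain ⟨i, hi, rfl⟩ := Finset.mem_image.1 hk
    exact Nat.lt_succ_of_le (x.2.monotone (Nat.lt_succ_iff.1 (Finset.mem_range.1 hi)))
  have h2 : 2 ^ (x.1 (x.1 1 + 1)) ≤ code (S x) := by
    refine Finset.single_le_sum (f := fun i => 2 ^ i) (fun _ _ => Nat.zero_le _) ?_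
    refine Finset.mem_image.2 ⟨x.1 1, Finset.mem_range.2 (Nat.lt_succ_self _), rfl⟩
  have h3 : x.1 (x.1 0) + 1 ≤ x.1 (x.1 1 + 1) := x.2 (by
    have h4 : x.1 0 < x.1 1 := x.2 Nat.zero_lt_one
    omega)
  exact h1.trans_le ((Nat.pow_le_pow_right (by norm_num) h3).trans h2)

private theorem code_measurable : Measurable code := by
  refine measurable_to_countable' fun v => ?_
  have h1 : code ⁻¹' {v} = ⋃ k : ℕ, {x : Seq | x.1 0 = k} ∩
      (fun x : Seq => fun i : Fin (k + 1) => x.1 i) ⁻¹' {w | ∑ i ∈ Finset.univ.image w, 2 ^ i = v} := by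
    have h2 : ∀ x : Seq, Finset.univ.image (fun i : Fin (x.1 0 + 1) => x.1 i) = sch x := by
      intro x
      ext a
      simp only [sch, Finset.mem_image, Finset.mem_univ, true_and, Finset.mem_range]
      constructor
      · rintro ⟨i, rfl⟩
        exact ⟨i, i.2, rfl⟩
      · rintro ⟨i, hi, rfl⟩
        exact ⟨⟨i, hi⟩, rfl⟩
    ext x
    simp only [Set.mem_iUnion]
    constructor
    · intro hx
      refine ⟨x.1 0, rfl, ?_⟩
      change ∑ i ∈ Finset.univ.image (fun i : Fin (x.1 0 + 1) => x.1 i), 2 ^ i = v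
      rw [h2]
      exact hx
    · rintro ⟨k, hk, hx⟩
      have hk' : x.1 0 = k := hk
      subst hk'
      change ∑ i ∈ sch x, 2 ^ i = v
      rw [← h2]
      exact hx
  rw [h1]
  refine MeasurableSet.iUnion fun k => MeasurableSet.inter ?_ ?_
  · exact measurable_eval 0 (MeasurableSet.singleton k)
  · have hm : Measurable fun x : Seq => fun i : Fin (k + 1) => x.1 i :=
      measurable_pi_lambda _ fun i => measurable_eval i
    exact hm (Set.to_countable {w : Fin (k + 1) → ℕ | ∑ i ∈ Finset.univ.image w, 2 ^ i = v}).measurableSet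

/-- The shift graph has a Borel homomorphism to the positive sets of the random graph ideal. -/
theorem GI_hom {Γ : ℕ → ℕ → Prop} (hΓ : IsRandom Γ) : BorelHom (Pos (GI Γ)) := by
  classical
  let G : ℕ → ℕ := emb Γ PP
  have hG : StrictMono G := strictMono_nat_of_lt_succ fun n => (emb_spec hΓ PP (n + 1) n (Nat.lt_succ_self n)).1
  have hG2 : ∀ m n, m < n → (Γ (G m) (G n) ↔ PP m n) := fun m n h => (emb_spec hΓ PP n m h).2
  have hcode : ∀ (x : Seq), StrictMono fun n => code (S^[n] x) := fun x =>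
    strictMono_nat_of_lt_succ fun n => by
      rw [Function.iterate_succ_apply']
      exact code_lt _
  let f : Seq → Seq := fun x => ⟨fun n => G (code (S^[n] x)), hG.comp (hcode x)⟩
  have hfS : ∀ x, f (S x) = S (f x) := by
    intro x
    refine Subtype.ext (funext fun n => ?_)
    change G (code (S^[n] (S x))) = G (code (S^[n + 1] x))
    rw [Function.iterate_succ_apply]
  refine ⟨f, ?_, ?_, ?_⟩
  · refine Measurable.subtype_mk ?_
    exact measurable_pi_lambda _ fun n =>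
      ((measurable_from_top (f := G)).comp code_measurable).comp (measurable_iter n)
  · intro y hy
    obtain ⟨k, c, hc⟩ := hy
    -- adjacency of the values
    let v : ℕ → ℕ := fun n => G (code (S^[n] y))
    have hv : StrictMono v := hG.comp (hcode y)
    have hadj : ∀ n m, n < m → (Γ (v n) (v m) ↔ n + y.1 n < m) := by
      intro n m hnm
      rw [hG2 _ _ (hcode y hnm), PP_code, Finset.disjoint_left]
      constructor
      · intro h
        by_contra hcon
        refine h (a := y.1 m) ?_ ?_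
        · refine Finset.mem_image.2 ⟨m - n, ?_, ?_⟩
          · rw [Finset.mem_range, iter_apply]
            change m - n < y.1 n + 1
            omega
          · rw [iter_apply, Nat.add_sub_cancel' hnm.le]
        · refine Finset.mem_image.2 ⟨0, Finset.mem_range.2 (Nat.succ_pos _), ?_⟩
          rw [iter_apply]
          rfl
      · intro h a ha hb
        obtain ⟨i, hi, rfl⟩ := Finset.mem_image.1 ha
        obtain ⟨j, hj, hij⟩ := Finset.mem_image.1 hb
        rw [iter_apply, iter_apply] at hij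
        rw [Finset.mem_range, iter_apply] at hi
        have h1 : m + j = n + i := y.2.injective hij
        have h2 : i < y.1 n + 1 := hi
        omega
    have hmem : ∀ n, v n ∈ toSet (f y) := fun n => ⟨n, rfl⟩
    -- the colours of the cliques
    have hev : ∀ j, ∀ᶠ n in atTop, c (v n) = j → ∀ a ∈ {a | a ∈ toSet (f y) ∧ c a = j},
        ∀ b ∈ {a | a ∈ toSet (f y) ∧ c a = j}, a ≠ b → Γ a b := by
      intro j
      rcases hc j with h | h
      · exact Filter.Eventually.of_forall fun n _ => h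
      · by_cases hex : ∃ n0, c (v n0) = j
        · obtain ⟨n0, hn0⟩ := hex
          filter_upwards [Filter.eventually_gt_atTop (n0 + y.1 n0)] with n hn hcn
          exfalso
          have h1 : n0 < n := by omega
          exact h _ ⟨hmem n0, hn0⟩ _ ⟨hmem n, hcn⟩ (ne_of_lt (hv h1)) ((hadj n0 n h1).2 hn)
        · exact Filter.Eventually.of_forall fun n hn => absurd ⟨n, hn⟩ hex
    obtain ⟨N, hN⟩ := Filter.eventually_atTop.1 (Filter.eventually_all.2 hev)
    let n := max N k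
    have hyn : k ≤ y.1 n := (le_max_right N k).trans (y.2.id_le n)
    -- two of `v n, ..., v (n + k)` have the same colour
    obtain ⟨a, b, hab, hcab⟩ : ∃ a b : Fin (k + 1), a ≠ b ∧ c (v (n + a)) = c (v (n + b)) :=
      Fintype.exists_ne_map_eq_of_card_lt (fun a : Fin (k + 1) => c (v (n + a))) (by
        rw [Fintype.card_fin, Fintype.card_fin]
        exact Nat.lt_succ_self k)
    have key : ∀ a b : Fin (k + 1), a < b → c (v (n + a)) = c (v (n + b)) → False := by
      intro a b hab hcab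
      have h1 : n + (a : ℕ) < n + (b : ℕ) := Nat.add_lt_add_left hab n
      have h2 := hN (n + a) (by omega) (c (v (n + a))) rfl _ ⟨hmem _, rfl⟩ _ ⟨hmem (n + b), hcab.symm⟩
        (ne_of_lt (hv h1))
      rw [hadj _ _ h1] at h2
      have h3 : y.1 n ≤ y.1 (n + a) := y.2.monotone (Nat.le_add_right _ _)
      have h4 := b.2
      omega
    rcases lt_or_gt_of_ne hab with h | h
    · exact key a b h hcab
    · exact key b a h hcab.symm
  · intro x y hxy
    rcases hxy with h | h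
    · left
      rw [h, hfS]
    · right
      rw [h, hfS]

end ShiftGraph
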