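import Pool.Agent.Lib.MP_ae662e_lc.Ideal

/-!
# The shift graph: sets whose elements are not selective for some member of a countable family of functions
-/

namespace ShiftGraph

open Filter

/-- The sequence `c (S^n x)` is injective from some index on. -/
def EvInj (c : Seq → ℕ) (x : Seq) : Prop := ∃ N, ∀ m n, N ≤ m → m < n → c (S^[m] x) ≠ c (S^[n] x)

/-- The sequence `c (S^n x)` is constant from some index on. -/
def EvConst (c : Seq → ℕ) (x : Seq) : Prop := ∃ N, ∀ m n, N ≤ m → m < n → c (S^[m] x) = c (S^[n] x)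

/-- the value of `c` occurs again -/
private def rp (c : Seq → ℕ) : Set Seq := {x | ∃ m, c (S^[m + 1] x) = c x}

private theorem rp_measurable {c : Seq → ℕ} (hc : Measurable c) : MeasurableSet (rp c) := by
  have h1 : rp c = ⋃ m : ℕ, {x : Seq | c (S^[m + 1] x) = c x} := by
    ext x
    simp [rp]
  rw [h1]
  exact MeasurableSet.iUnion fun m => measurableSet_eq_fun (hc.comp (measurable_iter (m + 1))) hc

private theorem rp_iter (c : Seq → ℕ) (x : Seq) (n : ℕ) : S^[n] x ∈ rp c ↔ ∃ m, n < m ∧ c (S^[m] x) = c (S^[n] x) := by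
  change (∃ m, c (S^[m + 1] (S^[n] x)) = c (S^[n] x)) ↔ _
  constructor
  · rintro ⟨m, hm⟩
    rw [← Function.iterate_add_apply] at hm
    exact ⟨m + 1 + n, by omega, hm⟩
  · rintro ⟨m, hm, hm2⟩
    refine ⟨m - n - 1, ?_⟩
    have h3 : m - n - 1 + 1 + n = m := by omega
    rw [← Function.iterate_add_apply, h3]
    exact hm2

/-- the splitting sets of `c` -/
private def sp (c : Seq → ℕ) (j : ℕ) : Set Seq := if j = 0 then rp c else {x | c x = j - 1}

private theorem sp_measurable {c : Seq → ℕ} (hc : Measurable c) (j : ℕ) : MeasurableSet (sp c j) := by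
  unfold sp
  split_ifs
  · exact rp_measurable hc
  · exact measurableSet_eq_fun hc measurable_const

private theorem sp_split (c : Seq → ℕ) (x : Seq) (h1 : ¬ EvInj c x) (h2 : ¬ EvConst c x) :
    ∃ j, (∃ᶠ n in atTop, S^[n] x ∈ sp c j) ∧ ∃ᶠ n in atTop, S^[n] x ∉ sp c j := by
  have m0 : ∀ n, S^[n] x ∈ sp c 0 ↔ ∃ m, n < m ∧ c (S^[m] x) = c (S^[n] x) := fun n => rp_iter c x n
  have m1 : ∀ n j, S^[n] x ∈ sp c (j + 1) ↔ c (S^[n] x) = j := by
    intro n j
    have h3 : sp c (j + 1) = {x | c x = j} := by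
      unfold sp
      rw [if_neg (Nat.succ_ne_zero j), Nat.add_sub_cancel]
    rw [h3]
    exact Iff.rfl
  by_cases hc : ∃ j, ∃ᶠ n in atTop, c (S^[n] x) = j
  · obtain ⟨j, hj⟩ := hc
    refine ⟨j + 1, hj.mono fun n hn => (m1 n j).2 hn, ?_⟩
    intro hcon
    simp only [not_not] at hcon
    obtain ⟨N, hN⟩ := Filter.eventually_atTop.1 hcon
    refine h2 ⟨N, fun m n hm hmn => ?_⟩
    rw [(m1 m j).1 (hN m hm), (m1 n j).1 (hN n (by omega))]
  · push Not at hc
    refine ⟨0, ?_, ?_⟩
    · rw [Filter.frequently_atTop]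
      intro N
      unfold EvInj at h1
      push Not at h1
      obtain ⟨m, n, hm, hmn, hne⟩ := h1 N
      exact ⟨m, hm, (m0 m).2 ⟨n, hmn, hne.symm⟩⟩
    · rw [Filter.frequently_atTop]
      intro N
      by_contra hcon
      push Not at hcon
      have h4 := hc (c (S^[N] x))
      rw [Filter.eventually_atTop] at h4
      obtain ⟨M, hM⟩ := h4
      have h5 : ∀ k, ∃ m, N + k ≤ m ∧ c (S^[m] x) = c (S^[N] x) := by
        intro k
        induction k with
        | zero => exact ⟨N, le_rfl, rfl⟩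
        | succ k ih =>
          obtain ⟨m, hm, hm2⟩ := ih
          obtain ⟨m', hm', hm2'⟩ := (m0 m).1 (hcon m (by omega))
          exact ⟨m', by omega, hm2'.trans hm2⟩
      obtain ⟨m, hm, hm2⟩ := h5 M
      exact hM m (by omega) hm2

/-- If every element of `B` is not selective for one of the functions `C i` then there is a Borel colouring with three colours. -/
theorem colour_of_nonselective {B : Set Seq} (C : ℕ → Seq → ℕ) (hC : ∀ i, Measurable (C i))
    (h : ∀ x ∈ B, ∃ i, ¬ EvInj (C i) x ∧ ¬ EvConst (C i) x) : BorelColourable 3 B := by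
  refine colour_of_split (fun j => sp (C j.unpair.1) j.unpair.2) (fun j => sp_measurable (hC _) _) ?_
  intro x hx
  obtain ⟨i, h1, h2⟩ := h x hx
  obtain ⟨j, h3, h4⟩ := sp_split (C i) x h1 h2
  refine ⟨Nat.pair i j, ?_, ?_⟩
  · simp only [Nat.unpair_pair]
    exact h3
  · simp only [Nat.unpair_pair]
    exact h4

/-- The dichotomy for the sets which are hereditary on the selective elements. -/
theorem selective_dichotomy (B : Set Seq) (C : ℕ → Seq → ℕ) (hC : ∀ i, Measurable (C i))
    (h : ∀ x ∈ B, (∀ i, EvInj (C i) x ∨ EvConst (C i) x) → ∀ y, toSet y ⊆ toSet x → y ∈ B) :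
    (Cube B ∧ BorelHom B) ∨ BorelColourable 3 B := by
  by_cases hs : ∃ x ∈ B, ∀ i, EvInj (C i) x ∨ EvConst (C i) x
  · left
    obtain ⟨x, hx, hsel⟩ := hs
    have hc : Cube B := ⟨x, h x hx hsel⟩
    exact ⟨hc, hom_of_cube hc⟩
  · right
    push Not at hs
    exact colour_of_nonselective C hC hs

end ShiftGraph
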