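import Pool.Agent.Lib.MP_ae662e_lc.Words

/-!
# The shift graph: digraphs which are homomorphic to each other
-/

namespace ShiftGraph

open Filter

/-- For some `h, f, g`, `g` increasing: `f` takes the arcs `(a, b)` of `R` with `h a < b` to arcs of `R'` and `g` takes the arcs `(a, b)` of
`R'` with `a < b` to arcs of `R`. -/
def Sim (R R' : ℕ → ℕ → Prop) : Prop :=
  ∃ h f g : ℕ → ℕ, (∀ a b, h a < b → R a b → R' (f a) (f b)) ∧ StrictMono g ∧ ∀ a b, a < b → R' a b → R (g a) (g b)

theorem sim_hom {R R' : ℕ → ℕ → Prop} (h : Sim R R') (hom : BorelHom (Paths R')) : BorelHom (Paths R) := by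
  obtain ⟨_, _, g, _, hg, hgR⟩ := h
  obtain ⟨f, h1, h2, h3⟩ := hom
  let Φ : Seq → Seq := fun v => ⟨fun n => g (v.1 n), hg.comp v.2⟩
  have hΦ : Measurable Φ := by
    refine Measurable.subtype_mk ?_
    refine measurable_pi_lambda _ fun n => ?_
    exact (measurable_from_top (f := g)).comp (measurable_eval n)
  refine ⟨fun x => Φ (f x), hΦ.comp h1, ?_, ?_⟩
  · intro x
    have h4 : ∀ᶠ n in atTop, R' ((f x).1 n) ((f x).1 (n + 1)) := h2 x
    exact h4.mono fun n hn => hgR _ _ ((f x).2 (Nat.lt_succ_self n)) hn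
  · intro x y hxy
    rcases h3 x y hxy with h4 | h4
    · left
      change Φ (f y) = S (Φ (f x))
      rw [h4]
      rfl
    · right
      change Φ (f x) = S (Φ (f y))
      rw [h4]
      rfl

theorem sim_colour {R R' : ℕ → ℕ → Prop} (hR : ∀ a, ¬ R' a a) (h : Sim R R') {k : ℕ} (hc : BorelColourable k (Paths R')) :
    BorelColourable 3 (Paths R) := by
  obtain ⟨h, f, _, hf, _, _⟩ := h
  obtain ⟨D, hD, hsp⟩ := exists_dense_split h
  refine colour_of_letters hR hc (fun x => f (x.1 0)) ((measurable_from_top (f := f)).comp (measurable_eval 0)) D hD ?_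
  intro x hx
  by_cases hs : ∀ᶠ n in atTop, h (x.1 n) < x.1 (n + 1)
  · right
    refine (hs.and (show ∀ᶠ n in atTop, R (x.1 n) (x.1 (n + 1)) from hx)).mono fun n hn => ?_
    rw [iter_apply, iter_apply, Nat.add_zero, Nat.add_zero]
    exact hf _ _ hn.1 hn.2
  · left
    exact hsp x ((Filter.not_eventually.1 hs).mono fun n hn => not_lt.1 hn)

end ShiftGraph
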