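import Pool.Agent.Lib.MP_ae662e_lc.Ideal

/-!
# The shift graph on the positive sets of an analytic P-ideal
-/

namespace ShiftGraph

open Filter Topology
open scoped ENNReal

/-- `φ` is a lower semicontinuous submeasure on `ℕ`. -/
structure IsLsc (φ : Set ℕ → ℝ≥0∞) : Prop where
  empty : φ ∅ = 0
  mono : ∀ A B : Set ℕ, A ⊆ B → φ A ≤ φ B
  sub : ∀ A B : Set ℕ, φ (A ∪ B) ≤ φ A + φ B
  lsc : ∀ A : Set ℕ, φ A = ⨆ n : ℕ, φ (A ∩ Set.Iio n)

/-- The ideal `Exh(φ)`. -/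
def Exh (φ : Set ℕ → ℝ≥0∞) : Set (Set ℕ) := {A | Tendsto (fun n : ℕ => φ (A \ Set.Iio n)) atTop (𝓝 0)}

theorem Exh_ideal {φ : Set ℕ → ℝ≥0∞} (h : IsLsc φ) : IsIdeal (Exh φ) := by
  refine ⟨?_, ?_, ?_⟩
  · intro A hA
    obtain ⟨N, hN⟩ := hA.bddAbove
    have h1 : ∀ᶠ n : ℕ in atTop, φ (A \ Set.Iio n) = 0 := by
      filter_upwards [Filter.eventually_gt_atTop N] with n hn
      have h2 : A \ Set.Iio n = ∅ := by
        ext a
        constructor
        · rintro ⟨ha, ha2⟩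
          exact absurd (lt_of_le_of_lt (hN ha) hn) ha2
        · intro ha
          exact absurd ha (Set.notMem_empty a)
      rw [h2, h.empty]
    exact (tendsto_congr' h1).2 tendsto_const_nhds
  · intro A B hB hAB
    exact tendsto_of_tendsto_of_tendsto_of_le_of_le tendsto_const_nhds hB (fun _ => bot_le)
      fun n => h.mono _ _ fun a ha => ⟨hAB ha.1, ha.2⟩
  · intro A B hA hB
    have h1 : Tendsto (fun n : ℕ => φ (A \ Set.Iio n) + φ (B \ Set.Iio n)) atTop (𝓝 (0 + 0)) :=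
      Tendsto.add hA hB
    rw [add_zero] at h1
    refine tendsto_of_tendsto_of_tendsto_of_le_of_le tendsto_const_nhds h1 (fun _ => bot_le) fun n => ?_
    refine le_trans (h.mono _ _ ?_) (h.sub _ _)
    rintro a ⟨ha | ha, ha2⟩
    · exact Or.inl ⟨ha, ha2⟩
    · exact Or.inr ⟨ha, ha2⟩

private theorem phi_measurable {φ : Set ℕ → ℝ≥0∞} (h : IsLsc φ) (n : ℕ) :
    Measurable fun x : Seq => φ (toSet x \ Set.Iio n) := by
  have h1 : (fun x : Seq => φ (toSet x \ Set.Iio n)) = fun x : Seq => ⨆ m : ℕ, φ ((toSet x \ Set.Iio n) ∩ Set.Iio m) := by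
    funext x
    exact h.lsc _
  rw [h1]
  refine Measurable.iSup fun m => ?_
  let ψ : (Fin m → ℕ) → ℝ≥0∞ := fun v => φ ((Set.range v \ Set.Iio n) ∩ Set.Iio m)
  have h2 : (fun x : Seq => φ ((toSet x \ Set.Iio n) ∩ Set.Iio m)) = fun x : Seq => ψ fun i => x.1 i := by
    funext x
    simp only [ψ]
    congr 1
    ext a
    constructor
    · rintro ⟨⟨⟨k, rfl⟩, ha⟩, ha2⟩
      have hk : k < m := lt_of_le_of_lt (x.2.id_le k) ha2
      exact ⟨⟨⟨⟨k, hk⟩, rfl⟩, ha⟩, ha2⟩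
    · rintro ⟨⟨⟨k, rfl⟩, ha⟩, ha2⟩
      exact ⟨⟨⟨k, rfl⟩, ha⟩, ha2⟩
  rw [h2]
  exact (measurable_of_countable ψ).comp (measurable_pi_lambda _ fun i => measurable_eval i)

theorem Pos_Exh_measurable {φ : Set ℕ → ℝ≥0∞} (h : IsLsc φ) : MeasurableSet (Pos (Exh φ)) := by
  have h1 : MeasurableSet {x : Seq | Tendsto (fun n : ℕ => φ (toSet x \ Set.Iio n)) atTop (𝓝 0)} :=
    measurableSet_tendsto (𝓝 0) fun n => phi_measurable h n
  exact h1.compl

private theorem fin_sub {φ : Set ℕ → ℝ≥0∞} (h : IsLsc φ) (f : ℕ → ℕ) (s : Finset ℕ) :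
    φ (f '' (s : Set ℕ)) ≤ ∑ i ∈ s, φ {f i} := by
  classical
  induction s using Finset.induction_on with
  | empty =>
    rw [Finset.coe_empty, Set.image_empty, h.empty]
    exact bot_le
  | insert a s ha ih =>
    rw [Finset.sum_insert ha, Finset.coe_insert, Set.image_insert_eq, Set.insert_eq]
    exact (h.sub _ _).trans (add_le_add le_rfl ih)

/-- The dichotomy for the positive sets of `Exh(φ)`. -/
theorem Exh_dichotomy {φ : Set ℕ → ℝ≥0∞} (h : IsLsc φ) :
    Cube (Pos (Exh φ)) ∨ BorelColourable 3 (Pos (Exh φ)) := by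
  by_cases ht : Tendsto (fun n : ℕ => φ {n}) atTop (𝓝 0)
  · right
    have h1 : ∀ k : ℕ, ∃ N : ℕ, ∀ n, N ≤ n → φ {n} ≤ (1 / 2 : ℝ≥0∞) ^ k := by
      intro k
      have h2 : (0 : ℝ≥0∞) < (1 / 2 : ℝ≥0∞) ^ k := by
        refine ENNReal.pow_pos ?_ k
        rw [one_div]
        exact ENNReal.inv_pos.2 (by norm_num)
      have h3 := (ENNReal.tendsto_nhds_zero.1 ht) _ h2
      exact Filter.eventually_atTop.1 h3
    choose N hN using h1
    refine colour_of_sparse_split N (fun _ => ∅) ?_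
    intro x hx hsp
    exfalso
    apply hx
    obtain ⟨M0, hM0⟩ := Filter.eventually_atTop.1 hsp
    have h4 : ∀ n, M0 ≤ n → φ {x.1 (n + 1)} ≤ (1 / 2 : ℝ≥0∞) ^ n := by
      intro n hn
      refine (hN (x.1 n) (x.1 (n + 1)) (hM0 n hn).le).trans ?_
      exact pow_le_pow_right_of_le_one' (by
        rw [one_div]
        exact ENNReal.inv_le_one.2 (by norm_num)) (x.2.id_le n)
    have h5 : ∀ M, M0 ≤ M → φ (toSet x \ Set.Iio (x.1 (M + 1))) ≤ (1 / 2 : ℝ≥0∞) ^ M * 2 := by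
      intro M hM
      rw [h.lsc]
      refine iSup_le fun n => ?_
      have h6 : (toSet x \ Set.Iio (x.1 (M + 1))) ∩ Set.Iio n ⊆
          (fun i => x.1 (i + 1)) '' ((Finset.Ico M (M + n) : Finset ℕ) : Set ℕ) := by
        rintro _ ⟨⟨⟨k, rfl⟩, h7⟩, h8⟩
        have h9 : M + 1 ≤ k := by
          by_contra hcon
          exact h7 (x.2 (not_le.1 hcon))
        have h10 : k < n := lt_of_le_of_lt (x.2.id_le k) h8
        refine ⟨k - 1, ?_, ?_⟩
        · rw [Finset.mem_coe, Finset.mem_Ico]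
          omega
        · have h11 : k - 1 + 1 = k := by omega
          change x.1 (k - 1 + 1) = x.1 k
          rw [h11]
      refine (h.mono _ _ h6).trans ((fin_sub h _ _).trans ?_)
      calc ∑ i ∈ Finset.Ico M (M + n), φ {x.1 (i + 1)} ≤ ∑ i ∈ Finset.Ico M (M + n), (1 / 2 : ℝ≥0∞) ^ i :=
            Finset.sum_le_sum fun i hi => h4 i (hM.trans (Finset.mem_Ico.1 hi).1)
        _ = (1 / 2 : ℝ≥0∞) ^ M * ∑ i ∈ Finset.range n, (1 / 2 : ℝ≥0∞) ^ i := by
            rw [Finset.sum_Ico_eq_sum_range, Nat.add_sub_cancel_left, Finset.mul_sum]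
            exact Finset.sum_congr rfl fun i _ => by rw [pow_add]
        _ ≤ (1 / 2 : ℝ≥0∞) ^ M * 2 := by
            refine mul_le_mul_right ?_ _
            refine (ENNReal.sum_le_tsum _).trans ?_
            rw [ENNReal.tsum_geometric, one_div, ENNReal.one_sub_inv_two, inv_inv]
    change Tendsto (fun n : ℕ => φ (toSet x \ Set.Iio n)) atTop (𝓝 0)
    rw [ENNReal.tendsto_nhds_zero]
    intro ε hε
    have h12 : Tendsto (fun M : ℕ => (1 / 2 : ℝ≥0∞) ^ M * 2) atTop (𝓝 (0 * 2)) := by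
      refine ENNReal.Tendsto.mul_const ?_ (Or.inr (by norm_num))
      refine ENNReal.tendsto_pow_atTop_nhds_zero_of_lt_one ?_
      rw [one_div]
      exact ENNReal.inv_lt_one.2 (by norm_num)
    rw [zero_mul] at h12
    obtain ⟨M, hM⟩ := Filter.eventually_atTop.1 ((ENNReal.tendsto_nhds_zero.1 h12) ε hε)
    refine Filter.eventually_atTop.2 ⟨x.1 (max M M0 + 1), fun n hn => ?_⟩
    refine le_trans (h.mono _ (toSet x \ Set.Iio (x.1 (max M M0 + 1))) ?_)
      ((h5 _ (le_max_right _ _)).trans (hM _ (le_max_left _ _)))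
    rintro a ⟨ha, ha2⟩
    exact ⟨ha, fun h13 => ha2 (lt_of_lt_of_le h13 hn)⟩
  · left
    rw [ENNReal.tendsto_nhds_zero] at ht
    push Not at ht
    obtain ⟨ε, hε, hfr⟩ := ht
    obtain ⟨u, hu, hu2⟩ := Filter.extraction_of_frequently_atTop hfr
    refine ⟨⟨u, hu⟩, ?_⟩
    intro y hy htend
    have h1 := (ENNReal.tendsto_nhds_zero.1 htend) ε hε
    obtain ⟨N, hN⟩ := Filter.eventually_atTop.1 h1
    have h2 := hN N le_rfl
    obtain ⟨k, hk⟩ := hy ⟨N, rfl⟩
    have h3 : ε < φ {y.1 N} := by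
      rw [← hk]
      exact hu2 k
    have h4 : φ {y.1 N} ≤ φ (toSet y \ Set.Iio N) := by
      refine h.mono _ _ ?_
      rintro a ha
      rw [Set.mem_singleton_iff] at ha
      subst ha
      exact ⟨⟨N, rfl⟩, fun h5 => absurd (y.2.id_le N) (not_le.2 h5)⟩
    exact absurd (h4.trans h2) (not_le.2 h3)

end ShiftGraph
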