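import Pool.Agent.Lib.MP_ae662e_lc.Rand

/-!
# The shift graph and the graphs with the triangle-free extension property
-/

namespace ShiftGraph

open Filter

/-- `Γ` is symmetric and has the extension property for independent sets `U`. -/
structure IsTF (Γ : ℕ → ℕ → Prop) : Prop where
  symm : ∀ a b, Γ a b → Γ b a
  ext : ∀ U V : Finset ℕ, Disjoint U V → (∀ u ∈ U, ∀ u' ∈ U, u ≠ u' → ¬ Γ u u') →
    ∃ w, w ∉ U ∧ w ∉ V ∧ (∀ u ∈ U, Γ u w) ∧ ∀ v ∈ V, ¬ Γ v w

theorem IsRandom.isTF {Γ : ℕ → ℕ → Prop} (h : IsRandom Γ) : IsTF Γ := ⟨h.symm, fun U V hUV _ => h.ext U V hUV⟩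

/-- the differences: `10 ^ k + 10 ^ j - 2 * 10 ^ i`, `i < j < k` -/
private def DD (d : ℕ) : Prop := ∃ i j k, i < j ∧ j < k ∧ d + 2 * 10 ^ i = 10 ^ k + 10 ^ j

private theorem pw_le {u v : ℕ} (h : u < v) : 10 * 10 ^ u ≤ 10 ^ v := by
  calc 10 * 10 ^ u = 10 ^ (u + 1) := by ring
    _ ≤ 10 ^ v := Nat.pow_le_pow_right (by norm_num) h

private theorem one_le (n : ℕ) : 1 ≤ 10 ^ n := Nat.one_le_pow _ _ (by norm_num)

private theorem cmp (u v : ℕ) : 10 ^ u = 10 ^ v ∨ 10 * 10 ^ u ≤ 10 ^ v ∨ 10 * 10 ^ v ≤ 10 ^ u := by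
  rcases lt_trichotomy u v with h | h | h
  · exact Or.inr (Or.inl (pw_le h))
  · exact Or.inl (by rw [h])
  · exact Or.inr (Or.inr (pw_le h))

private theorem noSol {A B C A' B' C' A'' B'' C'' : ℕ} (p : 1 ≤ A) (p' : 1 ≤ A') (p'' : 1 ≤ A'')
    (h1 : 10 * A ≤ B) (h2 : 10 * B ≤ C) (h1' : 10 * A' ≤ B') (h2' : 10 * B' ≤ C') (h1'' : 10 * A'' ≤ B'') (h2'' : 10 * B'' ≤ C'')
    (c1 : C = C' ∨ 10 * C' ≤ C) (c2 : C = C'' ∨ 10 * C ≤ C'' ∨ 10 * C'' ≤ C) (c3 : B = C' ∨ 10 * B ≤ C' ∨ 10 * C' ≤ B)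
    (c4 : B'' = B ∨ 10 * B'' ≤ B ∨ 10 * B ≤ B'') (c5 : B'' = C' ∨ 10 * B'' ≤ C' ∨ 10 * C' ≤ B'')
    (c6 : A = C' ∨ 10 * A ≤ C' ∨ 10 * C' ≤ A) (c7 : A = A'' ∨ 10 * A ≤ A'' ∨ 10 * A'' ≤ A)
    (e : C + B + C' + B' + 2 * A'' = C'' + B'' + 2 * A + 2 * A') : False := by
  rcases c1 with c1 | c1
  · rcases c2 with c2 | c2 | c2 <;> omega
  · rcases c2 with c2 | c2 | c2
    · rcases c3 with c3 | c3 | c3
      · rcases c4 with c4 | c4 | c4 <;> omega
      · rcases c5 with c5 | c5 | c5 <;> omega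
      · rcases c4 with c4 | c4 | c4
        · rcases c6 with c6 | c6 | c6
          · rcases c7 with c7 | c7 | c7 <;> omega
          · omega
          · rcases c7 with c7 | c7 | c7 <;> omega
        · omega
        · omega
    · omega
    · omega

private theorem DD_sumfree {a b : ℕ} (ha : DD a) (hb : DD b) (hab : DD (a + b)) : False := by
  obtain ⟨i, j, k, h1, h2, h⟩ := ha
  obtain ⟨i', j', k', h1', h2', h'⟩ := hb
  obtain ⟨i'', j'', k'', h1'', h2'', h''⟩ := hab
  rcases le_total k' k with hk | hk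
  · refine noSol (A := 10 ^ i) (B := 10 ^ j) (C := 10 ^ k) (A' := 10 ^ i') (B' := 10 ^ j') (C' := 10 ^ k') (A'' := 10 ^ i'')
      (B'' := 10 ^ j'') (C'' := 10 ^ k'') (one_le _) (one_le _) (one_le _) (pw_le h1) (pw_le h2) (pw_le h1')
      (pw_le h2') (pw_le h1'') (pw_le h2'') ?_ (cmp _ _) (cmp _ _) (cmp _ _) (cmp _ _) (cmp _ _) (cmp _ _) (by omega)
    rcases hk.lt_or_eq with hk | hk
    · exact Or.inr (pw_le hk)
    · exact Or.inl (by rw [hk])
  · refine noSol (A := 10 ^ i') (B := 10 ^ j') (C := 10 ^ k') (A' := 10 ^ i) (B' := 10 ^ j) (C' := 10 ^ k) (A'' := 10 ^ i'')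
      (B'' := 10 ^ j'') (C'' := 10 ^ k'') (one_le _) (one_le _) (one_le _) (pw_le h1') (pw_le h2') (pw_le h1)
      (pw_le h2) (pw_le h1'') (pw_le h2'') ?_ (cmp _ _) (cmp _ _) (cmp _ _) (cmp _ _) (cmp _ _) (cmp _ _) (by omega)
    rcases hk.lt_or_eq with hk | hk
    · exact Or.inr (pw_le hk)
    · exact Or.inl (by rw [hk])

/-- every colouring with `r` colours has a monochromatic pair whose difference is in the set -/
private theorem DD_mono (r : ℕ) : ∃ L, ∀ c : ℕ → Fin r, ∃ a b, a < b ∧ b ≤ L ∧ DD (b - a) ∧ c a = c b := by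
  classical
  refine ⟨10 ^ (2 ^ r + 1) + 2 * 10 ^ (2 ^ r + 1), fun c => ?_⟩
  let p : ℕ → ℕ → ℕ := fun i j => 10 ^ j + 2 * 10 ^ i
  let T : Fin (2 ^ r + 1) → Finset (Fin r) := fun j => (Finset.Ioc j.1 (2 ^ r + 1)).image fun k => c (p j.1 k)
  obtain ⟨i, j, hij, hT⟩ : ∃ i j : Fin (2 ^ r + 1), i ≠ j ∧ T i = T j :=
    Fintype.exists_ne_map_eq_of_card_lt T (by
      rw [Fintype.card_finset, Fintype.card_fin, Fintype.card_fin]
      exact Nat.lt_succ_self _)
  have key : ∀ i j : Fin (2 ^ r + 1), i < j → T i = T j → ∃ a b, a < b ∧ b ≤ 10 ^ (2 ^ r + 1) + 2 * 10 ^ (2 ^ r + 1) ∧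
      DD (b - a) ∧ c a = c b := by
    intro i j hij hT
    have h1 : c (p i.1 j.1) ∈ T i := Finset.mem_image.2 ⟨j.1, Finset.mem_Ioc.2 ⟨hij, j.2.le⟩, rfl⟩
    rw [hT] at h1
    obtain ⟨k, hk, h2⟩ := Finset.mem_image.1 h1
    obtain ⟨hk1, hk2⟩ := Finset.mem_Ioc.1 hk
    have h3 : 10 * 10 ^ i.1 ≤ 10 ^ j.1 := pw_le hij
    have h4 : 10 * 10 ^ j.1 ≤ 10 ^ k := pw_le hk1
    have h5 : 10 ^ k ≤ 10 ^ (2 ^ r + 1) := Nat.pow_le_pow_right (by norm_num) hk2
    have h6 := one_le i.1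
    refine ⟨p i.1 j.1, p j.1 k, ?_, ?_, ⟨i.1, j.1, k, hij, hk1, ?_⟩, h2.symm⟩
    · change 10 ^ j.1 + 2 * 10 ^ i.1 < 10 ^ k + 2 * 10 ^ j.1
      omega
    · change 10 ^ k + 2 * 10 ^ j.1 ≤ _
      omega
    · change 10 ^ k + 2 * 10 ^ j.1 - (10 ^ j.1 + 2 * 10 ^ i.1) + 2 * 10 ^ i.1 = _
      omega
  rcases lt_or_gt_of_ne hij with h | h
  · exact key i j h hT
  · exact key j i h hT.symm

open Classical in
/-- the embedding of the graph `P` into `Γ` -/
private noncomputable def embT (Γ P : ℕ → ℕ → Prop) : ℕ → ℕ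
  | n => if h : ∃ w, (∀ m : Fin n, embT Γ P m.1 < w) ∧ ∀ m : Fin n, (Γ (embT Γ P m.1) w ↔ P m n) then h.choose else 0
  decreasing_by all_goals exact m.2

private theorem embT_spec {Γ : ℕ → ℕ → Prop} (hΓ : IsTF Γ) {P : ℕ → ℕ → Prop}
    (hP : ∀ a b c, a < b → b < c → P a c → P b c → ¬ P a b) (n : ℕ) :
    ∀ m, m < n → embT Γ P m < embT Γ P n ∧ (Γ (embT Γ P m) (embT Γ P n) ↔ P m n) := by
  classical
  induction n using Nat.strong_induction_on with
  | _ n ih =>
    have hinj : ∀ a b, a < n → b < n → embT Γ P a = embT Γ P b → a = b := by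
      intro a b ha hb hab
      rcases lt_trichotomy a b with h | h | h
      · exact absurd hab (ne_of_lt (ih b hb a h).1)
      · exact h
      · exact absurd hab (ne_of_gt (ih a ha b h).1)
    have hex : ∃ w, (∀ m : Fin n, embT Γ P m.1 < w) ∧ ∀ m : Fin n, (Γ (embT Γ P m.1) w ↔ P m n) := by
      let s : Finset ℕ := (Finset.range n).filter fun m => P m n
      let U : Finset ℕ := s.image (embT Γ P)
      let N : ℕ := ∑ m ∈ Finset.range n, embT Γ P m
      let V : Finset ℕ := (Finset.range (N + 1)) \ U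
      have hU : ∀ u ∈ U, ∀ u' ∈ U, u ≠ u' → ¬ Γ u u' := by
        intro u hu u' hu' hne
        obtain ⟨a, ha, rfl⟩ := Finset.mem_image.1 hu
        obtain ⟨b, hb, rfl⟩ := Finset.mem_image.1 hu'
        obtain ⟨ha1, ha2⟩ := Finset.mem_filter.1 ha
        obtain ⟨hb1, hb2⟩ := Finset.mem_filter.1 hb
        rw [Finset.mem_range] at ha1 hb1
        rcases lt_trichotomy a b with h | h | h
        · rw [(ih b hb1 a h).2]
          exact hP a b n h hb1 ha2 hb2
        · exact absurd (by rw [h]) hne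
        · intro h3
          exact hP b a n h ha1 hb2 ha2 ((ih a ha1 b h).2.1 (hΓ.symm _ _ h3))
      obtain ⟨w, hw1, hw2, hw3, hw4⟩ := hΓ.ext U V Finset.disjoint_sdiff hU
      have hle : ∀ m : Fin n, embT Γ P m.1 ≤ N := fun m =>
        Finset.single_le_sum (f := embT Γ P) (fun _ _ => Nat.zero_le _) (Finset.mem_range.2 m.2)
      have hwN : N < w := by
        by_contra hcon
        exact hw2 (Finset.mem_sdiff.2 ⟨Finset.mem_range.2 (by omega), hw1⟩)
      refine ⟨w, fun m => lt_of_le_of_lt (hle m) hwN, fun m => ?_⟩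
      by_cases hP : P m n
      · refine ⟨fun _ => hP, fun _ => hw3 _ ?_⟩
        exact Finset.mem_image_of_mem _ (Finset.mem_filter.2 ⟨Finset.mem_range.2 m.2, hP⟩)
      · refine ⟨fun h => absurd h (hw4 _ ?_), fun h => absurd h hP⟩
        refine Finset.mem_sdiff.2 ⟨Finset.mem_range.2 (Nat.lt_succ_of_le (hle m)), ?_⟩
        intro h
        obtain ⟨a, ha, ha2⟩ := Finset.mem_image.1 h
        obtain ⟨ha3, ha4⟩ := Finset.mem_filter.1 ha
        rw [hinj a m (Finset.mem_range.1 ha3) m.2 ha2] at ha4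
        exact hP ha4
    have hdef : embT Γ P n = hex.choose := by
      rw [embT, dif_pos hex]
    intro m hm
    rw [hdef]
    exact ⟨hex.choose_spec.1 ⟨m, hm⟩, hex.choose_spec.2 ⟨m, hm⟩⟩

/-- the Schreier set of the first `x 0 + 1` elements -/
private def schT (x : Seq) : Finset ℕ := (Finset.range (x.1 0 + 1)).image x.1

private def codeT (x : Seq) : ℕ := ∑ i ∈ schT x, 2 ^ i

private theorem codeT_inj {x y : Seq} (h : codeT x = codeT y) : x.1 0 = y.1 0 ∧ ∀ i, i ≤ x.1 0 → x.1 i = y.1 i := by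
  have h1 : schT x = schT y := by
    have h2 := congrArg (fun n : ℕ => n.bitIndices.toFinset) h
    simp only [codeT, Finset.toFinset_bitIndices_sum_two_pow] at h2
    exact h2
  have hc : x.1 0 = y.1 0 := by
    have h2 := congrArg Finset.card h1
    unfold schT at h2
    rw [Finset.card_image_of_injective _ x.2.injective, Finset.card_image_of_injective _ y.2.injective, Finset.card_range,
      Finset.card_range] at h2
    omega
  refine ⟨hc, ?_⟩
  intro i
  induction i using Nat.strong_induction_on with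
  | _ i ih =>
    intro hi
    have hx : x.1 i ∈ schT y := h1 ▸ Finset.mem_image.2 ⟨i, Finset.mem_range.2 (by omega), rfl⟩
    have hy : y.1 i ∈ schT x := h1 ▸ Finset.mem_image.2 ⟨i, Finset.mem_range.2 (by omega), rfl⟩
    obtain ⟨a, ha, ha2⟩ := Finset.mem_image.1 hx
    obtain ⟨b, hb, hb2⟩ := Finset.mem_image.1 hy
    rw [Finset.mem_range] at ha hb
    have hai : i ≤ a := by
      by_contra hcon
      have h3 := ih a (not_le.1 hcon) (by omega)
      rw [ha2] at h3
      have := x.2.injective h3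
      omega
    have hbi : i ≤ b := by
      by_contra hcon
      have h3 := ih b (not_le.1 hcon) (by omega)
      rw [hb2] at h3
      have := y.2.injective h3
      omega
    have h3 : y.1 i ≤ y.1 a := y.2.monotone hai
    have h4 : x.1 i ≤ x.1 b := x.2.monotone hbi
    omega

/-- `n` is the code of the Schreier set which starts at the `k`-th element of the one coded by `m`, `k` in the set of the differences -/
private def PT (m n : ℕ) : Prop := ∃ (x : Seq) (k : ℕ), DD k ∧ k ≤ x.1 0 ∧ m = codeT x ∧ n = codeT (S^[k] x)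

private theorem PT_free (a b c : ℕ) (hac : PT a c) (hbc : PT b c) : ¬ PT a b := by
  rintro ⟨x, k, hk, hkx, rfl, rfl⟩
  obtain ⟨y, l, hl, hly, hyx, hc⟩ := hbc
  obtain ⟨z, m, hm, hmz, hzx, hc'⟩ := hac
  obtain ⟨h1, h2⟩ := codeT_inj hyx
  obtain ⟨h3, h4⟩ := codeT_inj hzx
  obtain ⟨h5, -⟩ := codeT_inj (hc.symm.trans hc')
  rw [iter_apply, Nat.add_zero] at h1
  rw [iter_apply, iter_apply, Nat.add_zero, Nat.add_zero] at h5
  have h6 := h2 l (by rw [iter_apply, Nat.add_zero]; omega)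
  rw [iter_apply] at h6
  have h7 := h4 m (by omega)
  have h8 : k + l = m := x.2.injective (by omega)
  rw [← h8] at hm
  exact DD_sumfree hk hl hm

private theorem PT_iter (x : Seq) {n m : ℕ} (hnm : n < m) :
    PT (codeT (S^[n] x)) (codeT (S^[m] x)) ↔ DD (m - n) ∧ m - n ≤ x.1 n := by
  constructor
  · rintro ⟨y, k, hk, hky, h1, h2⟩
    obtain ⟨h3, h4⟩ := codeT_inj h1
    obtain ⟨h5, -⟩ := codeT_inj h2
    rw [iter_apply, Nat.add_zero] at h3
    rw [iter_apply, iter_apply, Nat.add_zero, Nat.add_zero] at h5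
    have h6 := h4 k (by rw [iter_apply, Nat.add_zero]; omega)
    rw [iter_apply] at h6
    have h7 : n + k = m := x.2.injective (by omega)
    rw [← h7, Nat.add_sub_cancel_left]
    exact ⟨hk, by omega⟩
  · rintro ⟨h1, h2⟩
    refine ⟨S^[n] x, m - n, h1, ?_, rfl, ?_⟩
    · rw [iter_apply, Nat.add_zero]
      exact h2
    · rw [← Function.iterate_add_apply, Nat.sub_add_cancel hnm.le]

private theorem codeT_lt (x : Seq) : codeT x < codeT (S x) := by
  have h1 : codeT x < 2 ^ (x.1 (x.1 0) + 1) := by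
    refine Nat.geomSum_lt le_rfl fun k hk => ?_
    obtain ⟨i, hi, rfl⟩ := Finset.mem_image.1 hk
    exact Nat.lt_succ_of_le (x.2.monotone (Nat.lt_succ_iff.1 (Finset.mem_range.1 hi)))
  have h2 : 2 ^ (x.1 (x.1 1 + 1)) ≤ codeT (S x) := by
    refine Finset.single_le_sum (f := fun i => 2 ^ i) (fun _ _ => Nat.zero_le _) ?_
    refine Finset.mem_image.2 ⟨x.1 1, Finset.mem_range.2 (Nat.lt_succ_self _), rfl⟩
  have h3 : x.1 (x.1 0) + 1 ≤ x.1 (x.1 1 + 1) := x.2 (by
    have h4 : x.1 0 < x.1 1 := x.2 Nat.zero_lt_one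
    omega)
  exact h1.trans_le ((Nat.pow_le_pow_right (by norm_num) h3).trans h2)

private theorem codeT_measurable : Measurable codeT := by
  refine measurable_to_countable' fun v => ?_
  have h1 : codeT ⁻¹' {v} = ⋃ k : ℕ, {x : Seq | x.1 0 = k} ∩
      (fun x : Seq => fun i : Fin (k + 1) => x.1 i) ⁻¹' {w | ∑ i ∈ Finset.univ.image w, 2 ^ i = v} := by
    have h2 : ∀ x : Seq, Finset.univ.image (fun i : Fin (x.1 0 + 1) => x.1 i) = schT x := by
      intro x
      ext a
      simp only [schT, Finset.mem_image, Finset.mem_univ, true_and, Finset.mem_range]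
      constructor
      · rintro ⟨i, rfl⟩
        exact ⟨i, i.2, rfl⟩
      · rintro ⟨i, hi, rfl⟩
        exact ⟨⟨i, hi⟩, rfl⟩
    ext x
    simp only [Set.mem_iUnion]
    constructor
    · intro hx
      refine ⟨x.1 0, rfl, ?_⟩
      change ∑ i ∈ Finset.univ.image (fun i : Fin (x.1 0 + 1) => x.1 i), 2 ^ i = v
      rw [h2]
      exact hx
    · rintro ⟨k, hk, hx⟩
      have hk' : x.1 0 = k := hk
      subst hk'
      change ∑ i ∈ schT x, 2 ^ i = v
      rw [← h2]
      exact hx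
  rw [h1]
  refine MeasurableSet.iUnion fun k => MeasurableSet.inter ?_ ?_
  · exact measurable_eval 0 (MeasurableSet.singleton k)
  · have hm : Measurable fun x : Seq => fun i : Fin (k + 1) => x.1 i :=
      measurable_pi_lambda _ fun i => measurable_eval i
    exact hm (Set.to_countable {w : Fin (k + 1) → ℕ | ∑ i ∈ Finset.univ.image w, 2 ^ i = v}).measurableSet

/-- The shift graph has a Borel homomorphism to the positive sets of the ideal of `Γ`. -/
theorem TF_hom {Γ : ℕ → ℕ → Prop} (hΓ : IsTF Γ) : BorelHom (Pos (GI Γ)) := by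
  classical
  let G : ℕ → ℕ := embT Γ PT
  have hsp := fun n => embT_spec hΓ (P := PT) (fun a b c _ _ hac hbc => PT_free a b c hac hbc) n
  have hG : StrictMono G := strictMono_nat_of_lt_succ fun n => (hsp (n + 1) n (Nat.lt_succ_self n)).1
  have hG2 : ∀ m n, m < n → (Γ (G m) (G n) ↔ PT m n) := fun m n h => (hsp n m h).2
  have hcode : ∀ (x : Seq), StrictMono fun n => codeT (S^[n] x) := fun x =>
    strictMono_nat_of_lt_succ fun n => by
      rw [Function.iterate_succ_apply']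
      exact codeT_lt _
  let f : Seq → Seq := fun x => ⟨fun n => G (codeT (S^[n] x)), hG.comp (hcode x)⟩
  have hfS : ∀ x, f (S x) = S (f x) := by
    intro x
    refine Subtype.ext (funext fun n => ?_)
    change G (codeT (S^[n] (S x))) = G (codeT (S^[n + 1] x))
    rw [Function.iterate_succ_apply]
  refine ⟨f, ?_, ?_, ?_⟩
  · refine Measurable.subtype_mk ?_
    exact measurable_pi_lambda _ fun n =>
      ((measurable_from_top (f := G)).comp codeT_measurable).comp (measurable_iter n)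
  · intro y hy
    obtain ⟨k, c, hc⟩ := hy
    let v : ℕ → ℕ := fun n => G (codeT (S^[n] y))
    have hv : StrictMono v := hG.comp (hcode y)
    have hadj : ∀ n m, n < m → (Γ (v n) (v m) ↔ DD (m - n) ∧ m - n ≤ y.1 n) := fun n m hnm => by
      rw [hG2 _ _ (hcode y hnm), PT_iter y hnm]
    have hmem : ∀ n, v n ∈ toSet (f y) := fun n => ⟨n, rfl⟩
    -- finally all colour classes are independent
    have hev : ∀ j, ∀ᶠ n in atTop, c (v n) = j → ∀ a ∈ {a | a ∈ toSet (f y) ∧ c a = j},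
        ∀ b ∈ {a | a ∈ toSet (f y) ∧ c a = j}, a ≠ b → ¬ Γ a b := by
      intro j
      rcases hc j with h | h
      · by_cases hex : ∃ n0, c (v n0) = j
        · obtain ⟨n0, hn0⟩ := hex
          filter_upwards [Filter.eventually_gt_atTop (n0 + y.1 n0)] with n hn hcn
          exfalso
          have h1 : n0 < n := by omega
          have h2 := (hadj n0 n h1).1 (h _ ⟨hmem n0, hn0⟩ _ ⟨hmem n, hcn⟩ (ne_of_lt (hv h1)))
          omega
        · exact Filter.Eventually.of_forall fun n hn => absurd ⟨n, hn⟩ hex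
      · exact Filter.Eventually.of_forall fun n _ => h
    obtain ⟨N, hN⟩ := Filter.eventually_atTop.1 (Filter.eventually_all.2 hev)
    obtain ⟨L, hL⟩ := DD_mono k
    let n := max N L
    have hyn : L ≤ y.1 n := (le_max_right N L).trans (y.2.id_le n)
    obtain ⟨a, b, hab, hbL, hD, hcab⟩ := hL fun t => c (v (n + t))
    have h1 : n + a < n + b := Nat.add_lt_add_left hab n
    have h2 := hN (n + a) (by omega) (c (v (n + a))) rfl _ ⟨hmem _, rfl⟩ _ ⟨hmem (n + b), hcab.symm⟩ (ne_of_lt (hv h1))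
    rw [hadj _ _ h1] at h2
    have h3 : y.1 n ≤ y.1 (n + a) := y.2.monotone (Nat.le_add_right _ _)
    refine h2 ⟨?_, by omega⟩
    rw [Nat.add_sub_add_left]
    exact hD
  · intro x y hxy
    rcases hxy with h | h
    · left
      rw [h, hfS]
    · right
      rw [h, hfS]

end ShiftGraph
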