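import Pool.Agent.Lib.MP_ae662e_lc.Bar
import Pool.Agent.Lib.MP_ae662e_lc.Flat
import Pool.Agent.Lib.MP_ae662e_lc.Hf
import Pool.Agent.Lib.MP_ae662e_lc.Loc

/-!
# The shift graph: tame digraphs
-/

namespace ShiftGraph

open Filter

/-- The smallest class of digraphs which contains the flat digraphs and is closed under unions in which every path has infinitely many
arcs in one of the parts, line digraphs over barriers and, for a digraph without loops, the digraphs of words and of hereditarily finite sets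
over it and all `R` with `Loc R R'`. -/
inductive Tame : (ℕ → ℕ → Prop) → Prop
  | flat (R : ℕ → ℕ → Prop) : Flat R → Tame R
  | iUnion (R : ℕ → ℕ → Prop) (P : ℕ → ℕ → ℕ → Prop) : (∀ i a b, P i a b → R a b) →
      (∀ x ∈ Paths R, ∃ i, ∃ᶠ n in atTop, P i (x.1 n) (x.1 (n + 1))) → (∀ i, Tame (P i)) → Tame R
  | line (F : Set (Finset ℕ)) (R : ℕ → ℕ → Prop) : IsBarrier F → Tame R → Tame (LineF F R)
  | words (R : ℕ → ℕ → Prop) : (∀ a, ¬ R a a) → Tame R → Tame (Words R)
  | hf (R : ℕ → ℕ → Prop) : (∀ a, ¬ R a a) → Tame R → Tame (HF R)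
  | loc (R R' : ℕ → ℕ → Prop) : (∀ a, ¬ R' a a) → Loc R R' → Tame R' → Tame R

theorem iUnion_dichotomy {R : ℕ → ℕ → Prop} (P : ℕ → ℕ → ℕ → Prop) (hP : ∀ i a b, P i a b → R a b)
    (hx : ∀ x ∈ Paths R, ∃ i, ∃ᶠ n in atTop, P i (x.1 n) (x.1 (n + 1)))
    (h : ∀ i, BorelHom (Paths (P i)) ∨ BorelColourable 3 (Paths (P i))) :
    BorelHom (Paths R) ∨ BorelColourable 3 (Paths R) := by
  classical
  by_cases hhom : ∃ i, BorelHom (Paths (P i))
  · left
    obtain ⟨i, hi⟩ := hhom
    exact hi.mono fun x hx => hx.mono fun n hn => hP i _ _ hn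
  right
  push Not at hhom
  refine colour_of_pieces (fun i => Paths (P i)) (fun i => Paths_measurable _) (fun i => Paths_inv _) 3
    (fun i => (h i).resolve_left (hhom i)) (fun i => {x | P i (x.1 0) (x.1 1)}) (fun i => ?_) ?_
  · have h1 : Measurable fun x : Seq => (x.1 0, x.1 1) := (measurable_eval 0).prodMk (measurable_eval 1)
    exact h1 (MeasurableSet.of_discrete (s := {p : ℕ × ℕ | P i p.1 p.2}))
  · intro x hxR
    obtain ⟨i, hi⟩ := hx x hxR
    have hm : ∀ n, S^[n] x ∈ {x : Seq | P i (x.1 0) (x.1 1)} ↔ P i (x.1 n) (x.1 (n + 1)) := by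
      intro n
      change P i ((S^[n] x).1 0) ((S^[n] x).1 1) ↔ _
      rw [iter_apply, iter_apply, Nat.add_zero]
    by_cases h2 : ∀ᶠ n in atTop, P i (x.1 n) (x.1 (n + 1))
    · exact Or.inl ⟨i, h2⟩
    · exact Or.inr ⟨i, hi.mono fun n hn => (hm n).2 hn, (Filter.not_eventually.1 h2).mono fun n hn h3 => hn ((hm n).1 h3)⟩

theorem Tame.rich (R : ℕ → ℕ → Prop) (h : Rich R) : Tame R := Tame.flat R (flat_of_rich h)

theorem Tame.finChrom (R : ℕ → ℕ → Prop) (h : FinChrom R) : Tame R := Tame.flat R (flat_of_finChrom h)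

theorem Tame.sim (R R' : ℕ → ℕ → Prop) (hR : ∀ a, ¬ R' a a) (h : Sim R R') (ht : Tame R') : Tame R := Tame.loc R R' hR h.loc ht

/-- Finite unions. -/
theorem Tame.union (R R' : ℕ → ℕ → Prop) (h : Tame R) (h' : Tame R') : Tame fun a b => R a b ∨ R' a b := by
  refine Tame.iUnion _ (fun i => if i = 0 then R else R') ?_ ?_ ?_
  · intro i a b hab
    by_cases hi : i = 0
    · rw [if_pos hi] at hab
      exact Or.inl hab
    · rw [if_neg hi] at hab
      exact Or.inr hab
  · intro x hx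
    by_cases h1 : ∃ᶠ n in atTop, R (x.1 n) (x.1 (n + 1))
    · exact ⟨0, by rw [if_pos rfl]; exact h1⟩
    · refine ⟨1, ?_⟩
      rw [if_neg Nat.one_ne_zero]
      have h2 : ∀ᶠ n in atTop, R (x.1 n) (x.1 (n + 1)) ∨ R' (x.1 n) (x.1 (n + 1)) := hx
      exact ((Filter.not_frequently.1 h1).and h2 |>.mono fun n hn => hn.2.resolve_left hn.1).frequently
  · intro i
    by_cases hi : i = 0
    · rw [if_pos hi]
      exact h
    · rw [if_neg hi]
      exact h'

/-- Sums: `c` is not increasing along the arcs and the restrictions to the fibres of `c` are tame. -/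
theorem Tame.sum (R : ℕ → ℕ → Prop) (c : ℕ → Ordinal.{0}) (hc : ∀ a b, R a b → c b ≤ c a)
    (h : ∀ i, Tame fun a b => (c a = i ∧ c b = i) ∧ R a b) : Tame R := by
  refine Tame.iUnion R (fun v a b => (c a = c v ∧ c b = c v) ∧ R a b) (fun _ _ _ hab => hab.2) ?_ fun v => h (c v)
  intro x hx
  obtain ⟨N, hN⟩ := Filter.eventually_atTop.1 (show ∀ᶠ n in atTop, R (x.1 n) (x.1 (n + 1)) from hx)
  have hanti : ∀ i, c (x.1 (N + (i + 1))) ≤ c (x.1 (N + i)) := fun i => hc _ _ (hN (N + i) (by omega))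
  have hne : (Set.range fun i => c (x.1 (N + i))).Nonempty := ⟨_, 0, rfl⟩
  obtain ⟨i0, hi0⟩ := csInf_mem hne
  have hi0' : c (x.1 (N + i0)) = sInf (Set.range fun i => c (x.1 (N + i))) := hi0
  have hmin : ∀ i, c (x.1 (N + i0)) ≤ c (x.1 (N + i)) := fun i => by
    rw [hi0']
    exact csInf_le' ⟨i, rfl⟩
  have hconst : ∀ j, c (x.1 (N + (i0 + j))) = c (x.1 (N + i0)) := by
    intro j
    induction j with
    | zero => rfl
    | succ j ih =>
      refine le_antisymm ?_ (hmin _)
      rw [← ih]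
      exact hanti (i0 + j)
  have hconst' : ∀ n, N + i0 ≤ n → c (x.1 n) = c (x.1 (N + i0)) := by
    intro n hn
    have h1 := hconst (n - (N + i0))
    rw [show N + (i0 + (n - (N + i0))) = n by omega] at h1
    exact h1
  refine ⟨x.1 (N + i0), (Filter.eventually_atTop.2 ⟨N + i0, fun n hn => ?_⟩).frequently⟩
  exact ⟨⟨hconst' n hn, hconst' (n + 1) (by omega)⟩, hN n (by omega)⟩

theorem tame_dichotomy {R : ℕ → ℕ → Prop} (h : Tame R) : BorelHom (Paths R) ∨ BorelColourable 3 (Paths R) := by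
  induction h with
  | flat R h => exact (flat_dichotomy h).imp hom_of_cube id
  | iUnion R P hP hx _ h => exact iUnion_dichotomy P hP hx h
  | line F R hF _ h => exact h.imp (lineF_hom hF) (lineF_colour hF)
  | words R hR _ h => exact h.imp words_hom (words_colour hR)
  | hf R hR _ h => exact h.imp hf_hom (hf_colour hR)
  | loc R R' hR hs _ h => exact h.imp (loc_hom hs) (loc_colour hR hs)

theorem tame_pattern_dichotomy {k : ℕ} (τ : ℕ → ℕ → Fin k) {E : Set (ℕ → Fin k)}
    (hinv : ∀ u : ℕ → Fin k, (fun n => u (n + 1)) ∈ E ↔ u ∈ E)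
    (htame : ∀ i, (fun _ => i) ∈ E → Tame fun a b => τ a b = i) :
    BorelHom (Pattern τ E) ∨ BorelColourable 3 (Pattern τ E) := by
  classical
  by_cases hhom : ∃ i, (fun _ => i) ∈ E ∧ BorelHom (Paths fun a b => τ a b = i)
  · left
    obtain ⟨i, hi, h⟩ := hhom
    refine h.mono fun y hy => ?_
    exact (tail_const hinv hy).2 hi
  right
  push Not at hhom
  have hc : ∀ i, (fun _ => i) ∈ E → BorelColourable 3 (Paths fun a b => τ a b = i) := fun i hi =>
    (tame_dichotomy (htame i hi)).resolve_left (hhom i hi)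
  exact pattern_colour τ hinv hc

end ShiftGraph
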