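import Pool.Agent.Lib.MP_ae662e_lc.Tame

/-!
# The shift graph: examples of tame digraphs
-/

namespace ShiftGraph

open Filter

theorem tame_of_trans {R : ℕ → ℕ → Prop} (hR : ∀ a b c, R a b → R b c → R a c) : Tame R := Tame.rich R (rich_of_trans hR)

/-- Only the arcs `(a, b)` with `b` large with respect to `a` matter. -/
theorem tame_of_sparse {R : ℕ → ℕ → Prop} (h : ℕ → ℕ) (ht : Tame fun a b => R a b ∧ max a (h a) < b) : Tame R :=
  Tame.sim _ _ (fun a ha => absurd ha.2 (not_lt.2 (le_max_left a (h a))))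
    ⟨fun a => max a (h a), id, id, fun _ _ hab hR => ⟨hR, hab⟩, strictMono_id, fun _ _ _ hR => hR.1⟩ ht

theorem tame_of_rich {R : ℕ → ℕ → Prop} (h : ℕ → ℕ) (hR : ∀ x ∈ Paths R, (∀ᶠ n in atTop, h (x.1 n) < x.1 (n + 1)) →
    ∃ᶠ n in atTop, ∃ᶠ m in atTop, R (x.1 n) (x.1 m)) : Tame R := by
  refine tame_of_sparse h (Tame.rich _ fun x hx => ?_)
  have h1 : ∀ᶠ n in atTop, R (x.1 n) (x.1 (n + 1)) ∧ max (x.1 n) (h (x.1 n)) < x.1 (n + 1) := hx
  refine (hR x (h1.mono fun n hn => hn.1) (h1.mono fun n hn => lt_of_le_of_lt (le_max_right _ _) hn.2)).mono fun n hn => ?_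
  refine (hn.and_eventually (Filter.eventually_atTop.2 ⟨max (x.1 n) (h (x.1 n)) + 1, fun m hm => ?_⟩)).mono fun m hm =>
    ⟨hm.1, hm.2⟩
  exact lt_of_lt_of_le (Nat.lt_of_succ_le hm) (x.2.id_le m)

/-- `R` contains an infinite clique. -/
def HasClique (R : ℕ → ℕ → Prop) : Prop := ∃ X : Seq, ∀ m n, m < n → R (X.1 m) (X.1 n)

theorem tame_of_clique {R : ℕ → ℕ → Prop} (h : HasClique R) : Tame R := by
  obtain ⟨X, hX⟩ := h
  exact Tame.sim R (fun a b => a < b) (fun a => lt_irrefl a) ⟨id, id, X.1, fun _ _ hab _ => hab, X.2, fun a b hab _ => hX a b hab⟩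
    (tame_of_trans fun _ _ _ => lt_trans)

/-- `R` is a Ferrers digraph. -/
def Ferrers (R : ℕ → ℕ → Prop) : Prop := ∀ a b a' b', R a b → R a' b' → R a b' ∨ R a' b

theorem tame_of_ferrers {R : ℕ → ℕ → Prop} (hR : Ferrers R) : Tame R := by
  classical
  by_cases hcl : HasClique R
  · exact tame_of_clique hcl
  let C : ℕ → Set ℕ := fun a => {b | R a b ∧ ∃ c, R b c ∧ ¬ R a c}
  have hCc : ∀ a b b', b ∈ C a → b' ∈ C a → R b b' := by
    rintro a b b' ⟨_, c, h1, h2⟩ ⟨h3, _⟩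
    exact (hR b c a b' h1 h3).resolve_right h2
  have hCf : ∀ a, (C a).Finite := by
    intro a
    by_contra hinf
    have hinf' : (C a).Infinite := hinf
    refine hcl ⟨⟨Nat.nth fun n => n ∈ C a, Nat.nth_strictMono (p := fun n => n ∈ C a) hinf'⟩, fun m n _ => ?_⟩
    exact hCc a _ _ (Nat.nth_mem_of_infinite (p := fun n => n ∈ C a) hinf' m) (Nat.nth_mem_of_infinite (p := fun n => n ∈ C a) hinf' n)
  have hb : ∀ a, ∃ B, ∀ b ∈ C a, b ≤ B := fun a => by
    obtain ⟨B, hB⟩ := (hCf a).bddAbove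
    exact ⟨B, fun b hb => hB hb⟩
  choose h hh using hb
  refine tame_of_rich h fun x hx hsp => ?_
  by_contra hcon
  rw [Filter.not_frequently] at hcon
  obtain ⟨N, hN⟩ := Filter.eventually_atTop.1
    (hcon.and ((show ∀ᶠ n in atTop, R (x.1 n) (x.1 (n + 1)) from hx).and hsp))
  obtain ⟨h1, h2, h3⟩ := hN N le_rfl
  rw [Filter.not_frequently] at h1
  obtain ⟨M, hM⟩ := Filter.eventually_atTop.1 h1
  -- the last out-neighbour
  let m := Nat.findGreatest (fun m => N < m ∧ R (x.1 N) (x.1 m)) (max M (N + 1))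
  have hm : N < m ∧ R (x.1 N) (x.1 m) :=
    Nat.findGreatest_spec (P := fun m => N < m ∧ R (x.1 N) (x.1 m)) (le_max_right M (N + 1)) ⟨Nat.lt_succ_self N, h2⟩
  have hm1 : ¬ R (x.1 N) (x.1 (m + 1)) := by
    intro h4
    by_cases h5 : m + 1 ≤ max M (N + 1)
    · exact Nat.findGreatest_is_greatest (P := fun m => N < m ∧ R (x.1 N) (x.1 m)) (Nat.lt_succ_self m) h5 ⟨by omega, h4⟩
    · exact hM (m + 1) (by omega) h4
  have hmC : x.1 m ∈ C (x.1 N) := ⟨hm.2, x.1 (m + 1), (hN m hm.1.le).2.1, hm1⟩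
  have h4 := hh _ _ hmC
  have h5 : x.1 (N + 1) ≤ x.1 m := x.2.monotone hm.1
  omega

/-- Pull-backs. -/
theorem tame_comap {R : ℕ → ℕ → Prop} (f g : ℕ → ℕ) (hg : StrictMono g) (hfg : ∀ n, f (g n) = n) (hR : ∀ a, ¬ R a a) (h : Tame R) :
    Tame fun a b => R (f a) (f b) :=
  Tame.sim _ R hR ⟨id, f, g, fun _ _ _ h => h, hg, fun a b _ h => by
    change R (f (g a)) (f (g b))
    rw [hfg, hfg]
    exact h⟩ h

/-- The complements of the products of quasi-orders. -/
theorem tame_prod {R R' : ℕ → ℕ → Prop} (hR : ∀ a, ¬ R a a) (hR' : ∀ a, ¬ R' a a) (h : Tame R) (h' : Tame R') :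
    Tame fun a b => R a.unpair.1 b.unpair.1 ∨ R' a.unpair.2 b.unpair.2 := by
  refine Tame.union _ _ ?_ ?_
  · refine tame_comap (fun a => a.unpair.1) (fun n => Nat.pair n 0) (fun a b hab => Nat.pair_lt_pair_left 0 hab) (fun n => ?_) hR h
    rw [Nat.unpair_pair]
  · refine tame_comap (fun a => a.unpair.2) (fun n => Nat.pair 0 n) (fun a b hab => Nat.pair_lt_pair_right 0 hab) (fun n => ?_) hR' h'
    rw [Nat.unpair_pair]

theorem tame_false : Tame fun _ _ => False := Tame.finChrom _ ⟨1, fun _ => 0, fun _ _ h => h.elim⟩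

/-- Lexicographic sums. -/
theorem tame_lex {D : ℕ → ℕ → Prop} {R : ℕ → ℕ → ℕ → Prop} (hD : ∀ a, ¬ D a a) (hR : ∀ i a, ¬ R i a a) (h : Tame D)
    (h' : ∀ i, Tame (R i)) :
    Tame fun a b => D a.unpair.1 b.unpair.1 ∨ (a.unpair.1 = b.unpair.1 ∧ R a.unpair.1 a.unpair.2 b.unpair.2) := by
  refine Tame.union _ _ ?_ ?_
  · refine tame_comap (fun a => a.unpair.1) (fun n => Nat.pair n 0) (fun a b hab => Nat.pair_lt_pair_left 0 hab) (fun n => ?_) hD h
    rw [Nat.unpair_pair]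
  · refine Tame.sum _ (fun a => (a.unpair.1 : Ordinal.{0})) (fun a b hab => by rw [hab.1]) ?_
    intro i
    by_cases hi : ∃ j : ℕ, (j : Ordinal.{0}) = i
    · obtain ⟨j, rfl⟩ := hi
      refine Tame.sim _ (R j) (hR j) ⟨id, fun a => a.unpair.2, fun n => Nat.pair j n, ?_, ?_, ?_⟩ (h' j)
      · rintro a b _ ⟨⟨h1, _⟩, _, h2⟩
        rw [Nat.cast_inj] at h1
        rw [h1] at h2
        exact h2
      · exact fun a b hab => Nat.pair_lt_pair_right j hab
      · intro a b _ h1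
        simp only [Nat.unpair_pair, true_and]
        exact h1
    · refine Tame.finChrom _ ⟨1, fun _ => 0, fun a b hab => ?_⟩
      exact absurd ⟨_, hab.1.1⟩ hi

open Classical in
/-- the greedy colouring -/
private noncomputable def gr {m : ℕ} (hm : 0 < m) (N : ℕ → ℕ → Prop) : ℕ → Fin m
  | b => if h : ∃ i : Fin m, ∀ a : Fin b, N a b → gr hm N a.1 ≠ i then h.choose else ⟨0, hm⟩
  decreasing_by all_goals exact a.2

private theorem gr_spec {m : ℕ} (hm : 0 < m) (N : ℕ → ℕ → Prop)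
    (hN : ∀ b, ∀ s : Finset ℕ, (∀ a ∈ s, a < b ∧ N a b) → s.card < m) {a b : ℕ} (hab : a < b) (h : N a b) :
    gr hm N a ≠ gr hm N b := by
  classical
  have h1 : ∃ i : Fin m, ∀ a : Fin b, N a b → gr hm N a.1 ≠ i := by
    by_contra hcon
    push Not at hcon
    choose g hg using hcon
    have h2 := hN b (Finset.univ.image fun i => (g i).1) (by
      intro a ha
      obtain ⟨i, _, rfl⟩ := Finset.mem_image.1 ha
      exact ⟨(g i).2, (hg i).1⟩)
    rw [Finset.card_image_of_injective, Finset.card_univ, Fintype.card_fin] at h2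
    · exact lt_irrefl m h2
    · intro i j hij
      rw [← (hg i).2, ← (hg j).2]
      exact congrArg (gr hm N) hij
  have h3 : gr hm N b = h1.choose := by
    rw [gr, dif_pos h1]
  rw [h3]
  exact h1.choose_spec ⟨a, hab⟩ h

/-- A digraph in which all in-degrees are smaller than `m`, up to the larger vertices. -/
theorem tame_of_degree {R : ℕ → ℕ → Prop} (m : ℕ) (hR : ∀ b, ∀ s : Finset ℕ, (∀ a ∈ s, a < b ∧ R a b) → s.card < m) : Tame R := by
  have hm : 0 < m := lt_of_le_of_lt (Nat.zero_le _) (hR 0 ∅ (fun a ha => absurd ha (Finset.notMem_empty a)))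
  refine tame_of_sparse id (Tame.finChrom _ ⟨m, gr hm R, fun a b hab => ?_⟩)
  exact gr_spec hm R hR (lt_of_le_of_lt (le_max_left a (id a)) hab.2) hab.1

theorem tame_of_imp {R R' : ℕ → ℕ → Prop} (h : ∀ a b, a < b → (R a b ↔ R' a b)) (hR : ∀ a, ¬ R' a a) (h' : Tame R') : Tame R :=
  Tame.sim R R' hR ⟨id, id, id, fun a b hab h1 => (h a b hab).1 h1, strictMono_id, fun a b hab h1 => (h a b hab).2 h1⟩ h'

theorem tame_iUnion {k : ℕ} (R : Fin k → ℕ → ℕ → Prop) (h : ∀ i, Tame (R i)) : Tame fun a b => ∃ i, R i a b := by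
  induction k with
  | zero =>
    have h1 : (fun a b : ℕ => ∃ i : Fin 0, R i a b) = fun _ _ => False := by
      funext a b
      simp
    rw [h1]
    exact tame_false
  | succ k ih =>
    have h1 : (fun a b : ℕ => ∃ i : Fin (k + 1), R i a b) = fun a b => R 0 a b ∨ ∃ i : Fin k, R i.succ a b := by
      funext a b
      rw [Fin.exists_fin_succ]
    rw [h1]
    exact Tame.union _ _ (h 0) (ih (fun i => R i.succ) fun i => h i.succ)

theorem tame_of_finTypes {R : ℕ → ℕ → Prop} (hR : FinTypes R) : Tame R := by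
  classical
  obtain ⟨k, m, T, hR⟩ := hR
  have hR' : ∀ p : ℕ, ∃ B : ℕ, ∀ b, B ≤ b → ∃ i, {a | a ≤ p ∧ ¬ (R a b ↔ a ∈ T i)}.ncard < m := fun p =>
    Filter.eventually_atTop.1 (hR p)
  choose h0 hh0 using hR'
  let h : ℕ → ℕ := fun p => ∑ j ∈ Finset.range (p + 1), h0 j
  have hle : ∀ p, h0 p ≤ h p := fun p =>
    Finset.single_le_sum (f := h0) (fun _ _ => Nat.zero_le _) (Finset.mem_range.2 (Nat.lt_succ_self p))
  have hmono : Monotone h := fun p q hpq =>
    Finset.sum_le_sum_of_subset (Finset.range_mono (Nat.succ_le_succ hpq))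
  have hk : 0 < k := by
    obtain ⟨i, hi⟩ := hh0 0 (h0 0) le_rfl
    exact lt_of_le_of_lt (Nat.zero_le _) i.2
  -- the largest `p` with `h p < b`
  let P : ℕ → ℕ := fun b => Nat.findGreatest (fun p => h p < b) b
  have hP : ∀ a b, max a (h a) < b → h 0 < b ∧ a ≤ P b := by
    intro a b hab
    have h1 : h a < b := lt_of_le_of_lt (le_max_right _ _) hab
    have h2 : a < b := lt_of_le_of_lt (le_max_left _ _) hab
    exact ⟨lt_of_le_of_lt (hmono (Nat.zero_le a)) h1, Nat.le_findGreatest (P := fun p => h p < b) h2.le h1⟩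
  have hc : ∀ b, ∃ i : Fin k, h 0 < b → {a | a ≤ P b ∧ ¬ (R a b ↔ a ∈ T i)}.ncard < m := by
    intro b
    by_cases hb : h 0 < b
    · have h1 : h (P b) < b := Nat.findGreatest_spec (P := fun p => h p < b) (Nat.zero_le b) hb
      obtain ⟨i, hi⟩ := hh0 (P b) b ((hle _).trans h1.le)
      exact ⟨i, fun _ => hi⟩
    · exact ⟨⟨0, hk⟩, fun h1 => absurd h1 hb⟩
  choose c hc using hc
  let N : ℕ → ℕ → Prop := fun a b => h 0 < b ∧ a ≤ P b ∧ ¬ (R a b ↔ a ∈ T (c b))
  have hm : 0 < m := by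
    obtain ⟨i, hi⟩ := hh0 0 (h0 0) le_rfl
    omega
  have hN : ∀ b, ∀ s : Finset ℕ, (∀ a ∈ s, N a b) → s.card < m := by
    intro b s hs
    rcases s.eq_empty_or_nonempty with rfl | ⟨a0, ha0⟩
    · rw [Finset.card_empty]
      exact hm
    · refine lt_of_le_of_lt ?_ (hc b (hs a0 ha0).1)
      rw [← Set.ncard_coe_finset]
      refine Set.ncard_le_ncard (fun a ha => ⟨(hs a ha).2.1, (hs a ha).2.2⟩) ?_
      exact (Set.finite_Iic (P b)).subset fun a ha => ha.1
  refine tame_of_sparse h ?_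
  have h1 : (fun a b => R a b ∧ max a (h a) < b) = fun a b => ((R a b ∧ N a b) ∧ max a (h a) < b) ∨
      ∃ i : Fin k, R a b ∧ a ∈ T i ∧ c b = i ∧ max a (h a) < b := by
    funext a b
    refine propext ⟨fun h2 => ?_, ?_⟩
    · by_cases h3 : a ∈ T (c b)
      · exact Or.inr ⟨c b, h2.1, h3, rfl, h2.2⟩
      · exact Or.inl ⟨⟨h2.1, (hP a b h2.2).1, (hP a b h2.2).2, fun h4 => h3 (h4.1 h2.1)⟩, h2.2⟩
    · rintro (h2 | ⟨i, h2, -, -, h3⟩)
      · exact ⟨h2.1.1, h2.2⟩
      · exact ⟨h2, h3⟩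
  rw [h1]
  refine Tame.union _ _ (tame_of_degree m fun b s hs => hN b s fun a ha => (hs a ha).2.1.2) (tame_iUnion _ fun i => ?_)
  refine Tame.rich _ fun x hx => ?_
  obtain ⟨M, hM⟩ := Filter.eventually_atTop.1
    (show ∀ᶠ n in atTop, R (x.1 n) (x.1 (n + 1)) ∧ x.1 n ∈ T i ∧ c (x.1 (n + 1)) = i ∧ max (x.1 n) (h (x.1 n)) < x.1 (n + 1) from hx)
  by_contra hcon
  rw [Filter.not_frequently] at hcon
  obtain ⟨J, hJ⟩ := Filter.eventually_atTop.1 hcon
  have hJ' : ∀ n ∈ Finset.range m, ∀ᶠ l in atTop, ¬ (R (x.1 (J + M + n)) (x.1 l) ∧ x.1 (J + M + n) ∈ T i ∧ c (x.1 l) = i ∧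
      max (x.1 (J + M + n)) (h (x.1 (J + M + n))) < x.1 l) := fun n _ =>
    Filter.not_frequently.1 (hJ (J + M + n) (by omega))
  obtain ⟨l, hl1, hl2⟩ := (((Filter.eventually_all_finset _).2 hJ').and (Filter.eventually_gt_atTop (J + M + m))).exists
  have hcl : c (x.1 l) = i := by
    have h2 := (hM (l - 1) (by omega)).2.2.1
    rw [Nat.sub_add_cancel (by omega)] at h2
    exact h2
  have hsp : ∀ n, n < m → max (x.1 (J + M + n)) (h (x.1 (J + M + n))) < x.1 l := by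
    intro n hn
    refine lt_of_lt_of_le (hM (J + M + n) (by omega)).2.2.2 (x.2.monotone (by omega))
  have h3 := hN (x.1 l) ((Finset.range m).image fun n => x.1 (J + M + n)) (by
    intro a ha
    obtain ⟨n, hn, rfl⟩ := Finset.mem_image.1 ha
    rw [Finset.mem_range] at hn
    refine ⟨(hP _ _ (hsp n hn)).1, (hP _ _ (hsp n hn)).2, ?_⟩
    rw [hcl]
    intro h4
    have h5 := (hM (J + M + n) (by omega)).2.1
    exact hl1 n (Finset.mem_range.2 hn) ⟨h4.2 h5, h5, hcl, hsp n hn⟩)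
  rw [Finset.card_image_of_injective _ (fun a b hab => by
    have h6 := x.2.injective hab
    omega), Finset.card_range] at h3
  exact lt_irrefl m h3

/-- The digraphs without `K_(m,∞)`. -/
theorem tame_of_KmInf {R : ℕ → ℕ → Prop} (m : ℕ) (hR : ∀ s : Finset ℕ, s.card = m → {b | ∀ a ∈ s, R a b}.Finite) : Tame R := by
  classical
  refine tame_of_finTypes ⟨1, m, fun _ => ∅, fun p => ?_⟩
  have h1 : (⋃ s ∈ ((Finset.range (p + 1)).powersetCard m : Set (Finset ℕ)), {b | ∀ a' ∈ s, R a' b}).Finite := by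
    refine Set.Finite.biUnion (Finset.finite_toSet _) fun s hs => hR s ?_
    exact (Finset.mem_powersetCard.1 (Finset.mem_coe.1 hs)).2
  obtain ⟨B, hB⟩ := h1.bddAbove
  refine Filter.eventually_atTop.2 ⟨B + 1, fun b hb => ⟨0, ?_⟩⟩
  by_contra hcon
  rw [not_lt] at hcon
  have hfin : {a | a ≤ p ∧ ¬ (R a b ↔ a ∈ (∅ : Set ℕ))}.Finite := (Set.finite_Iic p).subset fun a ha => ha.1
  rw [Set.ncard_eq_toFinset_card _ hfin] at hcon
  obtain ⟨t, ht, htc⟩ := Finset.exists_subset_card_eq hcon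
  have h2 : b ≤ B := by
    refine hB (Set.mem_biUnion (x := t) (Finset.mem_coe.2 (Finset.mem_powersetCard.2 ⟨fun a ha => ?_, htc⟩)) ?_)
    · exact Finset.mem_range.2 (Nat.lt_succ_of_le ((hfin.mem_toFinset.1 (ht ha)).1))
    · intro a ha
      have h3 := (hfin.mem_toFinset.1 (ht ha)).2
      by_contra h4
      exact h3 ⟨fun h5 => absurd h5 h4, fun h5 => absurd h5 (Set.notMem_empty a)⟩
  omega

/-- Digraphs without paths on which the distances tend to limits at least two. -/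
theorem tame_of_dist {R : ℕ → ℕ → Prop}
    (hR : ∀ x ∈ Paths R, ¬ ∀ᶠ i in atTop, ∃ l, 2 ≤ l ∧ ∀ᶠ j in atTop, DistEq R (x.1 i) (x.1 j) l) : Tame R := by
  refine Tame.flat R (flat_of_dist (fun _ => Set.univ) fun x hx => ⟨0, Filter.Frequently.of_forall fun _ => Set.mem_univ _, ?_⟩)
  have h1 : (fun a b => (a ∈ (Set.univ : Set ℕ) ∧ b ∈ (Set.univ : Set ℕ)) ∧ R a b) = R := by
    funext a b
    exact propext ⟨fun h => h.2, fun h => ⟨⟨Set.mem_univ _, Set.mem_univ _⟩, h⟩⟩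
  rw [h1]
  exact (Filter.not_eventually.1 (hR x hx)).mono fun i hi => Or.inr hi

/-- Digraphs without paths on which the distances tend to limits at least two which are constant from some place on or tend to infinity. -/
theorem tame_of_dist' {R : ℕ → ℕ → Prop}
    (hR : ∀ x ∈ Paths R, ∀ l : ℕ → ℕ, ¬ ((∀ᶠ i in atTop, 2 ≤ l i ∧ ∀ᶠ j in atTop, DistEq R (x.1 i) (x.1 j) (l i)) ∧
      ((∃ c, ∀ᶠ i in atTop, l i = c) ∨ Tendsto l atTop atTop))) : Tame R := by
  classical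
  let d : ℕ → ℕ → ℕ := fun z b => if h : ∃ l, DistEq R z b l then h.choose + 1 else 0
  have hd : ∀ z b l, DistEq R z b l → d z b = l + 1 := by
    intro z b l hl
    have h1 : ∃ l, DistEq R z b l := ⟨l, hl⟩
    simp only [d]
    rw [dif_pos h1, h1.choose_spec.unique hl]
  refine Tame.flat R (flat_of_countable
    (Set.range (fun (z : ℕ) (a _ : ℕ) => d z a % 2 = 0) ∪ Set.range (fun (p : ℕ × ℕ) (a _ : ℕ) => d p.1 a = p.2) ∪
      Set.range (fun (l a b : ℕ) => d a b = l)) (((Set.countable_range _).union (Set.countable_range _)).union (Set.countable_range _)) ?_)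
  intro x hx
  by_contra hcon
  rw [not_or] at hcon
  obtain ⟨hcon1, hcon2⟩ := hcon
  have hns : ∀ A ∈ (Set.range (fun (z : ℕ) (a _ : ℕ) => d z a % 2 = 0) ∪ Set.range (fun (p : ℕ × ℕ) (a _ : ℕ) => d p.1 a = p.2) ∪
      Set.range (fun (l a b : ℕ) => d a b = l) : Set (ℕ → ℕ → Prop)), (∃ᶠ m in atTop, ∀ᶠ n in atTop, A (x.1 m) (x.1 n)) →
      ∀ᶠ m in atTop, ∀ᶠ n in atTop, A (x.1 m) (x.1 n) := by
    intro A hA h1
    by_contra h2
    exact hcon2 ⟨A, hA, h1, Filter.not_eventually.1 h2⟩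
  have hv : ∀ (P : ℕ → Prop), (fun (a _ : ℕ) => P a) ∈ (Set.range (fun (z : ℕ) (a _ : ℕ) => d z a % 2 = 0) ∪
      Set.range (fun (p : ℕ × ℕ) (a _ : ℕ) => d p.1 a = p.2) ∪ Set.range (fun (l a b : ℕ) => d a b = l) : Set (ℕ → ℕ → Prop)) →
      (∃ᶠ m in atTop, P (x.1 m)) → ∀ᶠ m in atTop, P (x.1 m) := by
    intro P hP h1
    refine (hns _ hP (h1.mono fun m hm => Filter.Eventually.of_forall fun _ => hm)).mono fun m hm => ?_
    obtain ⟨_, h2⟩ := hm.exists
    exact h2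
  obtain ⟨N, hN⟩ := Filter.eventually_atTop.1 (show ∀ᶠ n in atTop, R (x.1 n) (x.1 (n + 1)) from hx)
  have hex : ∀ i, N ≤ i → ∀ j, ∃ l, DistEq R (x.1 i) (x.1 (i + j)) l := by
    intro i hi j
    induction j with
    | zero =>
      obtain ⟨l', -, h7⟩ := exists_dist (R := R) (a := x.1 i) (b := x.1 i) (l := 0) rfl
      exact ⟨l', h7⟩
    | succ j ih =>
      obtain ⟨l, hl⟩ := ih
      obtain ⟨l', -, h9⟩ := hl.step (c := x.1 (i + j + 1)) (hN (i + j) (by omega))
      exact ⟨l', h9⟩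
  have hex' : ∀ i, N ≤ i → ∀ j, i ≤ j → ∃ l, DistEq R (x.1 i) (x.1 j) l := by
    intro i hi j hj
    have h7 := hex i hi (j - i)
    rw [Nat.add_sub_cancel' hj] at h7
    exact h7
  -- the limits of the distances
  have hlim : ∀ i, ∃ l, N ≤ i → ∀ᶠ j in atTop, d (x.1 i) (x.1 j) = l + 1 := by
    intro i
    by_cases hi : N ≤ i
    · obtain ⟨m, hm⟩ := const_of_unsplit (d := fun j => d (x.1 i) (x.1 j)) (Filter.eventually_atTop.2 ⟨i, fun j hj => by
        obtain ⟨l, hl⟩ := hex' i hi j hj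
        obtain ⟨l', h9, h10⟩ := hl.step (c := x.1 (j + 1)) (hN j (by omega))
        rw [hd _ _ _ hl, hd _ _ _ h10]
        omega⟩) (hv _ (Or.inl (Or.inl ⟨x.1 i, rfl⟩))) (fun l => hv _ (Or.inl (Or.inr ⟨(x.1 i, l), rfl⟩)))
      refine ⟨m - 1, fun _ => (hm.and (Filter.eventually_ge_atTop i)).mono fun j hj => ?_⟩
      obtain ⟨l, hl⟩ := hex' i hi j hj.2
      have h7 := hd _ _ _ hl
      have h8 := hj.1
      rw [h7] at h8
      omega
    · exact ⟨0, fun h => absurd h hi⟩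
  choose l hl using hlim
  have hl' : ∀ i, N ≤ i → ∀ᶠ j in atTop, DistEq R (x.1 i) (x.1 j) (l i) := by
    intro i hi
    refine ((hl i hi).and (Filter.eventually_ge_atTop i)).mono fun j hj => ?_
    obtain ⟨l', h1⟩ := hex' i hi j hj.2
    have h2 := hd _ _ _ h1
    have h3 := hj.1
    have h4 : l' = l i := by omega
    rw [← h4]
    exact h1
  refine hR x hx l ⟨?_, ?_⟩
  · rw [Filter.not_frequently] at hcon1
    refine (hcon1.and (Filter.eventually_ge_atTop N)).mono fun i hi => ⟨?_, hl' i hi.2⟩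
    have h1 : ∀ᶠ j in atTop, ¬ R (x.1 i) (x.1 j) := Filter.not_frequently.1 hi.1
    obtain ⟨j, h2, h3, h4⟩ := ((hl' i hi.2).and (h1.and (Filter.eventually_gt_atTop i))).exists
    by_contra h5
    have h6 : l i = 0 ∨ l i = 1 := by omega
    rcases h6 with h6 | h6
    · rw [h6] at h2
      have h7 : x.1 i = x.1 j := h2.1
      have h8 : x.1 i < x.1 j := x.2 h4
      omega
    · rw [h6] at h2
      obtain ⟨c, h7, h8⟩ := h2.1
      have h9 : x.1 i = c := h7
      exact h3 (h9 ▸ h8)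
  · by_cases hc : ∃ c, ∃ᶠ i in atTop, l i = c
    · left
      obtain ⟨c, hc⟩ := hc
      refine ⟨c, ?_⟩
      have h1 : ∀ᶠ m in atTop, ∀ᶠ n in atTop, d (x.1 m) (x.1 n) = c + 1 := by
        refine hns _ (Or.inr ⟨c + 1, rfl⟩) ((hc.and_eventually (Filter.eventually_ge_atTop N)).mono fun m hm => ?_)
        refine (hl m hm.2).mono fun n hn => ?_
        change d (x.1 m) (x.1 n) = c + 1
        rw [hn, hm.1]
      refine (h1.and (Filter.eventually_ge_atTop N)).mono fun m hm => ?_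
      obtain ⟨n, h2, h3⟩ := (hm.1.and (hl m hm.2)).exists
      omega
    · right
      push Not at hc
      rw [Filter.tendsto_atTop]
      intro b
      induction b with
      | zero => exact Filter.Eventually.of_forall fun _ => Nat.zero_le _
      | succ b ih => exact (ih.and (hc b)).mono fun i hi => by have := hi.1; have := hi.2; omega

/-- All digraphs. -/
theorem digraph_trichotomy (R : ℕ → ℕ → Prop) : BorelHom (Paths R) ∨ BorelColourable 3 (Paths R) ∨
    ∃ x ∈ Paths R, ∃ l : ℕ → ℕ, (∀ᶠ i in atTop, 2 ≤ l i ∧ ∀ᶠ j in atTop, DistEq R (x.1 i) (x.1 j) (l i)) ∧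
      ((∃ c, ∀ᶠ i in atTop, l i = c) ∨ Tendsto l atTop atTop) := by
  by_cases h : ∃ x ∈ Paths R, ∃ l : ℕ → ℕ, (∀ᶠ i in atTop, 2 ≤ l i ∧ ∀ᶠ j in atTop, DistEq R (x.1 i) (x.1 j) (l i)) ∧
      ((∃ c, ∀ᶠ i in atTop, l i = c) ∨ Tendsto l atTop atTop)
  · exact Or.inr (Or.inr h)
  · rcases tame_dichotomy (tame_of_dist' fun x hx l h1 => h ⟨x, hx, l, h1⟩) with h1 | h1
    · exact Or.inl h1
    · exact Or.inr (Or.inl h1)

/-- Digraphs in which the walks between two given vertices have only one length. -/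
theorem tame_of_graded {R : ℕ → ℕ → Prop} (hR : ∀ a b l l', Walk R l a b → Walk R l' a b → l = l') : Tame R :=
  Tame.flat R (flat_of_graded hR)

/-- Digraphs all whose paths are split by one of countably many sets of vertices. -/
theorem tame_of_split {R : ℕ → ℕ → Prop} (X : ℕ → Set ℕ)
    (h : ∀ x ∈ Paths R, ∃ k, (∃ᶠ n in atTop, x.1 n ∈ X k) ∧ ∃ᶠ n in atTop, x.1 n ∉ X k) : Tame R :=
  Tame.flat R (flat_of_split X fun x hx => Or.inr (h x hx))

end ShiftGraph
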