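import Pool.Agent.Lib.MP_ae662e_lc.Path

/-!
# The shift graph: finite unions of digraphs, and digraphs with rich paths
-/

namespace ShiftGraph

open Filter

/-- The in-neighbourhoods of `R` have finitely many limits up to a bounded error. -/
def FinTypes (R : ℕ → ℕ → Prop) : Prop :=
  ∃ (k m : ℕ) (T : Fin k → Set ℕ), ∀ p : ℕ, ∀ᶠ b in atTop, ∃ i, {a | a ≤ p ∧ ¬ (R a b ↔ a ∈ T i)}.ncard < m

/-- Every path has infinitely many vertices with infinitely many out-neighbours on the path. -/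
def Rich (R : ℕ → ℕ → Prop) : Prop := ∀ x ∈ Paths R, ∃ᶠ n in atTop, ∃ᶠ m in atTop, R (x.1 n) (x.1 m)

/-- `R` has a colouring with finitely many colours. -/
def FinChrom (R : ℕ → ℕ → Prop) : Prop := ∃ (k : ℕ) (c : ℕ → Fin k), ∀ a b, R a b → c a ≠ c b

theorem finChrom_colour {R : ℕ → ℕ → Prop} (hR : FinChrom R) : BorelColourable 3 (Paths R) := by
  obtain ⟨k, c, hc⟩ := hR
  refine colour_of_sparse_split (fun _ => 0) (fun i => {a | (c a).1 = i}) ?_
  intro x hx _
  have hex : ∃ j : Fin k, ∃ᶠ n in atTop, c (x.1 n) = j := by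
    by_contra hcon
    push Not at hcon
    have h3 : ∀ᶠ n in atTop, ∀ j : Fin k, c (x.1 n) ≠ j := Filter.eventually_all.2 hcon
    obtain ⟨n, hn⟩ := h3.exists
    exact hn _ rfl
  obtain ⟨j, hj⟩ := hex
  refine ⟨j.1, hj.mono fun n hn => congrArg Fin.val hn, ?_⟩
  rw [Filter.frequently_atTop]
  intro N
  obtain ⟨M, hM⟩ := Filter.eventually_atTop.1 (show ∀ᶠ n in atTop, R (x.1 n) (x.1 (n + 1)) from hx)
  by_cases h3 : c (x.1 (max N M)) = j
  · refine ⟨max N M + 1, by omega, fun h4 => ?_⟩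
    have h5 : c (x.1 (max N M + 1)) = j := Fin.ext h4
    exact hc _ _ (hM (max N M) (le_max_right _ _)) (h3.trans h5.symm)
  · exact ⟨max N M, le_max_left _ _, fun h4 => h3 (Fin.ext h4)⟩

theorem rich_of_trans {R : ℕ → ℕ → Prop} (hR : ∀ a b c, R a b → R b c → R a c) : Rich R := by
  intro x hx
  obtain ⟨M, hM⟩ := Filter.eventually_atTop.1 (show ∀ᶠ n in atTop, R (x.1 n) (x.1 (n + 1)) from hx)
  have h1 : ∀ n, M ≤ n → ∀ k, R (x.1 n) (x.1 (n + k + 1)) := by
    intro n hn k
    induction k with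
    | zero => exact hM n hn
    | succ k ih => exact hR _ _ _ ih (hM (n + (k + 1)) (by omega))
  refine Filter.Eventually.frequently (Filter.eventually_atTop.2 ⟨M, fun n hn => ?_⟩)
  refine Filter.Eventually.frequently (Filter.eventually_atTop.2 ⟨n + 1, fun m hm => ?_⟩)
  have h2 := h1 n hn (m - n - 1)
  rw [show n + (m - n - 1) + 1 = m by omega] at h2
  exact h2

theorem rich_dichotomy {R : ℕ → ℕ → Prop} (hR : Rich R) : Cube (Paths R) ∨ BorelColourable 3 (Paths R) := by
  classical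
  by_cases hcube : Cube (Paths R)
  · exact Or.inl hcube
  right
  refine colour_of_sparse_split (fun _ => 0) (fun a => {b | R a b}) ?_
  intro x hx _
  by_contra hcon
  apply hcube
  push Not at hcon
  have h1 : ∀ a, (∃ᶠ n in atTop, R a (x.1 n)) → ∀ᶠ n in atTop, R a (x.1 n) := by
    intro a ha
    exact (hcon a ha).mono fun n hn => hn
  obtain ⟨f, hf1, hf2⟩ := exists_seq_of_forall_finset_exists
    (fun n : ℕ => ∃ᶠ m in atTop, R (x.1 n) (x.1 m)) (fun n m => n < m ∧ R (x.1 n) (x.1 m)) (by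
      intro s hs
      have h3 : ∀ᶠ m in atTop, ∀ n ∈ s, n < m ∧ R (x.1 n) (x.1 m) := by
        rw [Filter.eventually_all_finset]
        intro n hn
        exact (Filter.eventually_gt_atTop n).and (h1 _ (hs n hn))
      obtain ⟨m, hm1, hm2⟩ := ((hR x hx).and_eventually h3).exists
      exact ⟨m, hm1, hm2⟩)
  have hfm : StrictMono f := fun a b hab => (hf2 a b hab).1
  refine ⟨⟨fun n => x.1 (f n), x.2.comp hfm⟩, fun y hy => Filter.Eventually.of_forall fun n => ?_⟩
  obtain ⟨a, ha⟩ := hy ⟨n, rfl⟩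
  obtain ⟨b, hb⟩ := hy ⟨n + 1, rfl⟩
  have ha' : x.1 (f a) = y.1 n := ha
  have hb' : x.1 (f b) = y.1 (n + 1) := hb
  have hab : a < b := by
    have h4 : y.1 n < y.1 (n + 1) := y.2 (Nat.lt_succ_self n)
    rw [← ha', ← hb'] at h4
    exact hfm.lt_iff_lt.1 (x.2.lt_iff_lt.1 h4)
  rw [← ha', ← hb']
  exact (hf2 a b hab).2

/-- Colourings of countably many invariant pieces and countably many splitting sets give a colouring with three colours. -/
theorem colour_of_pieces {B : Set Seq} (P : ℕ → Set Seq) (hP : ∀ i, MeasurableSet (P i)) (hinv : ∀ i, Inv (P i)) (k : ℕ)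
    (hc : ∀ i, BorelColourable k (P i)) (A : ℕ → Set Seq) (hA : ∀ i, MeasurableSet (A i))
    (h : ∀ x ∈ B, (∃ i, x ∈ P i) ∨ ∃ i, (∃ᶠ n in atTop, S^[n] x ∈ A i) ∧ ∃ᶠ n in atTop, S^[n] x ∉ A i) :
    BorelColourable 3 B := by
  classical
  choose c hcm hc using hc
  let D : ℕ → ℕ → Set Seq := fun i j => if h : j < k then Subtype.val '' (c i ⁻¹' {⟨j, h⟩}) else ∅
  have hD : ∀ i j, MeasurableSet (D i j) := by
    intro i j
    simp only [D]
    split_ifs
    · exact (hP i).subtype_image (hcm i (MeasurableSet.singleton _))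
    · exact MeasurableSet.empty
  have hDm : ∀ i j (hj : j < k) (y : Seq) (hy : y ∈ P i), y ∈ D i j ↔ c i ⟨y, hy⟩ = ⟨j, hj⟩ := by
    intro i j hj y hy
    simp only [D]
    rw [dif_pos hj]
    constructor
    · rintro ⟨z, hz, rfl⟩
      exact hz
    · intro h2
      exact ⟨⟨y, hy⟩, h2, rfl⟩
  refine colour_of_split (fun n => if n.unpair.1 = 0 then A n.unpair.2 else D (n.unpair.1 - 1) n.unpair.2) ?_ ?_
  · intro n
    split_ifs
    · exact hA _
    · exact hD _ _
  · intro x hx
    rcases h x hx with ⟨i, hi⟩ | ⟨i, h1, h2⟩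
    · have hit : ∀ n, S^[n] x ∈ P i := fun n => (hinv i).iter hi n
      have hne : ∀ n, c i ⟨S^[n] x, hit n⟩ ≠ c i ⟨S^[n + 1] x, hit (n + 1)⟩ := by
        intro n
        refine hc i _ _ (Or.inl ?_)
        change S^[n + 1] x = S (S^[n] x)
        rw [Function.iterate_succ_apply']
      -- a colour which occurs infinitely often
      have hex : ∃ j : Fin k, ∃ᶠ n in atTop, c i ⟨S^[n] x, hit n⟩ = j := by
        by_contra hcon
        push Not at hcon
        have h3 : ∀ᶠ n in atTop, ∀ j : Fin k, c i ⟨S^[n] x, hit n⟩ ≠ j := Filter.eventually_all.2 hcon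
        obtain ⟨n, hn⟩ := h3.exists
        exact hn _ rfl
      obtain ⟨j, hj⟩ := hex
      have hset : (if (Nat.pair (i + 1) j.1).unpair.1 = 0 then A (Nat.pair (i + 1) j.1).unpair.2 else
          D ((Nat.pair (i + 1) j.1).unpair.1 - 1) (Nat.pair (i + 1) j.1).unpair.2) = D i j.1 := by
        rw [Nat.unpair_pair, if_neg (Nat.succ_ne_zero i), Nat.add_sub_cancel]
      refine ⟨Nat.pair (i + 1) j.1, ?_, ?_⟩
      · rw [hset]
        exact hj.mono fun n hn => (hDm i j.1 j.2 _ (hit n)).2 hn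
      · rw [hset, Filter.frequently_atTop]
        intro N
        by_cases h3 : c i ⟨S^[N] x, hit N⟩ = j
        · refine ⟨N + 1, by omega, fun h4 => ?_⟩
          have h5 := (hDm i j.1 j.2 _ (hit (N + 1))).1 h4
          exact hne N (h3.trans h5.symm)
        · exact ⟨N, le_rfl, fun h4 => h3 ((hDm i j.1 j.2 _ (hit N)).1 h4)⟩
    · have hset : (if (Nat.pair 0 i).unpair.1 = 0 then A (Nat.pair 0 i).unpair.2 else
          D ((Nat.pair 0 i).unpair.1 - 1) (Nat.pair 0 i).unpair.2) = A i := by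
        rw [Nat.unpair_pair, if_pos rfl]
      refine ⟨Nat.pair 0 i, ?_, ?_⟩
      · rw [hset]
        exact h1
      · rw [hset]
        exact h2

/-- The dichotomy for the finite unions. -/
theorem union_dichotomy {l : ℕ} (P : Fin l → ℕ → ℕ → Prop) (hP : ∀ i, Cube (Paths (P i)) ∨ BorelColourable 3 (Paths (P i))) :
    Cube (Paths fun a b => ∃ i, P i a b) ∨ BorelColourable 3 (Paths fun a b => ∃ i, P i a b) := by
  classical
  by_cases hcube : ∃ i, Cube (Paths (P i))
  · left
    obtain ⟨i, X, hX⟩ := hcube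
    exact ⟨X, fun y hy => (hX y hy).mono fun n hn => ⟨i, hn⟩⟩
  right
  push Not at hcube
  have hc : ∀ i, BorelColourable 3 (Paths (P i)) := fun i => (hP i).resolve_left (hcube i)
  have hempty : BorelColourable 3 (∅ : Set Seq) :=
    ⟨fun _ => 0, measurable_const, fun x => absurd x.2 (Set.notMem_empty x.1)⟩
  refine colour_of_pieces (fun i => if h : i < l then Paths (P ⟨i, h⟩) else ∅) ?_ ?_ 3 ?_
    (fun i => if h : i < l then {x | P ⟨i, h⟩ (x.1 0) (x.1 1)} else ∅) ?_ ?_
  · intro i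
    split_ifs
    · exact Paths_measurable _
    · exact MeasurableSet.empty
  · intro i
    split_ifs
    · exact Paths_inv _
    · exact fun x y _ hx => absurd hx (Set.notMem_empty x)
  · intro i
    split_ifs
    · exact hc _
    · exact hempty
  · intro i
    split_ifs with h
    · have h1 : Measurable fun x : Seq => (x.1 0, x.1 1) := (measurable_eval 0).prodMk (measurable_eval 1)
      exact h1 (MeasurableSet.of_discrete (s := {p : ℕ × ℕ | P ⟨i, h⟩ p.1 p.2}))
    · exact MeasurableSet.empty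
  · intro x hx
    by_contra hcon
    push Not at hcon
    obtain ⟨h1, h2⟩ := hcon
    have h3 : ∀ i : Fin l, ¬ ∃ᶠ n in atTop, P i (x.1 n) (x.1 (n + 1)) := by
      intro i hi
      have hm : ∀ n, (S^[n] x ∈ if h : i.1 < l then {x : Seq | P ⟨i.1, h⟩ (x.1 0) (x.1 1)} else ∅) ↔
          P i (x.1 n) (x.1 (n + 1)) := by
        intro n
        rw [dif_pos i.2]
        change P i ((S^[n] x).1 0) ((S^[n] x).1 1) ↔ _
        rw [iter_apply, iter_apply, Nat.add_zero]
      have h4 := h2 i.1 (hi.mono fun n hn => (hm n).2 hn)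
      apply h1 i.1
      rw [dif_pos i.2]
      exact h4.mono fun n hn => (hm n).1 hn
    have h5 : ∀ᶠ n in atTop, ∀ i : Fin l, ¬ P i (x.1 n) (x.1 (n + 1)) :=
      Filter.eventually_all.2 fun i => Filter.not_frequently.1 (h3 i)
    have h6 : ∀ᶠ n in atTop, ∃ i, P i (x.1 n) (x.1 (n + 1)) := hx
    obtain ⟨n, hn, i, hi⟩ := (h5.and h6).exists
    exact hn i hi

end ShiftGraph
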