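import Pool.Agent.Lib.MP_ae662e_lc.Union

/-!
# The shift graph: digraphs of words (Higman)
-/

namespace ShiftGraph

open Filter

/-- A Borel colouring is pulled back along an equivariant sequence of letters which is a path in a digraph without loops, from some
place on, unless the orbit is split by one of countably many Borel sets. -/
theorem colour_of_letters {R : ℕ → ℕ → Prop} (hR : ∀ a, ¬ R a a) {k : ℕ} (hc : BorelColourable k (Paths R)) (a : Seq → ℕ)
    (ha : Measurable a) (D : ℕ → Set Seq) (hD : ∀ j, MeasurableSet (D j)) {B : Set Seq}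
    (h : ∀ x ∈ B, (∃ j, (∃ᶠ n in atTop, S^[n] x ∈ D j) ∧ ∃ᶠ n in atTop, S^[n] x ∉ D j) ∨
      ∀ᶠ n in atTop, R (a (S^[n] x)) (a (S^[n + 1] x))) : BorelColourable 3 B := by
  classical
  have hit : ∀ (i n : ℕ) (x : Seq), S^[i] (S^[n] x) = S^[n + i] x := by
    intro i n x
    rw [← Function.iterate_add_apply, Nat.add_comm]
  have haS : ∀ n, Measurable fun x => a (S^[n] x) := fun n => ha.comp (measurable_iter n)
  -- the points with an increasing sequence of letters
  let U : Set Seq := {x | StrictMono fun n => a (S^[n] x)}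
  have hU : MeasurableSet U := by
    have h1 : U = ⋂ n : ℕ, {x : Seq | a (S^[n] x) < a (S^[n + 1] x)} := by
      ext x
      simp only [U, Set.mem_ofPred_eq, Set.mem_iInter]
      exact ⟨fun h n => h (Nat.lt_succ_self n), strictMono_nat_of_lt_succ⟩
    rw [h1]
    exact MeasurableSet.iInter fun n => measurableSet_lt (haS n) (haS (n + 1))
  have hUS : ∀ x ∈ U, S x ∈ U := by
    intro x hx i j hij
    change a (S^[i] (S x)) < a (S^[j] (S x))
    rw [← Function.iterate_succ_apply, ← Function.iterate_succ_apply]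
    exact hx (Nat.succ_lt_succ hij)
  let Ψ : Seq → Seq := fun x => ⟨fun n => if x ∈ U then a (S^[n] x) else x.1 n, by
    intro i j hij
    by_cases h : x ∈ U
    · simp only [if_pos h]
      exact h hij
    · simp only [if_neg h]
      exact x.2 hij⟩
  have hΨm : Measurable Ψ := by
    refine Measurable.subtype_mk ?_
    exact measurable_pi_lambda _ fun n => Measurable.ite hU (haS n) (measurable_eval n)
  have hΨ : ∀ x ∈ U, ∀ n, (Ψ x).1 n = a (S^[n] x) := fun x hx n => if_pos hx
  have hΨS : ∀ x ∈ U, Ψ (S x) = S (Ψ x) := by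
    intro x hx
    refine Subtype.ext (funext fun n => ?_)
    rw [hΨ _ (hUS x hx)]
    change _ = (Ψ x).1 (n + 1)
    rw [hΨ _ hx, ← Function.iterate_succ_apply]
  let P : Set Seq := {x | ∃ n, S^[n] x ∈ U ∧ Ψ (S^[n] x) ∈ Paths R}
  have hPm : MeasurableSet P := by
    have h1 : P = ⋃ n : ℕ, (S^[n]) ⁻¹' (U ∩ Ψ ⁻¹' Paths R) := by
      ext x
      simp only [P, Set.mem_ofPred_eq, Set.mem_iUnion]
      rfl
    rw [h1]
    exact MeasurableSet.iUnion fun n => measurable_iter n (hU.inter (hΨm (Paths_measurable R)))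
  have hPinv : Inv P := by
    refine inv_of_S fun x => ⟨?_, ?_⟩
    · rintro ⟨n, hn⟩
      refine ⟨n + 1, ?_⟩
      rw [Function.iterate_succ_apply]
      exact hn
    · rintro ⟨n, h1, h2⟩
      refine ⟨n, ?_⟩
      rw [← Function.iterate_succ_apply, Function.iterate_succ_apply']
      refine ⟨hUS _ h1, ?_⟩
      rw [hΨS _ h1]
      exact (Paths_inv R).S_mem h2
  have hPc : BorelColourable 3 P := by
    obtain ⟨c, hcm, hc⟩ := hc
    let E : ℕ → Set Seq := fun j => if h : j < k then Subtype.val '' (c ⁻¹' {⟨j, h⟩}) else ∅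
    have hE : ∀ j, MeasurableSet (E j) := by
      intro j
      simp only [E]
      split_ifs
      · exact (Paths_measurable R).subtype_image (hcm (MeasurableSet.singleton _))
      · exact MeasurableSet.empty
    have hEm : ∀ j (hj : j < k) (y : Seq) (hy : y ∈ Paths R), y ∈ E j ↔ c ⟨y, hy⟩ = ⟨j, hj⟩ := by
      intro j hj y hy
      simp only [E]
      rw [dif_pos hj]
      constructor
      · rintro ⟨z, hz, rfl⟩
        exact hz
      · intro h2
        exact ⟨⟨y, hy⟩, h2, rfl⟩
    refine colour_of_split (fun j => U ∩ Ψ ⁻¹' E j) (fun j => hU.inter (hΨm (hE j))) ?_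
    rintro x ⟨N, hN1, hN2⟩
    have hit1 : ∀ i, S^[N + i] x ∈ U ∧ Ψ (S^[N + i] x) ∈ Paths R := by
      intro i
      induction i with
      | zero => exact ⟨hN1, hN2⟩
      | succ i ih =>
        have h1 : S^[N + (i + 1)] x = S (S^[N + i] x) := Function.iterate_succ_apply' S (N + i) x
        rw [h1]
        refine ⟨hUS _ ih.1, ?_⟩
        rw [hΨS _ ih.1]
        exact (Paths_inv R).S_mem ih.2
    have hit' : ∀ n, N ≤ n → S^[n] x ∈ U ∧ Ψ (S^[n] x) ∈ Paths R := by
      intro n hn
      have h1 := hit1 (n - N)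
      rw [Nat.add_sub_cancel' hn] at h1
      exact h1
    have hne : ∀ n (hn : N ≤ n) (hn' : N ≤ n + 1), c ⟨Ψ (S^[n] x), (hit' n hn).2⟩ ≠ c ⟨Ψ (S^[n + 1] x), (hit' (n + 1) hn').2⟩ := by
      intro n hn hn'
      refine hc _ _ (Or.inl ?_)
      change Ψ (S^[n + 1] x) = S (Ψ (S^[n] x))
      rw [Function.iterate_succ_apply', hΨS _ (hit' n hn).1]
    obtain ⟨j, hj⟩ : ∃ j : Fin k, ∃ᶠ n in atTop, Ψ (S^[n] x) ∈ E j.1 := by
      by_contra hcon
      push Not at hcon
      have h1 : ∀ᶠ n in atTop, ∀ j : Fin k, Ψ (S^[n] x) ∉ E j.1 := Filter.eventually_all.2 hcon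
      obtain ⟨M, hM⟩ := Filter.eventually_atTop.1 h1
      have h2 := hit' (max M N) (le_max_right _ _)
      exact hM (max M N) (le_max_left _ _) _ ((hEm _ (c ⟨_, h2.2⟩).2 _ h2.2).2 rfl)
    refine ⟨j.1, ?_, ?_⟩
    · exact (hj.and_eventually (Filter.eventually_ge_atTop N)).mono fun n hn => ⟨(hit' n hn.2).1, hn.1⟩
    · rw [Filter.frequently_atTop]
      intro M
      have hn : N ≤ max M N := le_max_right _ _
      by_cases h1 : Ψ (S^[max M N] x) ∈ E j.1
      · refine ⟨max M N + 1, by omega, fun h2 => ?_⟩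
        have h3 := (hEm j.1 j.2 _ (hit' _ hn).2).1 h1
        have h4 := (hEm j.1 j.2 _ (hit' (max M N + 1) (by omega)).2).1 h2.2
        exact hne _ hn (by omega) (h3.trans h4.symm)
      · exact ⟨max M N, le_max_left _ _, fun h2 => h1 h2.2⟩
  refine colour_of_pieces (fun _ => P) (fun _ => hPm) (fun _ => hPinv) 3 (fun _ => hPc)
    (fun i => if i = 0 then {x | a x < a (S x)} else D (i - 1)) ?_ ?_
  · intro i
    split_ifs
    · exact measurableSet_lt ha (ha.comp measurable_S)
    · exact hD _
  · intro x hx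
    rcases h x hx with ⟨j, h1, h2⟩ | h1
    · refine Or.inr ⟨j + 1, ?_⟩
      rw [if_neg (Nat.succ_ne_zero j), Nat.add_sub_cancel]
      exact ⟨h1, h2⟩
    have hm : ∀ n, S^[n] x ∈ {x : Seq | a x < a (S x)} ↔ a (S^[n] x) < a (S^[n + 1] x) := by
      intro n
      rw [Function.iterate_succ_apply']
      rfl
    by_cases h2 : ∃ᶠ n in atTop, a (S^[n] x) < a (S^[n + 1] x)
    · by_cases h3 : ∃ᶠ n in atTop, ¬ a (S^[n] x) < a (S^[n + 1] x)
      · refine Or.inr ⟨0, ?_⟩
        rw [if_pos rfl]
        exact ⟨h2.mono fun n hn => (hm n).2 hn, h3.mono fun n hn h4 => hn ((hm n).1 h4)⟩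
      · left
        refine ⟨0, ?_⟩
        have h4 : ∀ᶠ n in atTop, a (S^[n] x) < a (S^[n + 1] x) := by
          rw [Filter.not_frequently] at h3
          exact h3.mono fun n hn => not_not.1 hn
        obtain ⟨N, hN⟩ := Filter.eventually_atTop.1 (h4.and h1)
        have h5 : S^[N] x ∈ U := by
          refine strictMono_nat_of_lt_succ fun i => ?_
          rw [hit, hit]
          exact (hN (N + i) (by omega)).1
        refine ⟨N, h5, Filter.Eventually.of_forall fun i => ?_⟩
        rw [hΨ _ h5, hΨ _ h5, hit, hit]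
        exact (hN (N + i) (by omega)).2
    · exfalso
      rw [Filter.not_frequently] at h2
      obtain ⟨N, hN⟩ := Filter.eventually_atTop.1 (h2.and h1)
      have h3 : ∀ i, a (S^[N + i] x) + i ≤ a (S^[N] x) := by
        intro i
        induction i with
        | zero => exact le_rfl
        | succ i ih =>
          obtain ⟨h4, h5⟩ := hN (N + i) (by omega)
          have h6 : a (S^[N + i] x) ≠ a (S^[N + i + 1] x) := fun h7 => hR _ (by rw [← h7] at h5; exact h5)
          have h8 : a (S^[N + (i + 1)] x) < a (S^[N + i] x) := by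
            rw [show N + (i + 1) = N + i + 1 by omega]
            omega
          omega
      have h9 := h3 (a (S^[N] x) + 1)
      omega

/-- The word with the code `a`. -/
def word (a : ℕ) : List ℕ := Denumerable.ofNat (List ℕ) a

/-- The embedding of words, where a letter `x` can go to a letter `y` if `R x y` fails. -/
def Emb (R : ℕ → ℕ → Prop) (u v : List ℕ) : Prop := List.SublistForall₂ (fun x y => ¬ R x y) u v

/-- The word coded by `a` does not embed into the word coded by `b`. -/
def Words (R : ℕ → ℕ → Prop) : ℕ → ℕ → Prop := fun a b => ¬ Emb R (word a) (word b)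

section least

variable (R : ℕ → ℕ → Prop)

private theorem emb_prefix {u v v' : List ℕ} (h : Emb R u v) (hv : v <+: v') : Emb R u v' := by
  unfold Emb at *
  rw [List.sublistForall₂_iff] at *
  obtain ⟨l, h1, h2⟩ := h
  exact ⟨l, h1, h2.trans hv.sublist⟩

private theorem emb_concat {u v : List ℕ} {x y : ℕ} (h : Emb R u v) (hxy : ¬ R x y) : Emb R (u ++ [x]) (v ++ [y]) := by
  unfold Emb at *
  rw [List.sublistForall₂_iff] at *
  obtain ⟨l, h1, h2⟩ := h
  exact ⟨l ++ [y], List.rel_append h1 (List.Forall₂.cons hxy List.Forall₂.nil), h2.append (List.Sublist.refl _)⟩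

/-- the length of the shortest prefix of `u` which does not embed into `v` -/
private noncomputable def lp (u v : List ℕ) : ℕ := sInf {i | ¬ Emb R (u.take i) v ∨ u.length ≤ i}

private theorem lp_le (u v : List ℕ) : lp R u v ≤ u.length := Nat.sInf_le (Or.inr le_rfl)

private theorem lp_le' {u v : List ℕ} {i : ℕ} (h : ¬ Emb R (u.take i) v) : lp R u v ≤ i := Nat.sInf_le (Or.inl h)

private theorem lp_mem (u v : List ℕ) : ¬ Emb R (u.take (lp R u v)) v ∨ u.length ≤ lp R u v :=
  Nat.sInf_mem (s := {i | ¬ Emb R (u.take i) v ∨ u.length ≤ i}) ⟨u.length, Or.inr le_rfl⟩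

private theorem lp_spec {u v : List ℕ} (h : ¬ Emb R u v) : ¬ Emb R (u.take (lp R u v)) v := by
  rcases lp_mem R u v with h1 | h1
  · exact h1
  · rw [List.take_of_length_le h1]
    exact h

private theorem lp_mono {u v v' : List ℕ} (hv : v <+: v') : lp R u v ≤ lp R u v' := by
  rcases lp_mem R u v' with h1 | h1
  · exact lp_le' R fun h2 => h1 (emb_prefix R h2 hv)
  · exact (lp_le R u v).trans h1

/-- `k` steps back from the empty prefix -/
private noncomputable def len (w : ℕ → List ℕ) : ℕ → ℕ → ℕ
  | 0, _ => 0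
  | k + 1, n => lp R (w n) ((w (n + 1)).take (len w k (n + 1)))

private theorem len_le (w : ℕ → List ℕ) (k n : ℕ) : len R w k n ≤ (w n).length := by
  cases k with
  | zero => exact Nat.zero_le _
  | succ k => exact lp_le R _ _

private theorem len_mono (w : ℕ → List ℕ) (k n : ℕ) : len R w k n ≤ len R w (k + 1) n := by
  induction k generalizing n with
  | zero => exact Nat.zero_le _
  | succ k ih => exact lp_mono R (List.take_prefix_take_left (ih (n + 1)))

/-- the length of the prefix in the least family -/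
private noncomputable def lim (w : ℕ → List ℕ) (n : ℕ) : ℕ := ⨆ k, len R w k n

private theorem lim_bdd (w : ℕ → List ℕ) (n : ℕ) : BddAbove (Set.range fun k => len R w k n) := by
  refine ⟨(w n).length, ?_⟩
  rintro _ ⟨k, rfl⟩
  exact len_le R w k n

private theorem len_le_lim (w : ℕ → List ℕ) (k n : ℕ) : len R w k n ≤ lim R w n := le_ciSup (lim_bdd R w n) k

private theorem lim_le {w : ℕ → List ℕ} {n c : ℕ} (h : ∀ k, len R w k n ≤ c) : lim R w n ≤ c := ciSup_le h

private theorem lim_eq (w : ℕ → List ℕ) (n : ℕ) : ∃ k0, ∀ k, k0 ≤ k → len R w k n = lim R w n := by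
  have h1 : lim R w n ∈ Set.range fun k => len R w k n := Nat.sSup_mem ⟨_, 0, rfl⟩ (lim_bdd R w n)
  obtain ⟨k0, h0⟩ := h1
  refine ⟨k0, fun k hk => le_antisymm (len_le_lim R w k n) ?_⟩
  rw [← h0]
  exact monotone_nat_of_le_succ (fun k => len_mono R w k n) hk

private theorem lim_fix (w : ℕ → List ℕ) (n : ℕ) : lim R w n = lp R (w n) ((w (n + 1)).take (lim R w (n + 1))) := by
  obtain ⟨k1, h1⟩ := lim_eq R w n
  obtain ⟨k2, h2⟩ := lim_eq R w (n + 1)
  rw [← h1 (max k1 k2 + 1) (by omega), ← h2 (max k1 k2) (by omega)]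
  rfl

private theorem len_shift (w : ℕ → List ℕ) (m k n : ℕ) : len R (fun i => w (m + i)) k n = len R w k (m + n) := by
  induction k generalizing n with
  | zero => rfl
  | succ k ih =>
    change lp R _ (List.take (len R (fun i => w (m + i)) k (n + 1)) _) = lp R _ _
    rw [ih]
    rfl

private theorem lim_shift (w : ℕ → List ℕ) (m : ℕ) : lim R (fun i => w (m + i)) 0 = lim R w m := by
  unfold lim
  exact iSup_congr fun k => len_shift R w m k 0

/-- the prefix in the least family without its last letter -/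
private noncomputable def pre (w : ℕ → List ℕ) (n : ℕ) : List ℕ := (w n).take (lim R w n - 1)

/-- the last letter of the prefix in the least family -/
private noncomputable def letter (w : ℕ → List ℕ) (n : ℕ) : ℕ := (w n).getD (lim R w n - 1) 0

private theorem bad {w : ℕ → List ℕ} {n : ℕ} (h : ¬ Emb R (w n) (w (n + 1))) :
    ¬ Emb R ((w n).take (lim R w n)) ((w (n + 1)).take (lim R w (n + 1))) := by
  have h1 : ¬ Emb R (w n) ((w (n + 1)).take (lim R w (n + 1))) := fun h2 => h (emb_prefix R h2 (List.take_prefix _ _))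
  have h2 := lp_spec R h1
  rw [← lim_fix] at h2
  exact h2

private theorem lim_pos {w : ℕ → List ℕ} {n : ℕ} (h : ¬ Emb R (w n) (w (n + 1))) : 0 < lim R w n := by
  by_contra h1
  refine bad R h ?_
  rw [Nat.le_zero.1 (not_lt.1 h1), List.take_zero]
  exact List.SublistForall₂.nil

private theorem take_lim {w : ℕ → List ℕ} {n : ℕ} (h : 0 < lim R w n) :
    (w n).take (lim R w n) = pre R w n ++ [letter R w n] := by
  have h1 : lim R w n ≤ (w n).length := lim_le R fun k => len_le R w k n
  have h2 : lim R w n - 1 < (w n).length := by omega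
  unfold pre letter
  conv_lhs => rw [show lim R w n = lim R w n - 1 + 1 by omega]
  rw [List.take_add_one, List.getElem?_eq_getElem h2, List.getD_eq_getElem _ _ h2]
  rfl

private theorem letter_R {w : ℕ → List ℕ} {n : ℕ} (h : ¬ Emb R (w n) (w (n + 1))) (h' : ¬ Emb R (w (n + 1)) (w (n + 2)))
    (hp : Emb R (pre R w n) (pre R w (n + 1))) : R (letter R w n) (letter R w (n + 1)) := by
  by_contra h1
  refine bad R h ?_
  rw [take_lim R (lim_pos R h), take_lim R (lim_pos R h')]
  exact emb_concat R hp h1

private theorem pre_frequently {w : ℕ → List ℕ} (h : ∀ᶠ n in atTop, ¬ Emb R (w n) (w (n + 1))) :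
    ∃ᶠ n in atTop, Emb R (pre R w n) (pre R w (n + 1)) := by
  intro hcon
  obtain ⟨M, hM⟩ := Filter.eventually_atTop.1 (hcon.and h)
  have h1 : ∀ k n, M ≤ n → len R w k n ≤ lim R w n - 1 := by
    intro k
    induction k with
    | zero => exact fun n _ => Nat.zero_le _
    | succ k ih =>
      intro n hn
      refine lp_le' R fun h2 => (hM n hn).1 ?_
      exact emb_prefix R h2 (List.take_prefix_take_left (ih (n + 1) (by omega)))
  have h2 := lim_le R fun k => h1 k M le_rfl
  have h3 := lim_pos R (hM M le_rfl).2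
  omega

private theorem measurable_len (k n : ℕ) : Measurable fun x : Seq => len R (fun i => word (x.1 i)) k n := by
  induction k generalizing n with
  | zero => exact measurable_const
  | succ k ih =>
    exact (measurable_of_countable (f := fun p : ℕ × ℕ × ℕ => lp R (word p.1) ((word p.2.1).take p.2.2))).comp
      ((measurable_eval n).prodMk ((measurable_eval (n + 1)).prodMk (ih (n + 1))))

private theorem measurable_lim (n : ℕ) : Measurable fun x : Seq => lim R (fun i => word (x.1 i)) n :=
  Measurable.iSup fun k => measurable_len R k n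

end least

theorem words_colour {R : ℕ → ℕ → Prop} (hR : ∀ a, ¬ R a a) {k : ℕ} (hc : BorelColourable k (Paths R)) :
    BorelColourable 3 (Paths (Words R)) := by
  have hsh : ∀ (x : Seq) (n : ℕ), (fun i => word ((S^[n] x).1 i)) = fun i => (fun j => word (x.1 j)) (n + i) := by
    intro x n
    funext i
    rw [iter_apply]
  have hpre : ∀ (x : Seq) (n : ℕ), pre R (fun i => word ((S^[n] x).1 i)) 0 = pre R (fun i => word (x.1 i)) n := by
    intro x n
    unfold pre
    rw [hsh]
    have h1 := lim_shift R (fun j => word (x.1 j)) n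
    rw [h1]
    rfl
  have hlet : ∀ (x : Seq) (n : ℕ), letter R (fun i => word ((S^[n] x).1 i)) 0 = letter R (fun i => word (x.1 i)) n := by
    intro x n
    unfold letter
    rw [hsh]
    have h1 := lim_shift R (fun j => word (x.1 j)) n
    rw [h1]
    rfl
  refine colour_of_letters hR hc (fun x => letter R (fun i => word (x.1 i)) 0) ?_
    (fun _ => {x | Emb R (pre R (fun i => word (x.1 i)) 0) (pre R (fun i => word ((S x).1 i)) 0)}) ?_ ?_
  · exact (measurable_of_countable (f := fun p : ℕ × ℕ => (word p.1).getD (p.2 - 1) 0)).comp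
      ((measurable_eval 0).prodMk (measurable_lim R 0))
  · intro _
    have h1 : Measurable fun x : Seq => (x.1 0, lim R (fun i => word (x.1 i)) 0, (S x).1 0, lim R (fun i => word ((S x).1 i)) 0) :=
      (measurable_eval 0).prodMk ((measurable_lim R 0).prodMk (((measurable_eval 0).comp measurable_S).prodMk
        ((measurable_lim R 0).comp measurable_S)))
    exact h1 (MeasurableSet.of_discrete (s := {p : ℕ × ℕ × ℕ × ℕ | Emb R ((word p.1).take (p.2.1 - 1))
      ((word p.2.2.1).take (p.2.2.2 - 1))}))
  · intro x hx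
    have hbad : ∀ᶠ n in atTop, ¬ Emb R (word (x.1 n)) (word (x.1 (n + 1))) := hx
    have hfr := pre_frequently R (w := fun i => word (x.1 i)) hbad
    have hm : ∀ n, S^[n] x ∈ {x : Seq | Emb R (pre R (fun i => word (x.1 i)) 0) (pre R (fun i => word ((S x).1 i)) 0)} ↔
        Emb R (pre R (fun i => word (x.1 i)) n) (pre R (fun i => word (x.1 i)) (n + 1)) := by
      intro n
      change Emb R (pre R (fun i => word ((S^[n] x).1 i)) 0) (pre R (fun i => word ((S (S^[n] x)).1 i)) 0) ↔ _
      rw [← Function.iterate_succ_apply' S, hpre, hpre]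
    by_cases h1 : ∃ᶠ n in atTop, ¬ Emb R (pre R (fun i => word (x.1 i)) n) (pre R (fun i => word (x.1 i)) (n + 1))
    · left
      exact ⟨0, hfr.mono fun n hn => (hm n).2 hn, h1.mono fun n hn h2 => hn ((hm n).1 h2)⟩
    · right
      rw [Filter.not_frequently] at h1
      obtain ⟨N, hN⟩ := Filter.eventually_atTop.1 (h1.and hbad)
      refine Filter.eventually_atTop.2 ⟨N, fun n hn => ?_⟩
      rw [hlet, hlet]
      exact letter_R R (hN n hn).2 (hN (n + 1) (by omega)).2 (not_not.1 (hN n hn).1)

theorem words_loopless {R : ℕ → ℕ → Prop} (hR : ∀ a, ¬ R a a) (a : ℕ) : ¬ Words R a a := by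
  unfold Words Emb
  rw [not_not, List.sublistForall₂_iff]
  exact ⟨word a, List.forall₂_same.2 fun x _ => hR x, List.Sublist.refl _⟩

/-- One letter words. -/
theorem hom_of_single {R R' : ℕ → ℕ → Prop} (h : BorelHom (Paths R))
    (hR : ∀ a b, R a b → R' (Encodable.encode [a]) (Encodable.encode [b])) : BorelHom (Paths R') := by
  obtain ⟨f, h1, h2, h3⟩ := h
  have he : ∀ a : ℕ, Encodable.encode [a] = Nat.pair a 0 + 1 := fun a => by
    rw [Encodable.encode_list_cons, Encodable.encode_list_nil]
    rfl
  have hm : ∀ v : Seq, StrictMono fun n => Encodable.encode [v.1 n] := fun v i j hij => by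
    change Encodable.encode [v.1 i] < Encodable.encode [v.1 j]
    rw [he, he]
    exact Nat.succ_lt_succ (Nat.pair_lt_pair_left _ (v.2 hij))
  let Φ : Seq → Seq := fun v => ⟨fun n => Encodable.encode [v.1 n], hm v⟩
  have hΦ : Measurable Φ := by
    refine Measurable.subtype_mk ?_
    refine measurable_pi_lambda _ fun n => ?_
    exact (measurable_of_countable (f := fun a : ℕ => Encodable.encode [a])).comp (measurable_eval n)
  refine ⟨fun x => Φ (f x), hΦ.comp h1, ?_, ?_⟩
  · intro x
    have h4 : ∀ᶠ n in atTop, R ((f x).1 n) ((f x).1 (n + 1)) := h2 x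
    exact h4.mono fun n hn => hR _ _ hn
  · intro x y hxy
    rcases h3 x y hxy with h4 | h4
    · left
      change Φ (f y) = S (Φ (f x))
      rw [h4]
      rfl
    · right
      change Φ (f x) = S (Φ (f y))
      rw [h4]
      rfl

theorem word_single (a : ℕ) : word (Encodable.encode [a]) = [a] := Denumerable.ofNat_encode [a]

theorem words_hom {R : ℕ → ℕ → Prop} (h : BorelHom (Paths R)) : BorelHom (Paths (Words R)) := by
  refine hom_of_single h fun a b hab => ?_
  unfold Words
  rw [word_single, word_single]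
  intro h1
  unfold Emb at h1
  rw [List.sublistForall₂_iff] at h1
  obtain ⟨l, h2, h3⟩ := h1
  cases h2 with
  | cons h4 h5 =>
    cases h5
    have h6 := List.singleton_sublist.1 h3
    rw [List.mem_singleton] at h6
    rw [h6] at h4
    exact h4 hab

end ShiftGraph
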